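import Pool.Agent.Lib.MP_412417_pr.Defs

/-!
Row 412-C1b: the algebra of the osculating disc.

Exact identity: `‖ζ‖^2 ‖1 + β ζ‖^2 - ‖ζ + conj β t^2‖^2 = (‖ζ‖^2 - t^2) (2 Re (β ζ) + ‖β‖^2 (‖ζ‖^2 + t^2))`, and
`‖ζ + conj β t^2‖^2 - ‖ζ‖^2 = 2 t^2 Re (β ζ) + ‖β‖^2 t^4 = O(t^3)`. So with `ξ = ζ + conj β t^2`, `M = O(t)`:
`‖ζ‖^2 ‖1 + β ζ‖^2 - t^2 = (‖ξ‖^2 - t^2) (1 + M) + O(t^4)`, and `E` changes `‖ζ‖ ‖1 + β ζ‖` by `O(t^3)`.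
-/

set_option autoImplicit false

open MeasureTheory Set
open scoped ENNReal Pointwise

namespace MP412

private theorem C1b_norm1 (β ζ : ℂ) :
    ‖1 + β * ζ‖ ^ 2 = 1 + 2 * (β * ζ).re + ‖β‖ ^ 2 * ‖ζ‖ ^ 2 := by
  rw [← mul_pow, ← norm_mul, Complex.sq_norm, Complex.sq_norm, Complex.normSq_apply,
    Complex.normSq_apply]
  simp only [Complex.add_re, Complex.one_re, Complex.add_im, Complex.one_im, Complex.mul_re,
    Complex.mul_im]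
  ring

private theorem C1b_norm2 (β ζ : ℂ) (t : ℝ) :
    ‖ζ + (starRingEnd ℂ) β * (t : ℂ) ^ 2‖ ^ 2 =
      ‖ζ‖ ^ 2 + 2 * t ^ 2 * (β * ζ).re + ‖β‖ ^ 2 * t ^ 4 := by
  rw [Complex.sq_norm, Complex.sq_norm, Complex.sq_norm, Complex.normSq_apply,
    Complex.normSq_apply, Complex.normSq_apply, ← Complex.ofReal_pow]
  simp only [Complex.add_re, Complex.add_im, Complex.mul_re, Complex.mul_im, Complex.conj_re,
    Complex.conj_im, Complex.ofReal_re, Complex.ofReal_im]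
  ring

/-- the estimate of `M` -/
private theorem C1b_M (b A B a R t : ℝ) (hb : 0 ≤ b) (hB : 0 ≤ B) (hBb : B ≤ b)
    (ha : 0 ≤ a) (haA : a ≤ A * t) (hR : |R| ≤ B * a) (ht : 0 < t) (ht1 : t ≤ 1) :
    |2 * R + B ^ 2 * (a ^ 2 + t ^ 2)| ≤ (2 * b * A + b ^ 2 * (A ^ 2 + 1)) * t ∧
      |2 * t ^ 2 * R + B ^ 2 * t ^ 4| ≤ (2 * b * A + b ^ 2) * t ^ 3 := by
  have h1 : |R| ≤ b * A * t := by
    calc |R| ≤ B * a := hR
      _ ≤ b * (A * t) := mul_le_mul hBb haA ha hb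
      _ = b * A * t := by ring
  have h2 : B ^ 2 ≤ b ^ 2 := pow_le_pow_left₀ hB hBb 2
  have h3 : a ^ 2 ≤ A ^ 2 * t ^ 2 := by
    rw [← mul_pow]
    exact pow_le_pow_left₀ ha haA 2
  have h4 : t ^ 2 ≤ t := by nlinarith
  have h5 : t ^ 4 ≤ t ^ 3 := by
    have : (0 : ℝ) < t ^ 3 := by positivity
    nlinarith
  constructor
  · calc |2 * R + B ^ 2 * (a ^ 2 + t ^ 2)| ≤ |2 * R| + |B ^ 2 * (a ^ 2 + t ^ 2)| := abs_add_le _ _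
      _ = 2 * |R| + B ^ 2 * (a ^ 2 + t ^ 2) := by
        rw [abs_mul, abs_of_pos (by norm_num : (0 : ℝ) < 2),
          abs_of_nonneg (by positivity : 0 ≤ B ^ 2 * (a ^ 2 + t ^ 2))]
      _ ≤ 2 * (b * A * t) + b ^ 2 * (A ^ 2 * t ^ 2 + t ^ 2) := by
        gcongr
      _ = 2 * (b * A * t) + b ^ 2 * (A ^ 2 + 1) * t ^ 2 := by ring
      _ ≤ 2 * (b * A * t) + b ^ 2 * (A ^ 2 + 1) * t := by
        gcongr
      _ = _ := by ring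
  · calc |2 * t ^ 2 * R + B ^ 2 * t ^ 4| ≤ |2 * t ^ 2 * R| + |B ^ 2 * t ^ 4| := abs_add_le _ _
      _ = 2 * t ^ 2 * |R| + B ^ 2 * t ^ 4 := by
        rw [abs_mul, abs_of_nonneg (by positivity : (0 : ℝ) ≤ 2 * t ^ 2),
          abs_of_nonneg (by positivity : 0 ≤ B ^ 2 * t ^ 4)]
      _ ≤ 2 * t ^ 2 * (b * A * t) + b ^ 2 * t ^ 3 := by
        gcongr
      _ = _ := by ring

private theorem C1b_real (M M₀ M₁ M₂ t P N L Q p : ℝ) (hM₀ : 0 ≤ M₀) (hM₁ : 0 ≤ M₁)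
    (hM₂ : 0 ≤ M₂) (ht : 0 < t)
    (hM : |M| ≤ M₀ * t) (hL : |L| ≤ M₁ * t ^ 3) (hPN : P = N + (N - L - t ^ 2) * M)
    (h1 : M₀ * t ≤ 1 / 2) (h2 : M₂ * t ^ 2 ≤ 1) (h3 : (6 * M₂ + 2 * M₀ * M₁) * t ^ 2 ≤ 1)
    (hp : 0 ≤ p) (hpP : p ^ 2 = P) (hQ : |Q - p| ≤ M₂ * t ^ 3) (n : ℝ) (hn : 0 ≤ n)
    (hnN : n ^ 2 = N) :
    (n ≤ t * (1 - (6 * M₂ + 2 * M₀ * M₁) * t ^ 2) → Q ≤ t) ∧
      (Q ≤ t → n ≤ t * (1 + (6 * M₂ + 2 * M₀ * M₁) * t ^ 2)) := by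
  set C : ℝ := 6 * M₂ + 2 * M₀ * M₁ with hC
  have hC0 : 0 ≤ C := by positivity
  have hML : |L * M| ≤ M₀ * M₁ * t ^ 4 := by
    rw [abs_mul]
    calc |L| * |M| ≤ (M₁ * t ^ 3) * (M₀ * t) :=
          mul_le_mul hL hM (abs_nonneg _) (by positivity)
      _ = _ := by ring
  have hM1 : -(1 / 2) ≤ M := by
    have := (abs_le.mp hM).1
    linarith
  have hM2 : M ≤ 1 / 2 := by
    have := (abs_le.mp hM).2
    linarith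
  have hPt : P - t ^ 2 = (N - t ^ 2) * (1 + M) - L * M := by
    rw [hPN]; ring
  obtain ⟨l1, l2⟩ := abs_le.mp hML
  obtain ⟨q1, q2⟩ := abs_le.mp hQ
  have ht2 : 0 < t ^ 2 := by positivity
  have ht4 : 0 < t ^ 4 := by positivity
  constructor
  · intro h
    have e1 : 0 ≤ 1 - C * t ^ 2 := by linarith
    have e2 : N ≤ t ^ 2 * (1 - C * t ^ 2) := by
      rw [← hnN]
      calc n ^ 2 ≤ (t * (1 - C * t ^ 2)) ^ 2 := pow_le_pow_left₀ hn h 2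
        _ = t ^ 2 * ((1 - C * t ^ 2) * (1 - C * t ^ 2)) := by ring
        _ ≤ t ^ 2 * ((1 - C * t ^ 2) * 1) := by
          gcongr
          have : 0 ≤ C * t ^ 2 := by positivity
          linarith
        _ = _ := by ring
    have e3 : N - t ^ 2 ≤ -(C * t ^ 4) := by
      have : t ^ 2 * (1 - C * t ^ 2) = t ^ 2 - C * t ^ 4 := by ring
      linarith
    have e4 : (N - t ^ 2) * (1 + M) ≤ -(C * t ^ 4) * (1 / 2) := by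
      have h5 : N - t ^ 2 ≤ 0 := by
        have : 0 ≤ C * t ^ 4 := by positivity
        linarith
      calc (N - t ^ 2) * (1 + M) ≤ (N - t ^ 2) * (1 / 2) :=
            mul_le_mul_of_nonpos_left (by linarith) h5
        _ ≤ -(C * t ^ 4) * (1 / 2) := by
          apply mul_le_mul_of_nonneg_right e3 (by norm_num)
    have e5 : P ≤ t ^ 2 - 2 * M₂ * t ^ 4 := by
      have e6 : -(C * t ^ 4) * (1 / 2) = -(3 * M₂ * t ^ 4) - M₀ * M₁ * t ^ 4 := by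
        rw [hC]; ring
      have e7 : 0 ≤ M₂ * t ^ 4 := by positivity
      linarith
    have e8 : 0 ≤ t - M₂ * t ^ 3 := by
      have : t - M₂ * t ^ 3 = t * (1 - M₂ * t ^ 2) := by ring
      rw [this]
      exact mul_nonneg ht.le (by linarith)
    have e9 : p ≤ t - M₂ * t ^ 3 := by
      refine (pow_le_pow_iff_left₀ hp e8 two_ne_zero).mp ?_
      rw [hpP]
      have : (t - M₂ * t ^ 3) ^ 2 = t ^ 2 - 2 * M₂ * t ^ 4 + (M₂ * t ^ 3) ^ 2 := by ring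
      have h0 : 0 ≤ (M₂ * t ^ 3) ^ 2 := sq_nonneg _
      linarith
    linarith
  · intro h
    have e1 : p ≤ t + M₂ * t ^ 3 := by linarith
    have e2 : P ≤ t ^ 2 + 3 * M₂ * t ^ 4 := by
      rw [← hpP]
      calc p ^ 2 ≤ (t + M₂ * t ^ 3) ^ 2 := pow_le_pow_left₀ hp e1 2
        _ = t ^ 2 + 2 * M₂ * t ^ 4 + M₂ * t ^ 4 * (M₂ * t ^ 2) := by ring
        _ ≤ t ^ 2 + 2 * M₂ * t ^ 4 + M₂ * t ^ 4 * 1 := by gcongr
        _ = _ := by ring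
    have e3 : (N - t ^ 2) * (1 + M) ≤ C / 2 * t ^ 4 := by
      have e6 : C / 2 * t ^ 4 = 3 * M₂ * t ^ 4 + M₀ * M₁ * t ^ 4 := by
        rw [hC]; ring
      linarith
    have e4 : N - t ^ 2 ≤ C * t ^ 4 := by
      rcases le_or_gt (N - t ^ 2) 0 with h0 | h0
      · have : 0 ≤ C * t ^ 4 := by positivity
        linarith
      · have h5 : (N - t ^ 2) * (1 / 2) ≤ (N - t ^ 2) * (1 + M) :=
          mul_le_mul_of_nonneg_left (by linarith) h0.le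
        linarith
    have e5 : 0 ≤ t * (1 + C * t ^ 2) := by positivity
    refine (pow_le_pow_iff_left₀ hn e5 two_ne_zero).mp ?_
    rw [hnN]
    have e6 : (t * (1 + C * t ^ 2)) ^ 2 = t ^ 2 + C * t ^ 4 + (C * t ^ 4 + (C * t ^ 3) ^ 2) := by
      ring
    have e7 : 0 ≤ C * t ^ 4 + (C * t ^ 3) ^ 2 := by positivity
    linarith

theorem disc_alg (b C₀ A : ℝ) (hb : 0 ≤ b) (hC₀ : 0 ≤ C₀) (hA : 0 ≤ A) :
    ∃ C t₀ : ℝ, 0 ≤ C ∧ 0 < t₀ ∧ ∀ t, 0 < t → t ≤ t₀ → ∀ β ζ E : ℂ, ‖β‖ ≤ b → ‖ζ‖ ≤ A * t →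
      ‖E‖ ≤ C₀ * ‖ζ‖ ^ 2 →
      (‖ζ + (starRingEnd ℂ) β * (t : ℂ) ^ 2‖ ≤ t * (1 - C * t ^ 2) → ‖ζ‖ * ‖1 + β * ζ + E‖ ≤ t) ∧
      (‖ζ‖ * ‖1 + β * ζ + E‖ ≤ t → ‖ζ + (starRingEnd ℂ) β * (t : ℂ) ^ 2‖ ≤ t * (1 + C * t ^ 2)) := by
  set M₀ : ℝ := 2 * b * A + b ^ 2 * (A ^ 2 + 1) with hM₀
  set M₁ : ℝ := 2 * b * A + b ^ 2 with hM₁
  set M₂ : ℝ := C₀ * A ^ 3 with hM₂
  have p0 : 0 ≤ M₀ := by positivity
  have p1 : 0 ≤ M₁ := by positivity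
  have p2 : 0 ≤ M₂ := by positivity
  set C : ℝ := 6 * M₂ + 2 * M₀ * M₁ with hC
  have pC : 0 ≤ C := by positivity
  refine ⟨C, 1 / (1 + 2 * M₀ + M₂ + C), pC, by positivity, ?_⟩
  intro t ht ht0 β ζ E hβ hζ hE
  have hD : t * (1 + 2 * M₀ + M₂ + C) ≤ 1 := by
    rwa [le_div_iff₀ (by positivity)] at ht0
  have t1 : t ≤ 1 := by
    have : 0 ≤ t * (2 * M₀ + M₂ + C) := by positivity
    nlinarith
  have t2 : t ^ 2 ≤ t := by nlinarith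
  have h1 : M₀ * t ≤ 1 / 2 := by
    have : 0 ≤ t * (1 + M₂ + C) := by positivity
    nlinarith
  have h2 : M₂ * t ^ 2 ≤ 1 := by
    have h3 : 0 ≤ t * (1 + 2 * M₀ + C) := by positivity
    have h4 : M₂ * t ^ 2 ≤ M₂ * t := by gcongr
    nlinarith
  have h3 : C * t ^ 2 ≤ 1 := by
    have h3 : 0 ≤ t * (1 + 2 * M₀ + M₂) := by positivity
    have h4 : C * t ^ 2 ≤ C * t := by gcongr
    nlinarith
  have hR : |(β * ζ).re| ≤ ‖β‖ * ‖ζ‖ := by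
    rw [← norm_mul]
    exact Complex.abs_re_le_norm _
  obtain ⟨m1, m2⟩ := C1b_M b A ‖β‖ ‖ζ‖ (β * ζ).re t hb (norm_nonneg _) hβ (norm_nonneg _) hζ hR
    ht t1
  refine C1b_real (2 * (β * ζ).re + ‖β‖ ^ 2 * (‖ζ‖ ^ 2 + t ^ 2)) M₀ M₁ M₂ t
    ((‖ζ‖ * ‖1 + β * ζ‖) ^ 2) (‖ζ + (starRingEnd ℂ) β * (t : ℂ) ^ 2‖ ^ 2)
    (2 * t ^ 2 * (β * ζ).re + ‖β‖ ^ 2 * t ^ 4) (‖ζ‖ * ‖1 + β * ζ + E‖) (‖ζ‖ * ‖1 + β * ζ‖)
    p0 p1 p2 ht m1 m2 ?_ h1 h2 h3 (by positivity) rfl ?_ _ (norm_nonneg _) rfl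
  · rw [mul_pow, C1b_norm1, C1b_norm2]
    ring
  · have e1 : |‖1 + β * ζ + E‖ - ‖1 + β * ζ‖| ≤ ‖E‖ := by
      have := abs_norm_sub_norm_le (1 + β * ζ + E) (1 + β * ζ)
      simpa using this
    rw [← mul_sub, abs_mul, abs_of_nonneg (norm_nonneg ζ)]
    calc ‖ζ‖ * |‖1 + β * ζ + E‖ - ‖1 + β * ζ‖| ≤ (A * t) * (C₀ * (A * t) ^ 2) := by
          gcongr
          refine e1.trans (hE.trans ?_)
          gcongr
      _ = M₂ * t ^ 3 := by rw [hM₂]; ring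

end MP412
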