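import Pool.Agent.Lib.MP_412417_pr.C1a
import Pool.Agent.Lib.MP_412417_pr.C1b

/-!
Row 412-C1: the image of a disc is nearly the disc with shifted centre.

`β = φ''(w) / (2 φ'(w))` is bounded on `N`, `|φ'|` is bounded and bounded below on `N`; `ζ = z - w`, `φ z - φ w = φ'(w) ζ (1 + β ζ + E)` with
`‖E‖ ≤ C₀ ‖ζ‖^2` (`taylor`), `z - shift φ t w = ζ + conj β t^2`. In the first implication `‖ζ‖ ≤ 2 t`, in the second
`‖ζ‖ ≤ A t` by `bilip`.
-/

set_option autoImplicit false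

open MeasureTheory Set
open scoped ENNReal Pointwise

namespace MP412

theorem sandwich (G : Set ℂ) (hG : IsOpen G) (φ : ℂ → ℂ) (hφ : DifferentiableOn ℂ φ G)
    (hinj : InjOn φ G) (hφ' : ∀ z ∈ G, deriv φ z ≠ 0)
    (N : Set ℂ) (hN : IsCompact N) (hNG : N ⊆ G) :
    ∃ C t₀ : ℝ, 0 ≤ C ∧ 0 < t₀ ∧ ∀ t, 0 < t → t ≤ t₀ → ∀ w ∈ N, ∀ z ∈ N,
      (‖z - shift φ t w‖ ≤ t * (1 - C * t ^ 2) → ‖φ z - φ w‖ ≤ t * ‖deriv φ w‖) ∧
      (‖φ z - φ w‖ ≤ t * ‖deriv φ w‖ → ‖z - shift φ t w‖ ≤ t * (1 + C * t ^ 2)) := by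
  have hd1 : DifferentiableOn ℂ (deriv φ) G := hφ.deriv hG
  have hd2 : DifferentiableOn ℂ (deriv (deriv φ)) G := hd1.deriv hG
  have hc1 : ContinuousOn (deriv φ) N := hd1.continuousOn.mono hNG
  have hc2 : ContinuousOn (deriv (deriv φ)) N := hd2.continuousOn.mono hNG
  have hne : ∀ w ∈ N, deriv φ w ≠ 0 := fun w hw => hφ' w (hNG hw)
  obtain ⟨M, hM⟩ := hN.exists_bound_of_continuousOn hc1
  obtain ⟨M', hM'⟩ := hN.exists_bound_of_continuousOn (hc1.inv₀ hne)
  obtain ⟨b0, hb0⟩ := hN.exists_bound_of_continuousOn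
    (f := fun w => deriv (deriv φ) w / (2 * deriv φ w))
    (hc2.div (continuousOn_const.mul hc1) fun w hw => mul_ne_zero two_ne_zero (hne w hw))
  obtain ⟨C₁, ρ, hC₁, hρ, htay⟩ := taylor G hG φ hφ N hN hNG
  obtain ⟨c, hc, hbil⟩ := bilip G hG φ hφ hinj hφ' N hN hNG
  have hb : 0 ≤ max b0 0 := le_max_right _ _
  have hM0 : 0 ≤ max M' 0 := le_max_right _ _
  have hA : 0 ≤ max 2 (M / c) := le_trans zero_le_two (le_max_left _ _)
  set b := max b0 0 with hbdef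
  set A := max 2 (M / c) with hAdef
  obtain ⟨C, t₁, hC, ht₁, halg⟩ := disc_alg b (C₁ * max M' 0) A hb (mul_nonneg hC₁ hM0) hA
  refine ⟨C, min t₁ (min (1 / (b + 1)) (ρ / (A + 1))), hC,
    lt_min ht₁ (lt_min (by positivity) (by positivity)), ?_⟩
  intro t ht htt w hw z hz
  have ht1 : t ≤ t₁ := le_trans htt (min_le_left _ _)
  have ht2 : t * (b + 1) ≤ 1 := by
    have h := le_trans htt (le_trans (min_le_right _ _) (min_le_left _ _))
    rwa [le_div_iff₀ (by positivity)] at h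
  have ht3 : t * (A + 1) ≤ ρ := by
    have h := le_trans htt (le_trans (min_le_right _ _) (min_le_right _ _))
    rwa [le_div_iff₀ (by positivity)] at h
  have hAt : A * t ≤ ρ := by nlinarith
  have hpos : 0 < ‖deriv φ w‖ := norm_pos_iff.2 (hne w hw)
  set β := deriv (deriv φ) w / (2 * deriv φ w) with hβ
  have hβb : ‖β‖ ≤ b := le_trans (hb0 w hw) (le_max_left _ _)
  have hsh : z - shift φ t w = (z - w) + (starRingEnd ℂ) β * (t : ℂ) ^ 2 := by
    rw [shift, ← hβ]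
    ring
  rw [hsh]
  -- the expansion
  have hexp : ‖z - w‖ ≤ ρ → ∃ E : ℂ, ‖E‖ ≤ C₁ * max M' 0 * ‖z - w‖ ^ 2 ∧
      ‖φ z - φ w‖ = ‖deriv φ w‖ * (‖z - w‖ * ‖1 + β * (z - w) + E‖) := by
    intro hzw
    rcases eq_or_ne z w with rfl | hzne
    · refine ⟨0, ?_, ?_⟩
      · simp
      · simp
    · have h1 := (htay w hw z (by rwa [dist_eq_norm])).2
      have hζ : z - w ≠ 0 := sub_ne_zero.2 hzne
      have hζ' : 0 < ‖z - w‖ := norm_pos_iff.2 hζ
      refine ⟨(φ z - φ w) / (deriv φ w * (z - w)) - 1 - β * (z - w), ?_, ?_⟩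
      · have e1 : (φ z - φ w) / (deriv φ w * (z - w)) - 1 - β * (z - w) =
            (φ z - φ w - deriv φ w * (z - w) - deriv (deriv φ) w / 2 * (z - w) ^ 2) *
              ((deriv φ w)⁻¹ * (z - w)⁻¹) := by
          rw [hβ]
          have := hne w hw
          field_simp
        rw [e1, norm_mul, norm_mul, norm_inv (z - w)]
        have h2 : ‖(deriv φ w)⁻¹‖ ≤ max M' 0 := le_trans (hM' w hw) (le_max_left _ _)
        calc ‖φ z - φ w - deriv φ w * (z - w) - deriv (deriv φ) w / 2 * (z - w) ^ 2‖ *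
              (‖(deriv φ w)⁻¹‖ * ‖z - w‖⁻¹)
            ≤ (C₁ * ‖z - w‖ ^ 3) * (max M' 0 * ‖z - w‖⁻¹) := by gcongr
          _ = C₁ * max M' 0 * ‖z - w‖ ^ 2 := by field_simp
      · rw [← norm_mul, ← norm_mul]
        congr 1
        have := hne w hw
        field_simp
        ring
  constructor
  · intro h1
    have hle : t * (1 - C * t ^ 2) ≤ t := by
      have : 0 ≤ t * (C * t ^ 2) := by positivity
      linarith
    have h2 : ‖z - w‖ ≤ 2 * t := by
      have h3 : ‖z - w‖ ≤ ‖(z - w) + (starRingEnd ℂ) β * (t : ℂ) ^ 2‖ +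
          ‖(starRingEnd ℂ) β * (t : ℂ) ^ 2‖ := by
        have h4 := norm_sub_le ((z - w) + (starRingEnd ℂ) β * (t : ℂ) ^ 2)
          ((starRingEnd ℂ) β * (t : ℂ) ^ 2)
        rwa [add_sub_cancel_right] at h4
      have h5 : ‖(starRingEnd ℂ) β * (t : ℂ) ^ 2‖ = ‖β‖ * t ^ 2 := by
        rw [norm_mul, RCLike.norm_conj, norm_pow, Complex.norm_real, Real.norm_eq_abs,
          abs_of_pos ht]
      rw [h5] at h3
      have h6 : ‖β‖ * t ^ 2 ≤ t := by
        have : ‖β‖ * t ^ 2 ≤ b * t ^ 2 := by gcongr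
        nlinarith
      linarith
    have hzA : ‖z - w‖ ≤ A * t := le_trans h2 (by gcongr; exact le_max_left _ _)
    obtain ⟨E, hE, heq⟩ := hexp (le_trans hzA hAt)
    have h7 := (halg t ht ht1 β (z - w) E hβb hzA hE).1 h1
    rw [heq, mul_comm t]
    gcongr
  · intro h1
    have hzA : ‖z - w‖ ≤ A * t := by
      have h2 := hbil z hz w hw
      have h3 : c * ‖z - w‖ ≤ t * M := le_trans h2 (le_trans h1 (by gcongr; exact hM w hw))
      have h4 : ‖z - w‖ ≤ M / c * t := by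
        rw [div_mul_eq_mul_div, le_div_iff₀ hc]
        linarith
      exact le_trans h4 (by gcongr; exact le_max_right _ _)
    obtain ⟨E, hE, heq⟩ := hexp (le_trans hzA hAt)
    rw [heq, mul_comm t] at h1
    have h5 : ‖z - w‖ * ‖1 + β * (z - w) + E‖ ≤ t := le_of_mul_le_mul_left h1 hpos
    exact (halg t ht ht1 β (z - w) E hβb hzA hE).2 h5

end MP412
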