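import Pool.Agent.Lib.MP_412417_pr.Defs

/-!
Row 412-C1a: uniform second order Taylor formula and bi-Lipschitz bound on compact sets.

`taylor`: choose `ρ` with `cthickening ρ N ⊆ G`; the third derivative is bounded there; integrate three times (mean value inequality on discs).
`bilip`: local bounds near every point of `N × N` (strict derivative on the diagonal, injectivity off it) and compactness.
-/

set_option autoImplicit false

open MeasureTheory Set
open scoped ENNReal Pointwise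

namespace MP412

theorem taylor (G : Set ℂ) (hG : IsOpen G) (φ : ℂ → ℂ) (hφ : DifferentiableOn ℂ φ G)
    (N : Set ℂ) (hN : IsCompact N) (hNG : N ⊆ G) :
    ∃ C ρ : ℝ, 0 ≤ C ∧ 0 < ρ ∧ ∀ w ∈ N, ∀ z, dist z w ≤ ρ → z ∈ G ∧
      ‖φ z - φ w - deriv φ w * (z - w) - deriv (deriv φ) w / 2 * (z - w) ^ 2‖ ≤
        C * ‖z - w‖ ^ 3 := by
  obtain ⟨ρ, hρ, hsub⟩ := hN.exists_cthickening_subset_open hG hNG
  have hK : IsCompact (Metric.cthickening ρ N) := hN.cthickening
  have h1 : DifferentiableOn ℂ (deriv φ) G := hφ.deriv hG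
  have h2 : DifferentiableOn ℂ (deriv (deriv φ)) G := h1.deriv hG
  have h3 : DifferentiableOn ℂ (deriv (deriv (deriv φ))) G := h2.deriv hG
  obtain ⟨L0, hL0⟩ := hK.exists_bound_of_continuousOn (h3.continuousOn.mono hsub)
  refine ⟨max L0 0, ρ, le_max_right _ _, hρ, ?_⟩
  set L : ℝ := max L0 0 with hLdef
  have hL : 0 ≤ L := le_max_right _ _
  intro w hw z hz
  have hball : ∀ y, ‖y - w‖ ≤ ρ → y ∈ Metric.cthickening ρ N := by
    intro y hy
    refine Metric.closedBall_subset_cthickening hw ρ ?_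
    rw [Metric.mem_closedBall, dist_eq_norm]
    exact hy
  have hbG : ∀ y, ‖y - w‖ ≤ ρ → y ∈ G := fun y hy => hsub (hball y hy)
  have hzn : ‖z - w‖ ≤ ρ := by rwa [dist_eq_norm] at hz
  refine ⟨hbG z hzn, ?_⟩
  have hat : ∀ (f : ℂ → ℂ), DifferentiableOn ℂ f G → ∀ y, ‖y - w‖ ≤ ρ → DifferentiableAt ℂ f y :=
    fun f hf y hy => hf.differentiableAt (hG.mem_nhds (hbG y hy))
  -- step 1
  have s1 : ∀ y, ‖y - w‖ ≤ ρ → ‖deriv (deriv φ) y - deriv (deriv φ) w‖ ≤ L * ‖y - w‖ := by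
    intro y hy
    refine (convex_closedBall w ρ).norm_image_sub_le_of_norm_deriv_le (𝕜 := ℂ)
      (fun x hx => hat _ h2 x (by rwa [Metric.mem_closedBall, dist_eq_norm] at hx))
      (fun x hx => ?_) (Metric.mem_closedBall_self hρ.le)
      (by rwa [Metric.mem_closedBall, dist_eq_norm])
    rw [Metric.mem_closedBall, dist_eq_norm] at hx
    exact (hL0 x (hball x hx)).trans (le_max_left _ _)
  -- step 2
  have s2 : ∀ y, ‖y - w‖ ≤ ρ →
      ‖deriv φ y - deriv φ w - deriv (deriv φ) w * (y - w)‖ ≤ L * ‖y - w‖ ^ 2 := by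
    intro y hy
    have hd : ∀ x, ‖x - w‖ ≤ ρ →
        HasDerivAt (fun x => deriv φ x - deriv φ w - deriv (deriv φ) w * (x - w))
          (deriv (deriv φ) x - deriv (deriv φ) w) x := by
      intro x hx
      have e1 := (hat _ h1 x hx).hasDerivAt
      have e2 := ((hasDerivAt_id x).sub_const w).const_mul (deriv (deriv φ) w)
      have e3 := (e1.sub_const (deriv φ w)).sub e2
      rw [mul_one] at e3
      exact e3
    have key := (convex_closedBall w ‖y - w‖).norm_image_sub_le_of_norm_deriv_le (𝕜 := ℂ)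
      (f := fun x => deriv φ x - deriv φ w - deriv (deriv φ) w * (x - w)) (C := L * ‖y - w‖)
      (x := w) (y := y)
      (fun x hx => (hd x ((by rwa [Metric.mem_closedBall, dist_eq_norm] at hx :
        ‖x - w‖ ≤ ‖y - w‖).trans hy)).differentiableAt)
      (fun x hx => by
        have hx' : ‖x - w‖ ≤ ‖y - w‖ := by rwa [Metric.mem_closedBall, dist_eq_norm] at hx
        rw [(hd x (hx'.trans hy)).deriv]
        exact (s1 x (hx'.trans hy)).trans (mul_le_mul_of_nonneg_left hx' hL))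
      (Metric.mem_closedBall_self (norm_nonneg _))
      (by rw [Metric.mem_closedBall, dist_eq_norm])
    simp only [sub_self, mul_zero, sub_zero] at key
    calc _ ≤ L * ‖y - w‖ * ‖y - w‖ := key
      _ = L * ‖y - w‖ ^ 2 := by ring
  -- step 3
  have hd : ∀ x, ‖x - w‖ ≤ ρ →
      HasDerivAt (fun x => φ x - φ w - deriv φ w * (x - w) - deriv (deriv φ) w / 2 * (x - w) ^ 2)
        (deriv φ x - deriv φ w - deriv (deriv φ) w * (x - w)) x := by
    intro x hx
    have e1 := (hat _ hφ x hx).hasDerivAt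
    have e0 := (hasDerivAt_id x).sub_const w
    have e2 := e0.const_mul (deriv φ w)
    have e3 := (e0.pow 2).const_mul (deriv (deriv φ) w / 2)
    have e4 := ((e1.sub_const (φ w)).sub e2).sub e3
    refine e4.congr_deriv ?_
    simp only [id]
    push_cast
    ring
  have key := (convex_closedBall w ‖z - w‖).norm_image_sub_le_of_norm_deriv_le (𝕜 := ℂ)
    (f := fun x => φ x - φ w - deriv φ w * (x - w) - deriv (deriv φ) w / 2 * (x - w) ^ 2)
    (C := L * ‖z - w‖ ^ 2) (x := w) (y := z)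
    (fun x hx => (hd x ((by rwa [Metric.mem_closedBall, dist_eq_norm] at hx :
      ‖x - w‖ ≤ ‖z - w‖).trans hzn)).differentiableAt)
    (fun x hx => by
      have hx' : ‖x - w‖ ≤ ‖z - w‖ := by rwa [Metric.mem_closedBall, dist_eq_norm] at hx
      rw [(hd x (hx'.trans hzn)).deriv]
      refine (s2 x (hx'.trans hzn)).trans (mul_le_mul_of_nonneg_left ?_ hL)
      exact pow_le_pow_left₀ (norm_nonneg _) hx' 2)
    (Metric.mem_closedBall_self (norm_nonneg _))
    (by rw [Metric.mem_closedBall, dist_eq_norm])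
  have hz0 : φ w - φ w - deriv φ w * (w - w) - deriv (deriv φ) w / 2 * (w - w) ^ 2 = 0 := by
    ring
  simp only [hz0, sub_zero] at key
  calc _ ≤ L * ‖z - w‖ ^ 2 * ‖z - w‖ := key
    _ = L * ‖z - w‖ ^ 3 := by ring

theorem bilip (G : Set ℂ) (hG : IsOpen G) (φ : ℂ → ℂ) (hφ : DifferentiableOn ℂ φ G)
    (hinj : InjOn φ G) (hφ' : ∀ z ∈ G, deriv φ z ≠ 0)
    (N : Set ℂ) (hN : IsCompact N) (hNG : N ⊆ G) :
    ∃ c : ℝ, 0 < c ∧ ∀ z ∈ N, ∀ w ∈ N, c * ‖z - w‖ ≤ ‖φ z - φ w‖ := by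
  have hNN : IsCompact (N ×ˢ N) := hN.prod hN
  have main : ∃ c : ℝ, 0 < c ∧ ∀ q ∈ N ×ˢ N, c * ‖q.1 - q.2‖ ≤ ‖φ q.1 - φ q.2‖ := by
    refine hNN.induction_on (p := fun s => ∃ c : ℝ, 0 < c ∧ ∀ q ∈ s,
      c * ‖q.1 - q.2‖ ≤ ‖φ q.1 - φ q.2‖) ?_ ?_ ?_ ?_
    · exact ⟨1, one_pos, fun q hq => absurd hq (Set.notMem_empty q)⟩
    · rintro s t hst ⟨c, hc, h⟩
      exact ⟨c, hc, fun q hq => h q (hst hq)⟩
    · rintro s t ⟨c, hc, h⟩ ⟨c', hc', h'⟩
      refine ⟨min c c', lt_min hc hc', ?_⟩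
      rintro q (hq | hq)
      · exact (mul_le_mul_of_nonneg_right (min_le_left _ _) (norm_nonneg _)).trans (h q hq)
      · exact (mul_le_mul_of_nonneg_right (min_le_right _ _) (norm_nonneg _)).trans (h' q hq)
    · rintro ⟨z, w⟩ ⟨hz, hw⟩
      have hzG := hNG hz
      have hwG := hNG hw
      by_cases hzw : z = w
      · subst hzw
        have hs : HasStrictDerivAt φ (deriv φ z) z :=
          (hφ.analyticAt (hG.mem_nhds hzG)).hasStrictDerivAt
        have hpos : 0 < ‖deriv φ z‖ / 2 := half_pos (norm_pos_iff.2 (hφ' z hzG))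
        have hev := hs.isLittleO.def hpos
        refine ⟨{q | ‖φ q.1 - φ q.2 - (ContinuousLinearMap.toSpanSingleton ℂ (deriv φ z))
          (q.1 - q.2)‖ ≤ ‖deriv φ z‖ / 2 * ‖q.1 - q.2‖}, mem_nhdsWithin_of_mem_nhds hev,
          ‖deriv φ z‖ / 2, hpos, ?_⟩
        rintro ⟨a, b⟩ hq
        simp only [Set.mem_setOf_eq, ContinuousLinearMap.toSpanSingleton_apply, smul_eq_mul] at hq
        have h1 : ‖(a - b) * deriv φ z‖ = ‖deriv φ z‖ * ‖a - b‖ := by
          rw [norm_mul, mul_comm]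
        have h2 : ‖(a - b) * deriv φ z‖ ≤ ‖φ a - φ b‖ + ‖φ a - φ b - (a - b) * deriv φ z‖ := by
          have e : (a - b) * deriv φ z = (φ a - φ b) - (φ a - φ b - (a - b) * deriv φ z) := by
            ring
          calc ‖(a - b) * deriv φ z‖ = ‖(φ a - φ b) - (φ a - φ b - (a - b) * deriv φ z)‖ := by
                rw [← e]
            _ ≤ _ := norm_sub_le _ _
        show ‖deriv φ z‖ / 2 * ‖a - b‖ ≤ ‖φ a - φ b‖
        rw [h1] at h2
        linarith
      · have hne : φ z ≠ φ w := fun h => hzw (hinj hzG hwG h)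
        have hcz : ContinuousAt φ z := (hφ.differentiableAt (hG.mem_nhds hzG)).continuousAt
        have hcw : ContinuousAt φ w := (hφ.differentiableAt (hG.mem_nhds hwG)).continuousAt
        have hc1 : ContinuousAt (fun q : ℂ × ℂ => ‖φ q.1 - φ q.2‖) (z, w) := by
          have t1 : ContinuousAt (fun q : ℂ × ℂ => φ q.1) (z, w) :=
            ContinuousAt.comp (g := φ) (f := Prod.fst) hcz continuousAt_fst
          have t2 : ContinuousAt (fun q : ℂ × ℂ => φ q.2) (z, w) :=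
            ContinuousAt.comp (g := φ) (f := Prod.snd) hcw continuousAt_snd
          exact (t1.sub t2).norm
        have hc2 : ContinuousAt (fun q : ℂ × ℂ => ‖q.1 - q.2‖) (z, w) := by fun_prop
        have ha : 0 < ‖φ z - φ w‖ := norm_pos_iff.2 (sub_ne_zero.2 hne)
        have hb : 0 < ‖z - w‖ := norm_pos_iff.2 (sub_ne_zero.2 hzw)
        have hev1 : ∀ᶠ q : ℂ × ℂ in nhds (z, w), ‖φ z - φ w‖ / 2 < ‖φ q.1 - φ q.2‖ :=
          hc1.eventually_const_lt (half_lt_self ha)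
        have hev2 : ∀ᶠ q : ℂ × ℂ in nhds (z, w), ‖q.1 - q.2‖ < 2 * ‖z - w‖ :=
          hc2.eventually_lt_const (by
            show ‖z - w‖ < 2 * ‖z - w‖
            linarith)
        refine ⟨{q | ‖φ z - φ w‖ / 2 < ‖φ q.1 - φ q.2‖ ∧ ‖q.1 - q.2‖ < 2 * ‖z - w‖},
          mem_nhdsWithin_of_mem_nhds (hev1.and hev2), ‖φ z - φ w‖ / (4 * ‖z - w‖),
          by positivity, ?_⟩
        rintro ⟨a, b⟩ ⟨h1, h2⟩
        have h3 : ‖φ z - φ w‖ / (4 * ‖z - w‖) * ‖a - b‖ ≤
            ‖φ z - φ w‖ / (4 * ‖z - w‖) * (2 * ‖z - w‖) :=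
          mul_le_mul_of_nonneg_left h2.le (by positivity)
        have h4 : ‖φ z - φ w‖ / (4 * ‖z - w‖) * (2 * ‖z - w‖) = ‖φ z - φ w‖ / 2 := by
          field_simp
          ring
        show ‖φ z - φ w‖ / (4 * ‖z - w‖) * ‖a - b‖ ≤ ‖φ a - φ b‖
        have h1' : ‖φ z - φ w‖ / 2 < ‖φ a - φ b‖ := h1
        linarith
  obtain ⟨c, hc, h⟩ := main
  exact ⟨c, hc, fun z hz w hw => h (z, w) ⟨hz, hw⟩⟩

end MP412
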