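import Pool.Agent.Lib.MP_412417_pr.Defs

/-!
Row 412-C2: the shift is injective on `N` with Jacobian `1 - t^4 |β'|^2`, `β = φ'' / (2 φ')`.

`β` is holomorphic on `G`, hence Lipschitz and with bounded derivative on the compact set `N` (locally Lipschitz and compact: for points at
distance at most `ρ` use the segment, for the others the bound). The real derivative of the shift at `w` is
`h ↦ h - conj (β'(w)) t^2 conj h`, of determinant `1 - t^4 ‖β'(w)‖^2`. Then
`MeasureTheory.lintegral_abs_det_fderiv_eq_addHaar_image`: for measurable `S ⊆ N` `volume (shift '' S) = ∫ S |det| ∈ [(1 - c t^4), 1] * volume S`; take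
`S = shift ⁻¹' T ∩ N`. Measurability: `measurable_deriv` holds for every function.
-/

set_option autoImplicit false

open MeasureTheory Set
open scoped ENNReal Pointwise

namespace MP412

theorem measurable_shift (φ : ℂ → ℂ) (t : ℝ) : Measurable (shift φ t) := by
  unfold shift
  have h1 : Measurable (deriv φ) := measurable_deriv φ
  have h2 : Measurable (deriv (deriv φ)) := measurable_deriv (deriv φ)
  have h3 : Measurable (fun w => (starRingEnd ℂ) (deriv (deriv φ) w / (2 * deriv φ w))) :=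
    Complex.continuous_conj.measurable.comp (h2.div (h1.const_mul 2))
  exact measurable_id.sub (h3.mul_const _)

/-- the determinant of `h ↦ h - c conj h` -/
private theorem C2_det (f : ℂ →L[ℝ] ℂ) (c : ℂ) (hf : ∀ h, f h = h - c * (starRingEnd ℂ) h) :
    f.det = 1 - ‖c‖ ^ 2 := by
  have h1 : f.det = LinearMap.det (f : ℂ →ₗ[ℝ] ℂ) := rfl
  rw [h1, ← LinearMap.det_toMatrix Complex.basisOneI, Matrix.det_fin_two]
  simp only [LinearMap.toMatrix_apply, Complex.coe_basisOneI_repr, Complex.coe_basisOneI,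
    ContinuousLinearMap.coe_coe, hf, Matrix.cons_val_zero, Matrix.cons_val_one]
  rw [← Complex.normSq_eq_norm_sq, Complex.normSq_apply]
  simp
  ring

/-- a holomorphic function is Lipschitz on a compact set, and its derivative is bounded -/
private theorem C2_lip (G : Set ℂ) (hG : IsOpen G) (β : ℂ → ℂ) (hβ : DifferentiableOn ℂ β G)
    (N : Set ℂ) (hN : IsCompact N) (hNG : N ⊆ G) :
    ∃ L : ℝ, 0 ≤ L ∧ (∀ w ∈ N, ‖deriv β w‖ ≤ L) ∧ ∀ w ∈ N, ∀ z ∈ N, ‖β z - β w‖ ≤ L * ‖z - w‖ := by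
  obtain ⟨δ, hδ, hδG⟩ := hN.exists_cthickening_subset_open hG hNG
  have hK : IsCompact (Metric.cthickening δ N) := hN.cthickening
  obtain ⟨L, hL⟩ := hK.exists_bound_of_continuousOn ((hβ.deriv hG).continuousOn.mono hδG)
  obtain ⟨M, hM⟩ := hN.exists_bound_of_continuousOn (hβ.continuousOn.mono hNG)
  refine ⟨|L| + 2 * |M| / δ, by positivity, fun w hw => ?_, fun w hw z hz => ?_⟩
  · have h1 := hL w (Metric.self_subset_cthickening N hw)
    have h2 : (0 : ℝ) ≤ 2 * |M| / δ := by positivity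
    exact (h1.trans (le_abs_self L)).trans (by linarith)
  · by_cases h : ‖z - w‖ ≤ δ
    · have hb : Metric.closedBall w δ ⊆ Metric.cthickening δ N :=
        Metric.closedBall_subset_cthickening hw δ
      have h1 := (convex_closedBall w δ).norm_image_sub_le_of_norm_deriv_le
        (f := β) (C := |L|) (fun x hx => (hβ.differentiableAt (hG.mem_nhds (hδG (hb hx)))))
        (fun x hx => (hL x (hb hx)).trans (le_abs_self L)) (Metric.mem_closedBall_self hδ.le)
        (show z ∈ Metric.closedBall w δ by rw [Metric.mem_closedBall, dist_eq_norm]; exact h)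
      refine h1.trans (mul_le_mul_of_nonneg_right ?_ (norm_nonneg _))
      have h2 : (0 : ℝ) ≤ 2 * |M| / δ := by positivity
      linarith
    · have h1 : ‖β z - β w‖ ≤ 2 * |M| := by
        have h2 := (hM z hz).trans (le_abs_self M)
        have h3 := (hM w hw).trans (le_abs_self M)
        exact (norm_sub_le _ _).trans (by linarith)
      have h2 : 2 * |M| ≤ 2 * |M| / δ * ‖z - w‖ := by
        rw [div_mul_eq_mul_div, le_div_iff₀ hδ]
        exact mul_le_mul_of_nonneg_left (not_le.1 h).le (by positivity)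
      have h3 : 0 ≤ |L| * ‖z - w‖ := by positivity
      rw [add_mul]
      linarith

theorem shift_measure (G : Set ℂ) (hG : IsOpen G) (φ : ℂ → ℂ) (hφ : DifferentiableOn ℂ φ G)
    (hφ' : ∀ z ∈ G, deriv φ z ≠ 0) (N : Set ℂ) (hN : IsCompact N) (hNG : N ⊆ G) :
    ∃ C t₀ : ℝ, 0 ≤ C ∧ 0 < t₀ ∧ ∀ t, 0 < t → t ≤ t₀ →
      InjOn (shift φ t) N ∧
      volume.restrict (shift φ t '' N) ≤ (volume.restrict N).map (shift φ t) ∧
      (volume.restrict N).map (shift φ t) ≤
        ENNReal.ofReal (1 + C * t ^ 4) • volume.restrict (shift φ t '' N) := by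
  set β : ℂ → ℂ := fun w => deriv (deriv φ) w / (2 * deriv φ w) with hβdef
  have hβ : DifferentiableOn ℂ β G := by
    refine ((hφ.deriv hG).deriv hG).div ((hφ.deriv hG).const_mul 2) fun z hz => ?_
    exact mul_ne_zero two_ne_zero (hφ' z hz)
  obtain ⟨L, hL0, hLd, hLl⟩ := C2_lip G hG β hβ N hN hNG
  refine ⟨2 * L ^ 2, 1 / (2 * (L + 1)), by positivity, by positivity, fun t ht ht0 => ?_⟩
  have htL : t * (L + 1) ≤ 1 / 2 := by
    rw [le_div_iff₀ (by positivity)] at ht0
    linarith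
  have ht1 : t ≤ 1 / 2 := by nlinarith
  have htL2 : t ^ 2 * L ≤ 1 / 4 := by nlinarith
  have hinj : InjOn (shift φ t) N := by
    intro w hw z hz hwz
    have h1 : w - z = (starRingEnd ℂ) (β w - β z) * (t : ℂ) ^ 2 := by
      have h2 : w - (starRingEnd ℂ) (β w) * (t : ℂ) ^ 2 = z - (starRingEnd ℂ) (β z) * (t : ℂ) ^ 2 := hwz
      rw [map_sub, sub_mul]
      linear_combination h2
    have h3 : ‖w - z‖ ≤ L * ‖w - z‖ * t ^ 2 := by
      calc ‖w - z‖ = ‖(starRingEnd ℂ) (β w - β z) * (t : ℂ) ^ 2‖ := by rw [← h1]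
        _ = ‖β w - β z‖ * t ^ 2 := by
          rw [norm_mul, RCLike.norm_conj, norm_pow, Complex.norm_real, Real.norm_eq_abs, sq_abs]
        _ ≤ _ := mul_le_mul_of_nonneg_right (hLl z hz w hw) (sq_nonneg t)
    have h4 : ‖w - z‖ ≤ 0 := by nlinarith [norm_nonneg (w - z)]
    exact sub_eq_zero.1 (norm_le_zero_iff.1 h4)
  -- the derivative
  have hder : ∀ w ∈ N, ∃ f : ℂ →L[ℝ] ℂ, HasFDerivAt (shift φ t) f w ∧
      ∀ h, f h = h - ((starRingEnd ℂ) (deriv β w) * (t : ℂ) ^ 2) * (starRingEnd ℂ) h := by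
    intro w hw
    have h1 : HasDerivAt β (deriv β w) w := (hβ.differentiableAt (hG.mem_nhds (hNG hw))).hasDerivAt
    have h2 := h1.hasFDerivAt.restrictScalars ℝ
    have h3 := (Complex.conjCLE : ℂ →L[ℝ] ℂ).hasFDerivAt.comp w h2
    have h4 := (hasFDerivAt_id (𝕜 := ℝ) w).sub (h3.mul_const ((t : ℂ) ^ 2))
    refine ⟨_, h4, fun h => ?_⟩
    simp
    ring
  choose! f' hf' hf'a using hder
  have hdet : ∀ w ∈ N, (f' w).det = 1 - t ^ 4 * ‖deriv β w‖ ^ 2 := by
    intro w hw
    rw [C2_det (f' w) _ (hf'a w hw), norm_mul, RCLike.norm_conj, norm_pow, Complex.norm_real,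
      Real.norm_eq_abs, sq_abs]
    ring
  have hx : t ^ 4 * L ^ 2 ≤ 1 / 16 := by
    have : t ^ 4 * L ^ 2 = (t ^ 2 * L) ^ 2 := by ring
    rw [this]
    nlinarith [mul_nonneg (sq_nonneg t) hL0]
  have hdet1 : ∀ w ∈ N, |(f' w).det| ≤ 1 := by
    intro w hw
    have h1 : t ^ 4 * ‖deriv β w‖ ^ 2 ≤ t ^ 4 * L ^ 2 :=
      mul_le_mul_of_nonneg_left (pow_le_pow_left₀ (norm_nonneg _) (hLd w hw) 2) (by positivity)
    have h2 : 0 ≤ t ^ 4 * ‖deriv β w‖ ^ 2 := by positivity
    rw [hdet w hw, abs_le]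
    constructor <;> linarith
  have hdet2 : ∀ w ∈ N, 1 - t ^ 4 * L ^ 2 ≤ |(f' w).det| := by
    intro w hw
    have h1 : t ^ 4 * ‖deriv β w‖ ^ 2 ≤ t ^ 4 * L ^ 2 :=
      mul_le_mul_of_nonneg_left (pow_le_pow_left₀ (norm_nonneg _) (hLd w hw) 2) (by positivity)
    rw [hdet w hw]
    exact (by linarith : 1 - t ^ 4 * L ^ 2 ≤ 1 - t ^ 4 * ‖deriv β w‖ ^ 2).trans (le_abs_self _)
  have hmeas := measurable_shift φ t
  have himg : ∀ T : Set ℂ, shift φ t '' (shift φ t ⁻¹' T ∩ N) = T ∩ shift φ t '' N := by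
    intro T
    ext y
    constructor
    · rintro ⟨w, ⟨h1, h2⟩, rfl⟩
      exact ⟨h1, w, h2, rfl⟩
    · rintro ⟨h1, w, h2, rfl⟩
      exact ⟨w, ⟨h1, h2⟩, rfl⟩
  have harea : ∀ T : Set ℂ, MeasurableSet T →
      ∫⁻ x in shift φ t ⁻¹' T ∩ N, ENNReal.ofReal |(f' x).det| = volume (T ∩ shift φ t '' N) := by
    intro T hT
    rw [← himg T]
    exact lintegral_abs_det_fderiv_eq_addHaar_image volume ((hmeas hT).inter hN.measurableSet)
      (fun x hx => (hf' x hx.2).hasFDerivWithinAt) (hinj.mono inter_subset_right)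
  refine ⟨hinj, ?_, ?_⟩
  · rw [Measure.le_iff]
    intro T hT
    rw [Measure.restrict_apply hT, Measure.map_apply hmeas hT, Measure.restrict_apply (hmeas hT),
      ← harea T hT]
    calc ∫⁻ x in shift φ t ⁻¹' T ∩ N, ENNReal.ofReal |(f' x).det|
        ≤ ∫⁻ x in shift φ t ⁻¹' T ∩ N, 1 := by
          refine setLIntegral_mono' ((hmeas hT).inter hN.measurableSet) fun x hx => ?_
          rw [← ENNReal.ofReal_one]
          exact ENNReal.ofReal_le_ofReal (hdet1 x hx.2)
      _ = volume (shift φ t ⁻¹' T ∩ N) := by rw [setLIntegral_one]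
  · rw [Measure.le_iff]
    intro T hT
    rw [Measure.smul_apply, Measure.restrict_apply hT, Measure.map_apply hmeas hT,
      Measure.restrict_apply (hmeas hT), ← harea T hT, smul_eq_mul]
    have h1 : ENNReal.ofReal (1 - t ^ 4 * L ^ 2) * volume (shift φ t ⁻¹' T ∩ N) ≤
        ∫⁻ x in shift φ t ⁻¹' T ∩ N, ENNReal.ofReal |(f' x).det| := by
      rw [← setLIntegral_const]
      exact setLIntegral_mono' ((hmeas hT).inter hN.measurableSet) fun x hx =>
        ENNReal.ofReal_le_ofReal (hdet2 x hx.2)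
    calc volume (shift φ t ⁻¹' T ∩ N) = 1 * volume (shift φ t ⁻¹' T ∩ N) := (one_mul _).symm
      _ ≤ (ENNReal.ofReal (1 + 2 * L ^ 2 * t ^ 4) * ENNReal.ofReal (1 - t ^ 4 * L ^ 2)) *
          volume (shift φ t ⁻¹' T ∩ N) := by
        gcongr
        rw [← ENNReal.ofReal_mul (by positivity), ← ENNReal.ofReal_one]
        apply ENNReal.ofReal_le_ofReal
        have h2 : 0 ≤ t ^ 4 * L ^ 2 := by positivity
        nlinarith
      _ = ENNReal.ofReal (1 + 2 * L ^ 2 * t ^ 4) * (ENNReal.ofReal (1 - t ^ 4 * L ^ 2) *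
          volume (shift φ t ⁻¹' T ∩ N)) := mul_assoc _ _ _
      _ ≤ _ := mul_le_mul_right h1 _

end MP412
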