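import Pool.Agent.Lib.MP_412417_pr.Defs

/-!
Row 412-C3: the image of `N` under the shift contains a neighbourhood of `K`.

Choose `ρ` with `cthickening (3 ρ) K ⊆ interior N`. On a ball `closedBall p ρ` (`p ∈ cthickening ρ K`) the shift is the identity plus a map with
Lipschitz constant at most `1/2` and norm at most `ρ/4` for `t ≤ t₀` (uniformly, compactness), so the image contains `p`
(`ApproximatesLinearOn.surjOn_closedBall_of_nonlinearRightInverse`, or the contraction `z ↦ p + conj β(z) t^2` on the complete set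
`closedBall p ρ`).
-/

set_option autoImplicit false

open MeasureTheory Set
open scoped ENNReal Pointwise

namespace MP412

private theorem C3_fix (g : ℂ → ℂ) (p : ℂ) (ρ t C : ℝ) (hρ : 0 < ρ) (ht : 0 < t)
    (hB : ∀ z ∈ Metric.closedBall p ρ, ‖g z‖ ≤ C)
    (hL : ∀ z ∈ Metric.closedBall p ρ, ∀ w ∈ Metric.closedBall p ρ, ‖g z - g w‖ ≤ C * ‖z - w‖)
    (h1 : C * t ^ 2 ≤ ρ) (h2 : C * t ^ 2 ≤ 1 / 2) :
    ∃ z ∈ Metric.closedBall p ρ, z - (starRingEnd ℂ) (g z) * (t : ℂ) ^ 2 = p := by
  set T : ℂ → ℂ := fun z => p + (starRingEnd ℂ) (g z) * (t : ℂ) ^ 2 with hT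
  have hmaps : MapsTo T (Metric.closedBall p ρ) (Metric.closedBall p ρ) := by
    intro z hz
    rw [Metric.mem_closedBall, dist_eq_norm]
    have : T z - p = (starRingEnd ℂ) (g z) * (t : ℂ) ^ 2 := by simp [hT]
    rw [this, norm_mul, norm_pow, Complex.norm_real, Complex.norm_conj, Real.norm_of_nonneg ht.le]
    calc ‖g z‖ * t ^ 2 ≤ C * t ^ 2 := by gcongr; exact hB z hz
      _ ≤ ρ := h1
  have hcontr : ContractingWith (1 / 2) (hmaps.restrict T _ _) := by
    refine ⟨by norm_num, ?_⟩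
    apply LipschitzWith.of_dist_le_mul
    intro z w
    rw [Subtype.dist_eq, Subtype.dist_eq, dist_eq_norm, dist_eq_norm]
    have : T z - T w = (starRingEnd ℂ) (g z - g w) * (t : ℂ) ^ 2 := by
      simp only [hT, map_sub]
      ring
    change ‖T z - T w‖ ≤ _
    rw [this, norm_mul, norm_pow, Complex.norm_real, Complex.norm_conj, Real.norm_of_nonneg ht.le]
    have h3 := hL z z.2 w w.2
    have h4 : ((1 / 2 : NNReal) : ℝ) = 1 / 2 := by simp
    rw [h4]
    calc ‖g z - g w‖ * t ^ 2 ≤ C * ‖(z : ℂ) - w‖ * t ^ 2 := by gcongr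
      _ = C * t ^ 2 * ‖(z : ℂ) - w‖ := by ring
      _ ≤ 1 / 2 * ‖(z : ℂ) - w‖ := by gcongr
  obtain ⟨z, hz, hfix, -⟩ := ContractingWith.exists_fixedPoint'
    (Metric.isClosed_closedBall.isComplete) hmaps hcontr (Metric.mem_closedBall_self hρ.le)
    (edist_ne_top _ _)
  refine ⟨z, hz, ?_⟩
  have h5 : T z = z := hfix
  rw [hT] at h5
  simp only at h5
  rw [← eq_sub_iff_add_eq] at h5
  exact h5.symm

theorem shift_surj (G : Set ℂ) (hG : IsOpen G) (φ : ℂ → ℂ) (hφ : DifferentiableOn ℂ φ G)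
    (hφ' : ∀ z ∈ G, deriv φ z ≠ 0) (K N : Set ℂ) (hK : IsCompact K) (hN : IsCompact N)
    (hKN : K ⊆ interior N) (hNG : N ⊆ G) :
    ∃ ρ t₀ : ℝ, 0 < ρ ∧ 0 < t₀ ∧ Metric.cthickening ρ K ⊆ N ∧
      ∀ t, 0 < t → t ≤ t₀ → Metric.cthickening ρ K ⊆ shift φ t '' N := by
  obtain ⟨δ, hδ, hδK⟩ := hK.exists_cthickening_subset_open isOpen_interior hKN
  have hδN : Metric.cthickening δ K ⊆ N := hδK.trans interior_subset
  set g : ℂ → ℂ := fun w => deriv (deriv φ) w / (2 * deriv φ w) with hg
  have hd1 : DifferentiableOn ℂ (deriv φ) G := hφ.deriv hG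
  have hd2 : DifferentiableOn ℂ (deriv (deriv φ)) G := hd1.deriv hG
  have hgd : DifferentiableOn ℂ g G :=
    hd2.div (hd1.const_mul 2) fun z hz => mul_ne_zero two_ne_zero (hφ' z hz)
  obtain ⟨B, hB⟩ := hN.exists_bound_of_continuousOn (hgd.continuousOn.mono hNG)
  obtain ⟨L, hL⟩ := hN.exists_bound_of_continuousOn ((hgd.deriv hG).continuousOn.mono hNG)
  set C : ℝ := max B L with hC
  set D : ℝ := |C| + 1 with hD
  have hD1 : 1 ≤ D := by
    rw [hD]
    linarith [abs_nonneg C]
  have hCD : C ≤ D := by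
    rw [hD]
    linarith [le_abs_self C]
  have hρ : 0 < δ / 2 := by positivity
  set m : ℝ := min (δ / 2) (1 / 2) with hm
  have hm0 : 0 < m := lt_min hρ (by norm_num)
  have hballN : ∀ p ∈ Metric.cthickening (δ / 2) K, Metric.closedBall p (δ / 2) ⊆ N := by
    intro p hp
    refine ((Metric.closedBall_subset_cthickening hp _).trans
      (Metric.cthickening_cthickening_subset hρ.le hρ.le K)).trans ?_
    rw [add_halves]
    exact hδN
  refine ⟨δ / 2, min 1 (m / D), hρ, lt_min one_pos (by positivity), ?_, ?_⟩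
  · exact (Metric.cthickening_mono (by linarith) K).trans hδN
  · intro t ht0 ht p hp
    have ht1 : t ≤ 1 := ht.trans (min_le_left _ _)
    have ht2 : t ≤ m / D := ht.trans (min_le_right _ _)
    have ht3 : D * t ^ 2 ≤ m := by
      rw [le_div_iff₀ (by positivity)] at ht2
      calc D * t ^ 2 = (t * D) * t := by ring
        _ ≤ m * 1 := by gcongr
        _ = m := mul_one m
    have hball := hballN p hp
    obtain ⟨z, hz, hzp⟩ := C3_fix g p (δ / 2) t D hρ ht0
      (fun z hz => ((hB z (hball hz)).trans (le_max_left B L)).trans hCD) (by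
        intro z hz w hw
        refine (convex_closedBall p (δ / 2)).norm_image_sub_le_of_norm_deriv_le
          (fun x hx => hgd.differentiableAt (hG.mem_nhds (hNG (hball hx))))
          (fun x hx => ((hL x (hball hx)).trans (le_max_right B L)).trans hCD) hw hz)
      (ht3.trans (min_le_left _ _)) (ht3.trans (min_le_right _ _))
    refine ⟨z, hball hz, ?_⟩
    rw [shift]
    exact hzp

end MP412
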