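import Pool.Agent.Lib.MP_412417_pr.L0

/-!
Row 412-C4: change of variables for the intensity.

`ψ` is holomorphic on the open set `φ '' G` with `deriv ψ (φ z) = (deriv φ z)⁻¹` (inverse function theorem, open mapping). For a measurable set
`S`: `∫ φ''N ∩ ψ⁻¹ S, n^2 ‖ψ'‖^2 = n^2 volume (N ∩ S)` by `lintegral_abs_det_fderiv_eq_addHaar_image` (the real determinant of the multiplication by
a complex number `a` is `‖a‖^2`).
-/

set_option autoImplicit false

open MeasureTheory Set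
open scoped ENNReal Pointwise

namespace MP412

theorem deriv_inv (G : Set ℂ) (hG : IsOpen G) (φ ψ : ℂ → ℂ) (hφ : DifferentiableOn ℂ φ G)
    (hφ' : ∀ z ∈ G, deriv φ z ≠ 0) (hψ : ∀ z ∈ G, ψ (φ z) = z) (z : ℂ) (hz : z ∈ G) :
    HasDerivAt ψ (deriv φ z)⁻¹ (φ z) := by
  have h1 : HasStrictDerivAt φ (deriv φ z) z :=
    (hφ.analyticAt (hG.mem_nhds hz)).hasStrictDerivAt
  have h2 : Filter.map φ (nhds z) = nhds (φ z) := h1.map_nhds_eq (hφ' z hz)
  have h3 : ∀ᶠ w in nhds z, ψ (φ w) = w := by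
    filter_upwards [hG.mem_nhds hz] with w hw using hψ w hw
  have h4 : ContinuousAt ψ (φ z) := by
    rw [ContinuousAt, ← h2, Filter.tendsto_map'_iff, hψ z hz]
    exact Filter.tendsto_id.congr' (h3.mono fun w hw => hw.symm)
  have h5 : ∀ᶠ y in nhds (φ z), φ (ψ y) = y := by
    rw [← h2, Filter.eventually_map]
    filter_upwards [h3] with w hw
    rw [hw]
  refine HasDerivAt.of_local_left_inverse h4 ?_ (hφ' z hz) h5
  rw [hψ z hz]
  exact h1.hasDerivAt

theorem measurable_inv (G : Set ℂ) (hG : IsOpen G) (φ ψ : ℂ → ℂ) (hφ : DifferentiableOn ℂ φ G)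
    (hφ' : ∀ z ∈ G, deriv φ z ≠ 0) (hψ : ∀ z ∈ G, ψ (φ z) = z)
    (N : Set ℂ) (hN : IsCompact N) (hNG : N ⊆ G) : Measurable ((φ '' N).indicator ψ) := by
  classical
  have h1 : IsCompact (φ '' N) := hN.image_of_continuousOn (hφ.continuousOn.mono hNG)
  have h2 : ContinuousOn ψ (φ '' N) := by
    rintro _ ⟨z, hz, rfl⟩
    exact (deriv_inv G hG φ ψ hφ hφ' hψ z (hNG hz)).continuousAt.continuousWithinAt
  rw [← Set.piecewise_eq_indicator]
  exact h2.measurable_piecewise continuousOn_const h1.isClosed.measurableSet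

private theorem C4_det (a : ℂ) :
    ((ContinuousLinearMap.toSpanSingleton ℂ a).restrictScalars ℝ : ℂ →L[ℝ] ℂ).det = ‖a‖ ^ 2 := by
  have h1 : (((ContinuousLinearMap.toSpanSingleton ℂ a).restrictScalars ℝ : ℂ →L[ℝ] ℂ) :
      ℂ →ₗ[ℝ] ℂ) = Algebra.lmul ℝ ℂ a := by
    ext <;> simp [mul_comm]
  rw [ContinuousLinearMap.det, h1, ← Algebra.norm_apply, Algebra.norm_complex_apply,
    Complex.normSq_eq_norm_sq]

theorem change_var (G : Set ℂ) (hG : IsOpen G) (φ ψ : ℂ → ℂ) (hφ : DifferentiableOn ℂ φ G)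
    (hφ' : ∀ z ∈ G, deriv φ z ≠ 0) (hψ : ∀ z ∈ G, ψ (φ z) = z)
    (N : Set ℂ) (hN : IsCompact N) (hNG : N ⊆ G) (n : ℝ) (hn : 0 < n) :
    ((volume.restrict (φ '' N)).withDensity
      fun x => ENNReal.ofReal ((n * ‖deriv ψ x‖) ^ 2)).map ((φ '' N).indicator ψ) =
        lam n⁻¹ N := by
  have hm := measurable_inv G hG φ ψ hφ hφ' hψ N hN hNG
  have hNc : MeasurableSet (φ '' N) :=
    (hN.image_of_continuousOn (hφ.continuousOn.mono hNG)).isClosed.measurableSet
  ext S hS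
  rw [Measure.map_apply hm hS, withDensity_apply _ (hm hS), Measure.restrict_restrict (hm hS),
    lam_apply _ _ _ hS, inv_inv]
  have h1 : ((φ '' N).indicator ψ) ⁻¹' S ∩ φ '' N = φ '' (S ∩ N) := by
    ext x
    constructor
    · rintro ⟨h2, z, hz, rfl⟩
      rw [mem_preimage, indicator_of_mem (mem_image_of_mem φ hz), hψ z (hNG hz)] at h2
      exact ⟨z, ⟨h2, hz⟩, rfl⟩
    · rintro ⟨z, ⟨h2, hz⟩, rfl⟩
      refine ⟨?_, mem_image_of_mem φ hz⟩
      rw [mem_preimage, indicator_of_mem (mem_image_of_mem φ hz), hψ z (hNG hz)]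
      exact h2
  have hSN : MeasurableSet (S ∩ N) := hS.inter hN.isClosed.measurableSet
  have hinj : InjOn φ (S ∩ N) := by
    intro a ha b hb hab
    rw [← hψ a (hNG ha.2), ← hψ b (hNG hb.2), hab]
  have hd : ∀ z ∈ S ∩ N, HasFDerivWithinAt φ
      ((ContinuousLinearMap.toSpanSingleton ℂ (deriv φ z)).restrictScalars ℝ : ℂ →L[ℝ] ℂ)
      (S ∩ N) z := by
    intro z hz
    have h2 : HasDerivAt φ (deriv φ z) z :=
      (hφ.differentiableAt (hG.mem_nhds (hNG hz.2))).hasDerivAt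
    exact (h2.hasFDerivAt.restrictScalars ℝ).hasFDerivWithinAt
  rw [h1, lintegral_image_eq_lintegral_abs_det_fderiv_mul volume hSN hd hinj]
  have h3 : ∀ z ∈ S ∩ N, ENNReal.ofReal
      |((ContinuousLinearMap.toSpanSingleton ℂ (deriv φ z)).restrictScalars ℝ : ℂ →L[ℝ] ℂ).det| *
      ENNReal.ofReal ((n * ‖deriv ψ (φ z)‖) ^ 2) = ENNReal.ofReal (n ^ 2) := by
    intro z hz
    have h4 : (0 : ℝ) < ‖deriv φ z‖ := norm_pos_iff.mpr (hφ' z (hNG hz.2))
    rw [C4_det, (deriv_inv G hG φ ψ hφ hφ' hψ z (hNG hz.2)).deriv, abs_of_nonneg (by positivity),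
      ← ENNReal.ofReal_mul (by positivity), norm_inv]
    congr 1
    field_simp
  rw [setLIntegral_congr_fun hSN h3, setLIntegral_const]

end MP412
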