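import Pool.Agent.Lib.MP_412417_pr.P0
import Pool.Agent.Lib.MP_412417_pr.C1
import Pool.Agent.Lib.MP_412417_pr.C4

/-!
Row 412-C5: the crossing event of the image, pulled back.

`t = r / n`; a point of the configuration is `x = φ w`, `w ∈ N`, and `r / (n ‖deriv ψ x‖) = t ‖deriv φ w‖` (`deriv_inv`); the configuration
`mapConf (shift φ t) (mapConf (indicator ψ) c)` has the points `shift φ t w`. If `C ⊆ φ '' K` is preconnected, so is `ψ '' C ⊆ K` (`ψ` is continuous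
there), and conversely `φ '' C`; use `sandwich` for `z ∈ K`.
-/

set_option autoImplicit false

open MeasureTheory Set
open scoped ENNReal Pointwise

namespace MP412

theorem event_sandwich (G : Set ℂ) (hG : IsOpen G) (φ ψ : ℂ → ℂ) (hφ : DifferentiableOn ℂ φ G)
    (hφ' : ∀ z ∈ G, deriv φ z ≠ 0) (hψ : ∀ z ∈ G, ψ (φ z) = z) (K N A B : Set ℂ)
    (hN : IsCompact N) (hKN : K ⊆ N) (hNG : N ⊆ G) (hAK : A ⊆ K) (hBK : B ⊆ K)
    (r : ℝ) (hr : 0 < r) :
    ∃ C n₀ : ℝ, 0 ≤ C ∧ 0 < n₀ ∧ ∀ n, n₀ ≤ n → ∀ c : Conf, pts c ⊆ φ '' N →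
      (Crosses (⋃ x ∈ pts c, Metric.closedBall x (r / (n * ‖deriv ψ x‖))) (φ '' K) (φ '' A)
          (φ '' B) →
        mapConf (shift φ (r / n)) (mapConf ((φ '' N).indicator ψ) c) ∈
          Ev (r / n * (1 + C * (r / n) ^ 2)) K A B) ∧
      (mapConf (shift φ (r / n)) (mapConf ((φ '' N).indicator ψ) c) ∈
          Ev (r / n * (1 - C * (r / n) ^ 2)) K A B →
        Crosses (⋃ x ∈ pts c, Metric.closedBall x (r / (n * ‖deriv ψ x‖))) (φ '' K) (φ '' A)
          (φ '' B)) := by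
  have hinj : InjOn φ G := by
    intro a ha b hb hab
    rw [← hψ a ha, ← hψ b hb, hab]
  obtain ⟨C, t₀, hC, ht₀, hsand⟩ := sandwich G hG φ hφ hinj hφ' N hN hNG
  refine ⟨C, r / t₀, hC, by positivity, ?_⟩
  intro n hn c hc
  have hn0 : 0 < n := lt_of_lt_of_le (by positivity) hn
  have ht : 0 < r / n := by positivity
  have htt : r / n ≤ t₀ := by
    rw [div_le_iff₀ hn0]
    rw [div_le_iff₀ ht₀] at hn
    linarith
  have hpts : pts (mapConf (shift φ (r / n)) (mapConf ((φ '' N).indicator ψ) c)) =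
      shift φ (r / n) '' ((φ '' N).indicator ψ '' pts c) := by
    rw [pts_mapConf, pts_mapConf]
  have hrad : ∀ w ∈ N, r / (n * ‖deriv ψ (φ w)‖) = r / n * ‖deriv φ w‖ := by
    intro w hw
    have h := (deriv_inv G hG φ ψ hφ hφ' hψ w (hNG hw)).deriv
    rw [h, norm_inv]
    have : ‖deriv φ w‖ ≠ 0 := norm_ne_zero_iff.2 (hφ' w (hNG hw))
    field_simp
  have hindic : ∀ w ∈ N, (φ '' N).indicator ψ (φ w) = w := by
    intro w hw
    rw [indicator_of_mem (mem_image_of_mem φ hw), hψ w (hNG hw)]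
  constructor
  · rintro ⟨D, hD, hDc, ⟨a, haD, haA⟩, ⟨b, hbD, hbB⟩⟩
    refine ⟨ψ '' D, ?_, ?_, ?_, ?_⟩
    · rintro z ⟨y, hy, rfl⟩
      obtain ⟨hyS, k, hk, rfl⟩ := hD hy
      rw [hψ k (hNG (hKN hk))]
      refine ⟨?_, hk⟩
      simp only [mem_iUnion, Metric.mem_closedBall, exists_prop] at hyS ⊢
      obtain ⟨x, hx, hdist⟩ := hyS
      obtain ⟨w, hw, rfl⟩ := hc hx
      rw [hrad w hw, dist_eq_norm] at hdist
      refine ⟨shift φ (r / n) w, ?_, ?_⟩
      · rw [hpts]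
        refine ⟨w, ⟨φ w, hx, hindic w hw⟩, rfl⟩
      · rw [dist_eq_norm]
        exact (hsand (r / n) ht htt w hw k (hKN hk)).2 hdist
    · apply hDc.image
      intro y hy
      obtain ⟨_, k, hk, rfl⟩ := hD hy
      exact (deriv_inv G hG φ ψ hφ hφ' hψ k (hNG (hKN hk))).continuousAt.continuousWithinAt
    · obtain ⟨a', ha', rfl⟩ := haA
      refine ⟨a', ⟨φ a', haD, hψ a' (hNG (hKN (hAK ha')))⟩, ha'⟩
    · obtain ⟨b', hb', rfl⟩ := hbB
      refine ⟨b', ⟨φ b', hbD, hψ b' (hNG (hKN (hBK hb')))⟩, hb'⟩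
  · rintro ⟨D, hD, hDc, ⟨a, haD, haA⟩, ⟨b, hbD, hbB⟩⟩
    refine ⟨φ '' D, ?_, ?_, ?_, ?_⟩
    · rintro y ⟨z, hz, rfl⟩
      obtain ⟨hzS, hzK⟩ := hD hz
      refine ⟨?_, mem_image_of_mem φ hzK⟩
      simp only [mem_iUnion, Metric.mem_closedBall, exists_prop] at hzS ⊢
      obtain ⟨x', hx', hdist⟩ := hzS
      rw [hpts] at hx'
      obtain ⟨w', ⟨x, hx, rfl⟩, rfl⟩ := hx'
      obtain ⟨w, hw, rfl⟩ := hc hx
      rw [hindic w hw, dist_eq_norm] at hdist
      refine ⟨φ w, hx, ?_⟩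
      rw [hrad w hw, dist_eq_norm]
      exact (hsand (r / n) ht htt w hw z (hKN hzK)).1 hdist
    · apply hDc.image
      intro z hz
      exact ((hφ z (hNG (hKN (hD hz).2))).differentiableAt
        (hG.mem_nhds (hNG (hKN (hD hz).2)))).continuousAt.continuousWithinAt
    · exact ⟨φ a, mem_image_of_mem φ haD, mem_image_of_mem φ haA⟩
    · exact ⟨φ b, mem_image_of_mem φ hbD, mem_image_of_mem φ hbB⟩

end MP412
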