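import Pool.Agent.Lib.MP_412417_pr.P0

/-!
Row 412-G1: measurability of the chain event.

For `c = ⟨k, x⟩` the set of `x : Fin k → ℂ` is closed: it is the finite union, over the pairs `i, j` and the
relations `R` on `Fin k` under which `i` and `j` are connected, of the closed sets `{x | x i near A, x j near B, Link (x a) (x b)
for (a, b) ∈ R}`; `{(x, y) | Link u s K x y}` is closed since `K` is compact. (`MeasurableSet` of a set in the sigma type: for all
`k` the preimage under `Sigma.mk k` is measurable.)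
-/

set_option autoImplicit false

open MeasureTheory Set
open scoped ENNReal Pointwise

namespace MP412

theorem chain_mono {u u' s : ℝ} {K A B X Y : Set ℂ} (hu : u ≤ u') (hXY : X ⊆ Y)
    (h : Chain u s K A B X) : Chain u' s K A B Y := by
  obtain ⟨x, hx, y, hy, hxA, hyB, hr⟩ := h
  refine ⟨x, hXY hx, y, hXY hy, hxA, hyB, ?_⟩
  have h1 : ∀ a b, (a ∈ X ∧ b ∈ X ∧ Link u s K a b) → (a ∈ Y ∧ b ∈ Y ∧ Link u' s K a b) :=
    fun a b hab => ⟨hXY hab.1, hXY hab.2.1, hab.2.2.1.trans hu, hab.2.2.2⟩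
  exact Relation.ReflTransGen.mono h1 _ _ hr

private theorem G1_ex {X : Type} [TopologicalSpace X] {K : Set ℂ} (hK : IsCompact K)
    {F : X → ℂ → Prop} (hF : IsClosed {z : X × ℂ | F z.1 z.2}) : IsClosed {x | ∃ q ∈ K, F x q} := by
  have : CompactSpace K := isCompact_iff_compactSpace.1 hK
  have h1 : IsClosed {z : X × K | F z.1 (z.2 : ℂ)} :=
    hF.preimage (continuous_fst.prodMk (continuous_subtype_val.comp continuous_snd))
  have h2 : {x | ∃ q ∈ K, F x q} = Prod.fst '' {z : X × K | F z.1 (z.2 : ℂ)} := by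
    ext x
    constructor
    · rintro ⟨q, hq, hF⟩
      exact ⟨(x, ⟨q, hq⟩), hF, rfl⟩
    · rintro ⟨⟨x', q⟩, hF, rfl⟩
      exact ⟨q, q.2, hF⟩
  rw [h2]
  exact isClosedMap_fst_of_compactSpace _ h1

private theorem G1_near {k : ℕ} {A : Set ℂ} (hA : IsCompact A) (s : ℝ) (i : Fin k) :
    IsClosed {x : Fin k → ℂ | ∃ q ∈ A, dist (x i) q ≤ s} := by
  refine G1_ex hA (F := fun (x : Fin k → ℂ) (q : ℂ) => dist (x i) q ≤ s) ?_
  exact isClosed_le (((continuous_apply i).comp continuous_fst).dist continuous_snd)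
    continuous_const

private theorem G1_link {k : ℕ} {K : Set ℂ} (hK : IsCompact K) (u s : ℝ) (i j : Fin k) :
    IsClosed {x : Fin k → ℂ | Link u s K (x i) (x j)} := by
  have h1 : IsClosed {x : Fin k → ℂ | ∃ q ∈ K, dist (x i) q ≤ s ∧ dist (x j) q ≤ s} := by
    refine G1_ex hK
      (F := fun (x : Fin k → ℂ) (q : ℂ) => dist (x i) q ≤ s ∧ dist (x j) q ≤ s) ?_
    exact (isClosed_le (((continuous_apply i).comp continuous_fst).dist continuous_snd)
      continuous_const).inter
      (isClosed_le (((continuous_apply j).comp continuous_fst).dist continuous_snd)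
        continuous_const)
  have h2 : IsClosed {x : Fin k → ℂ | dist (x i) (x j) ≤ u} :=
    isClosed_le ((continuous_apply i).dist (continuous_apply j)) continuous_const
  exact h2.inter h1

private theorem G1_iff {k : ℕ} (u s : ℝ) (K A B : Set ℂ) (x : Fin k → ℂ) :
    Chain u s K A B (range x) ↔ ∃ i j : Fin k, ∃ R : Fin k → Fin k → Prop,
      Relation.ReflTransGen R i j ∧ (∃ q ∈ A, dist (x i) q ≤ s) ∧ (∃ q ∈ B, dist (x j) q ≤ s) ∧
        ∀ a b, R a b → Link u s K (x a) (x b) := by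
  constructor
  · rintro ⟨_, ⟨i, rfl⟩, y, hy, hA, hB, hr⟩
    have key : ∃ j : Fin k, y = x j ∧
        Relation.ReflTransGen (fun a b : Fin k => Link u s K (x a) (x b)) i j := by
      clear hB hy
      induction hr with
      | refl => exact ⟨i, rfl, Relation.ReflTransGen.refl⟩
      | tail _ hbc ih =>
        obtain ⟨j, hj, hij⟩ := ih
        obtain ⟨_, ⟨l, hl⟩, hlink⟩ := hbc
        refine ⟨l, hl.symm, hij.tail ?_⟩
        show Link u s K (x j) (x l)
        rw [← hj, hl]
        exact hlink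
    obtain ⟨j, rfl, hij⟩ := key
    exact ⟨i, j, _, hij, hA, hB, fun a b hab => hab⟩
  · rintro ⟨i, j, R, hR, hA, hB, hL⟩
    refine ⟨x i, ⟨i, rfl⟩, x j, ⟨j, rfl⟩, hA, hB, ?_⟩
    have h1 : ∀ a b, R a b → (x a ∈ range x ∧ x b ∈ range x ∧ Link u s K (x a) (x b)) :=
      fun a b hab => ⟨⟨a, rfl⟩, ⟨b, rfl⟩, hL a b hab⟩
    exact Relation.ReflTransGen.lift x h1 _ _ hR

theorem measurableSet_chain (u s : ℝ) (K A B : Set ℂ) (hK : IsCompact K) (hA : IsCompact A)
    (hB : IsCompact B) : MeasurableSet {c : Conf | Chain u s K A B (pts c)} := by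
  have hsig : ∀ S : Set Conf, (∀ k : ℕ, MeasurableSet ((fun x : Fin k → ℂ =>
      (⟨k, x⟩ : Conf)) ⁻¹' S)) → MeasurableSet S := by
    intro S hS
    rw [MeasurableSpace.measurableSet_iInf]
    exact hS
  apply hsig
  intro k
  have h1 : (fun x : Fin k → ℂ => (⟨k, x⟩ : Conf)) ⁻¹' {c : Conf | Chain u s K A B (pts c)} =
      ⋃ (i : Fin k) (j : Fin k) (R : Fin k → Fin k → Prop) (_ : Relation.ReflTransGen R i j),
        {x : Fin k → ℂ | ∃ q ∈ A, dist (x i) q ≤ s} ∩ ({x : Fin k → ℂ | ∃ q ∈ B, dist (x j) q ≤ s} ∩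
          ⋂ (a : Fin k) (b : Fin k) (_ : R a b), {x : Fin k → ℂ | Link u s K (x a) (x b)}) := by
    ext x
    simp only [mem_preimage, mem_iUnion, mem_inter_iff, mem_iInter, mem_ofPred_eq]
    have h2 := G1_iff u s K A B x
    constructor
    · intro h
      obtain ⟨i, j, R, hR, h3, h4, h5⟩ := h2.1 h
      exact ⟨i, j, R, hR, h3, h4, h5⟩
    · rintro ⟨i, j, R, hR, h3, h4, h5⟩
      exact h2.2 ⟨i, j, R, hR, h3, h4, h5⟩
  rw [h1]
  refine MeasurableSet.iUnion fun i => MeasurableSet.iUnion fun j => MeasurableSet.iUnion fun R =>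
    MeasurableSet.iUnion fun _ => ?_
  refine (G1_near hA s i).measurableSet.inter ((G1_near hB s j).measurableSet.inter ?_)
  exact MeasurableSet.iInter fun a => MeasurableSet.iInter fun b => MeasurableSet.iInter fun _ =>
    (G1_link hK u s a b).measurableSet

end MP412
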