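import Pool.Agent.Lib.MP_412417_pr.P0

/-!
Row 412-G2: crossings of a convex set and chains.

`←`: the sets `closedBall x s ∩ K`, `x` in the chain, are convex and consecutive ones meet, so their union is
preconnected. `→`: let `C` be the connected set, `C` meets `A` in a point of `closedBall x s` and `B` in a point
of `closedBall y s`; if `y` is not reachable from `x` then the (finite) unions of `closedBall z s ∩ K` over the
reachable and the other points are disjoint closed sets which cover `C` and both meet `C`.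
-/

set_option autoImplicit false

open MeasureTheory Set
open scoped ENNReal Pointwise

namespace MP412

private theorem G2_step (s : ℝ) (K X : Set ℂ) (hKc : Convex ℝ K) {x y : ℂ} (hx : x ∈ X)
    (h : Relation.ReflTransGen (fun a b => a ∈ X ∧ b ∈ X ∧ Link (2 * s) s K a b) x y) :
    ∃ C : Set ℂ, C ⊆ (⋃ x ∈ X, Metric.closedBall x s) ∩ K ∧ IsPreconnected C ∧
      Metric.closedBall x s ∩ K ⊆ C ∧ Metric.closedBall y s ∩ K ⊆ C := by
  have hsub : ∀ z ∈ X, Metric.closedBall z s ∩ K ⊆ (⋃ x ∈ X, Metric.closedBall x s) ∩ K := by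
    intro z hz q hq
    exact ⟨mem_iUnion₂.2 ⟨z, hz, hq.1⟩, hq.2⟩
  have hcon : ∀ z : ℂ, IsPreconnected (Metric.closedBall z s ∩ K) := fun z =>
    ((convex_closedBall z s).inter hKc).isPreconnected
  induction h with
  | refl => exact ⟨_, hsub x hx, hcon x, subset_rfl, subset_rfl⟩
  | @tail b c _ hbc ih =>
    obtain ⟨C, h1, h2, h3, h4⟩ := ih
    obtain ⟨_, hc, _, q, hq, hbq, hcq⟩ := hbc
    refine ⟨C ∪ Metric.closedBall c s ∩ K, union_subset h1 (hsub c hc), ?_,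
      h3.trans subset_union_left, subset_union_right⟩
    refine IsPreconnected.union q (h4 ⟨?_, hq⟩) ⟨?_, hq⟩ h2 (hcon c)
    · rw [Metric.mem_closedBall, dist_comm]
      exact hbq
    · rw [Metric.mem_closedBall, dist_comm]
      exact hcq

theorem crosses_iff (s : ℝ) (hs : 0 ≤ s) (K A B X : Set ℂ) (hK : IsCompact K)
    (hKc : Convex ℝ K) (hA : A ⊆ K) (hB : B ⊆ K) (hX : X.Finite) :
    Crosses (⋃ x ∈ X, Metric.closedBall x s) K A B ↔ Chain (2 * s) s K A B X := by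
  constructor
  · rintro ⟨C, hC, hpre, ⟨a, haC, haA⟩, ⟨b, hbC, hbB⟩⟩
    obtain ⟨x, hx, hax⟩ := mem_iUnion₂.1 (hC haC).1
    obtain ⟨y, hy, hby⟩ := mem_iUnion₂.1 (hC hbC).1
    refine ⟨x, hx, y, hy, ⟨a, haA, by rw [dist_comm]; exact hax⟩,
      ⟨b, hbB, by rw [dist_comm]; exact hby⟩, ?_⟩
    by_contra hxy
    set r : ℂ → ℂ → Prop := fun a b => a ∈ X ∧ b ∈ X ∧ Link (2 * s) s K a b with hr
    set R : Set ℂ := {z | z ∈ X ∧ Relation.ReflTransGen r x z} with hR
    set R' : Set ℂ := {z | z ∈ X ∧ ¬ Relation.ReflTransGen r x z} with hR'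
    have hRf : R.Finite := hX.subset fun z hz => hz.1
    have hRf' : R'.Finite := hX.subset fun z hz => hz.1
    have cl : ∀ z : ℂ, IsClosed (Metric.closedBall z s ∩ K) := fun z =>
      Metric.isClosed_closedBall.inter hK.isClosed
    have c1 : IsClosed (⋃ z ∈ R, Metric.closedBall z s ∩ K) :=
      hRf.isClosed_biUnion fun z _ => cl z
    have c2 : IsClosed (⋃ z ∈ R', Metric.closedBall z s ∩ K) :=
      hRf'.isClosed_biUnion fun z _ => cl z
    have hcov : C ⊆ (⋃ z ∈ R, Metric.closedBall z s ∩ K) ∪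
        ⋃ z ∈ R', Metric.closedBall z s ∩ K := by
      intro q hq
      obtain ⟨z, hz, hqz⟩ := mem_iUnion₂.1 (hC hq).1
      by_cases h : Relation.ReflTransGen r x z
      · exact Or.inl (mem_iUnion₂.2 ⟨z, ⟨hz, h⟩, hqz, (hC hq).2⟩)
      · exact Or.inr (mem_iUnion₂.2 ⟨z, ⟨hz, h⟩, hqz, (hC hq).2⟩)
    have n1 : (C ∩ ⋃ z ∈ R, Metric.closedBall z s ∩ K).Nonempty :=
      ⟨a, haC, mem_iUnion₂.2 ⟨x, ⟨hx, Relation.ReflTransGen.refl⟩, hax, (hC haC).2⟩⟩
    have n2 : (C ∩ ⋃ z ∈ R', Metric.closedBall z s ∩ K).Nonempty :=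
      ⟨b, hbC, mem_iUnion₂.2 ⟨y, ⟨hy, hxy⟩, hby, (hC hbC).2⟩⟩
    obtain ⟨q, _, hq1, hq2⟩ := isPreconnected_closed_iff.1 hpre _ _ c1 c2 hcov n1 n2
    obtain ⟨z, hz, hqz, hqK⟩ := mem_iUnion₂.1 hq1
    obtain ⟨z', hz', hqz', _⟩ := mem_iUnion₂.1 hq2
    have d1 : dist z q ≤ s := by rw [dist_comm]; exact hqz
    have d2 : dist z' q ≤ s := by rw [dist_comm]; exact hqz'
    have hlink : r z z' := by
      refine ⟨hz.1, hz'.1, ?_, q, hqK, d1, d2⟩
      have := dist_triangle_right z z' q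
      linarith
    exact hz'.2 (hz.2.tail hlink)
  · rintro ⟨x, hx, y, hy, ⟨a, haA, hxa⟩, ⟨b, hbB, hyb⟩, h⟩
    obtain ⟨C, h1, h2, h3, h4⟩ := G2_step s K X hKc hx h
    refine ⟨C, h1, h2, ⟨a, h3 ⟨?_, hA haA⟩, haA⟩, ⟨b, h4 ⟨?_, hB hbB⟩, hbB⟩⟩
    · rw [Metric.mem_closedBall, dist_comm]
      exact hxa
    · rw [Metric.mem_closedBall, dist_comm]
      exact hyb

/-- only the points near `K` matter -/
theorem crosses_inter (s : ℝ) (K A B X : Set ℂ) :
    Crosses (⋃ x ∈ X, Metric.closedBall x s) K A B ↔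
      Crosses (⋃ x ∈ X ∩ Metric.cthickening s K, Metric.closedBall x s) K A B := by
  have h : (⋃ x ∈ X, Metric.closedBall x s) ∩ K =
      (⋃ x ∈ X ∩ Metric.cthickening s K, Metric.closedBall x s) ∩ K := by
    ext q
    constructor
    · rintro ⟨hq, hqK⟩
      obtain ⟨x, hx, hqx⟩ := mem_iUnion₂.1 hq
      refine ⟨mem_iUnion₂.2 ⟨x, ⟨hx, ?_⟩, hqx⟩, hqK⟩
      exact Metric.mem_cthickening_of_dist_le x q s K hqK (by rw [dist_comm]; exact hqx)
    · rintro ⟨hq, hqK⟩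
      obtain ⟨x, hx, hqx⟩ := mem_iUnion₂.1 hq
      exact ⟨mem_iUnion₂.2 ⟨x, hx.1, hqx⟩, hqK⟩
  unfold Crosses
  rw [h]

end MP412
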