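import Pool.Agent.Lib.MP_412417_pr.P0

/-!
Row 412-L0: elementary facts on `lam` and `Ev`.
-/

set_option autoImplicit false

open MeasureTheory Set
open scoped ENNReal Pointwise

namespace MP412

theorem isFiniteMeasure_lam (δ : ℝ) {N : Set ℂ} (hN : Bornology.IsBounded N) :
    IsFiniteMeasure (lam δ N) := by
  constructor
  rw [lam, Measure.smul_apply, Measure.restrict_apply MeasurableSet.univ, univ_inter, smul_eq_mul]
  exact ENNReal.mul_lt_top ENNReal.ofReal_lt_top hN.measure_lt_top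

theorem lam_apply (δ : ℝ) (N S : Set ℂ) (hS : MeasurableSet S) :
    lam δ N S = ENNReal.ofReal ((δ⁻¹) ^ 2) * volume (S ∩ N) := by
  rw [lam, Measure.smul_apply, Measure.restrict_apply hS, smul_eq_mul]

theorem lam_le (δ : ℝ) (N S : Set ℂ) : lam δ N S ≤ ENNReal.ofReal ((δ⁻¹) ^ 2) * volume S := by
  rw [lam, Measure.smul_apply, smul_eq_mul]
  gcongr
  exact Measure.restrict_le_self

theorem lam_prod_le (δ : ℝ) (N : Set ℂ) (S : Set (ℂ × ℂ)) :
    ((lam δ N).prod (lam δ N)) S ≤
      ENNReal.ofReal ((δ⁻¹) ^ 4) * ((volume : Measure ℂ).prod volume) S := by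
  have h1 : ENNReal.ofReal ((δ⁻¹) ^ 4) =
      ENNReal.ofReal ((δ⁻¹) ^ 2) * ENNReal.ofReal ((δ⁻¹) ^ 2) := by
    rw [← ENNReal.ofReal_mul (by positivity)]
    congr 1
    ring
  have : SFinite (volume.restrict N : Measure ℂ) := inferInstance
  rw [lam, Measure.prod_smul_left, Measure.prod_smul_right, Measure.prod_restrict, smul_smul,
    Measure.smul_apply, smul_eq_mul, h1]
  gcongr
  exact Measure.restrict_le_self

theorem Ev_mono {s s' : ℝ} (h : s ≤ s') (K A B : Set ℂ) : Ev s K A B ⊆ Ev s' K A B := by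
  rintro c ⟨C, h1, h2, h3, h4⟩
  refine ⟨C, h1.trans (inter_subset_inter_left _ ?_), h2, h3, h4⟩
  exact iUnion₂_mono fun x _ => Metric.closedBall_subset_closedBall h

end MP412
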