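import Pool.Agent.Lib.MP_412417_pr.P1

/-!
Row 412-P5: comparison of two intensities.

`poisson_le`: `Measure.pi` is monotone (on rectangles and then in general; `Measure.pi` of `Λ₁` is at most `Measure.pi` of `Λ₂`, for
instance by induction with `measurePreserving_piFinSuccAbove`, or by `Measure.pi_eq` and densities). For a set
that is not measurable use the measurable hull for `poisson Λ₂`.
`poisson_tv`: `P₁ S ≤ exp d * P₂ S` gives `exp (-d) * P₁ S ≤ P₂ S`, and the same for the complement of `S`; `1 - exp (-d) ≤ d`.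
-/

set_option autoImplicit false

open MeasureTheory Set
open scoped ENNReal Pointwise

namespace MP412

private theorem P5_pi {Λ₁ Λ₂ : Measure ℂ} [IsFiniteMeasure Λ₁] [IsFiniteMeasure Λ₂] (h : Λ₁ ≤ Λ₂) (k : ℕ) :
    (Measure.pi fun _ : Fin k => Λ₁) ≤ Measure.pi fun _ : Fin k => Λ₂ := by
  induction k with
  | zero =>
    rw [Measure.pi_of_empty, Measure.pi_of_empty]
  | succ k ih =>
    have h1 := (measurePreserving_piFinSuccAbove (α := fun _ : Fin (k + 1) => ℂ) (fun _ => Λ₁) 0).symm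
    have h2 := (measurePreserving_piFinSuccAbove (α := fun _ : Fin (k + 1) => ℂ) (fun _ => Λ₂) 0).symm
    rw [← h1.map_eq, ← h2.map_eq]
    exact Measure.map_mono (Measure.prod_mono h ih) h1.measurable

private theorem P5_le {Λ₁ Λ₂ : Measure ℂ} [IsFiniteMeasure Λ₁] [IsFiniteMeasure Λ₂] (h : Λ₁ ≤ Λ₂) :
    poisson Λ₁ ≤ ENNReal.ofReal (Real.exp ((Λ₂ univ).toReal - (Λ₁ univ).toReal)) • poisson Λ₂ := by
  rw [poisson, poisson, smul_smul, ← ENNReal.ofReal_mul (Real.exp_pos _).le, ← Real.exp_add]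
  have e : (Λ₂ univ).toReal - (Λ₁ univ).toReal + -(Λ₂ univ).toReal = -(Λ₁ univ).toReal := by ring
  rw [e]
  refine Measure.le_iff.2 fun S hS => ?_
  rw [Measure.smul_apply, Measure.smul_apply, Measure.sum_apply _ hS, Measure.sum_apply _ hS]
  refine smul_le_smul_of_nonneg_left (ENNReal.tsum_le_tsum fun k => ?_) zero_le
  rw [Measure.smul_apply, Measure.smul_apply]
  refine smul_le_smul_of_nonneg_left ?_ zero_le
  have hm : Measurable (fun x : Fin k → ℂ => (⟨k, x⟩ : Conf)) := by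
    rw [measurable_iff_le_map]
    exact iInf_le _ k
  exact Measure.map_mono (P5_pi h k) hm S

theorem poisson_le {Λ₁ Λ₂ : Measure ℂ} [IsFiniteMeasure Λ₁] [IsFiniteMeasure Λ₂] (h : Λ₁ ≤ Λ₂)
    (S : Set Conf) : poisson Λ₁ S ≤
      ENNReal.ofReal (Real.exp ((Λ₂ univ).toReal - (Λ₁ univ).toReal)) * poisson Λ₂ S :=
  P5_le h S

theorem poisson_tv {Λ₁ Λ₂ : Measure ℂ} [IsFiniteMeasure Λ₁] [IsFiniteMeasure Λ₂] (h : Λ₁ ≤ Λ₂)
    (S : Set Conf) (hS : MeasurableSet S) :
    |(poisson Λ₁ S).toReal - (poisson Λ₂ S).toReal| ≤ (Λ₂ univ).toReal - (Λ₁ univ).toReal := by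
  set d := (Λ₂ univ).toReal - (Λ₁ univ).toReal with hd
  have hd0 : 0 ≤ d := by
    rw [hd, sub_nonneg]
    exact ENNReal.toReal_mono (measure_ne_top _ _) (h univ)
  have key : ∀ T : Set Conf, (poisson Λ₁ T).toReal - d ≤ (poisson Λ₂ T).toReal := by
    intro T
    have h1 : (poisson Λ₁ T).toReal ≤ Real.exp d * (poisson Λ₂ T).toReal := by
      have h2 := ENNReal.toReal_mono (ENNReal.mul_ne_top ENNReal.ofReal_ne_top (measure_ne_top _ _))
        (poisson_le h T)
      rwa [ENNReal.toReal_mul, ENNReal.toReal_ofReal (Real.exp_pos _).le] at h2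
    have h3 : (poisson Λ₁ T).toReal ≤ 1 := by
      have h4 := ENNReal.toReal_mono ENNReal.one_ne_top (prob_le_one (μ := poisson Λ₁) (s := T))
      rwa [ENNReal.toReal_one] at h4
    have h5 : 0 ≤ (poisson Λ₁ T).toReal := ENNReal.toReal_nonneg
    have h6 : 1 - d ≤ Real.exp (-d) := by
      have := Real.add_one_le_exp (-d)
      linarith
    have h7 : Real.exp (-d) * (poisson Λ₁ T).toReal ≤ (poisson Λ₂ T).toReal := by
      have h8 := mul_le_mul_of_nonneg_left h1 (Real.exp_pos (-d)).le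
      rwa [← mul_assoc, ← Real.exp_add, neg_add_cancel, Real.exp_zero, one_mul] at h8
    have h9 := mul_le_mul_of_nonneg_right h6 h5
    have h10 : d * (poisson Λ₁ T).toReal ≤ d * 1 := mul_le_mul_of_nonneg_left h3 hd0
    linarith
  have hc : ∀ (Λ : Measure ℂ) [IsFiniteMeasure Λ], (poisson Λ Sᶜ).toReal = 1 - (poisson Λ S).toReal := by
    intro Λ _
    rw [prob_compl_eq_one_sub hS, ENNReal.toReal_sub_of_le prob_le_one ENNReal.one_ne_top, ENNReal.toReal_one]
  have h1 := key S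
  have h2 := key Sᶜ
  rw [hc, hc] at h2
  rw [abs_le]
  constructor <;> linarith

end MP412
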