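import Pool.Agent.Lib.MP_412417_pr.Defs

/-!
Row 412-P1: the Poisson law.

`poisson Λ` is the law of a Poisson process: unfold, `lintegral_smul_measure`, `lintegral_sum_measure`,
`lintegral_map` (`Sigma.mk k` is measurable), and for the total mass `Measure.pi_univ` and
`Real.exp_eq_tsum`.
-/

set_option autoImplicit false

open MeasureTheory Set
open scoped ENNReal Pointwise

namespace MP412

private theorem P1_meas_iff (T : Set Conf) :
    MeasurableSet T ↔
      ∀ k : ℕ, MeasurableSet ((fun y : Fin k → ℂ => (⟨k, y⟩ : Conf)) ⁻¹' T) := by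
  constructor
  · intro h k
    exact (MeasurableSpace.measurableSet_iInf.1 h) k
  · intro h
    exact MeasurableSpace.measurableSet_iInf.2 h

private theorem P1_mk (k : ℕ) : Measurable (fun y : Fin k → ℂ => (⟨k, y⟩ : Conf)) := by
  intro T hT
  exact (P1_meas_iff T).1 hT k

/-- the integral against the Poisson law -/
theorem lintegral_poisson (Λ : Measure ℂ) (f : Conf → ℝ≥0∞) (hf : Measurable f) :
    ∫⁻ c, f c ∂(poisson Λ) = ENNReal.ofReal (Real.exp (-(Λ univ).toReal)) *
      ∑' k : ℕ, ((k.factorial : ℝ≥0∞)⁻¹) * ∫⁻ x : Fin k → ℂ, f ⟨k, x⟩ ∂(Measure.pi fun _ => Λ) := by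
  unfold poisson
  rw [lintegral_smul_measure, lintegral_sum_measure]
  simp only [lintegral_smul_measure, smul_eq_mul]
  congr 1
  refine tsum_congr fun k => ?_
  congr 1
  exact lintegral_map hf (P1_mk k)

/-- the probability of an event -/
theorem poisson_apply (Λ : Measure ℂ) (S : Set Conf) (hS : MeasurableSet S) :
    poisson Λ S = ENNReal.ofReal (Real.exp (-(Λ univ).toReal)) *
      ∑' k : ℕ, ((k.factorial : ℝ≥0∞)⁻¹) *
        (Measure.pi fun _ : Fin k => Λ) {x | (⟨k, x⟩ : Conf) ∈ S} := by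
  unfold poisson
  rw [Measure.smul_apply, Measure.sum_apply _ hS, smul_eq_mul]
  congr 1
  refine tsum_congr fun k => ?_
  rw [Measure.smul_apply, smul_eq_mul]
  congr 1
  exact Measure.map_apply (P1_mk k) hS

instance isProbabilityMeasure_poisson (Λ : Measure ℂ) [IsFiniteMeasure Λ] :
    IsProbabilityMeasure (poisson Λ) := by
  constructor
  rw [poisson_apply Λ univ MeasurableSet.univ]
  have h0 : Λ univ = ENNReal.ofReal (Λ univ).toReal := (ENNReal.ofReal_toReal (measure_ne_top _ _)).symm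
  have hm : 0 ≤ (Λ univ).toReal := ENNReal.toReal_nonneg
  have h1 : ∀ k : ℕ, ((k.factorial : ℝ≥0∞)⁻¹) *
      (Measure.pi fun _ : Fin k => Λ) {x | (⟨k, x⟩ : Conf) ∈ (univ : Set Conf)} =
      ENNReal.ofReal ((Λ univ).toReal ^ k / k.factorial) := by
    intro k
    have e : {x : Fin k → ℂ | (⟨k, x⟩ : Conf) ∈ (univ : Set Conf)} = univ := by
      ext x
      simp
    rw [e, Measure.pi_univ, Finset.prod_const, Finset.card_univ, Fintype.card_fin,
      ENNReal.ofReal_div_of_pos (by positivity), ENNReal.ofReal_pow hm, ← h0,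
      ENNReal.ofReal_natCast, ENNReal.div_eq_inv_mul]
  simp only [h1]
  rw [← ENNReal.ofReal_tsum_of_nonneg (fun k => by positivity)
    (Real.summable_pow_div_factorial _)]
  have h2 : ∑' k : ℕ, (Λ univ).toReal ^ k / k.factorial = Real.exp (Λ univ).toReal := by
    rw [Real.exp_eq_exp_ℝ, NormedSpace.exp_eq_tsum_div]
  rw [h2, ← ENNReal.ofReal_mul (Real.exp_pos _).le, ← Real.exp_add, neg_add_cancel, Real.exp_zero,
    ENNReal.ofReal_one]

/-- all points are in a set of full measure -/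
theorem poisson_ae_subset (Λ : Measure ℂ) [IsFiniteMeasure Λ] (N : Set ℂ) (hN : MeasurableSet N)
    (h : Λ Nᶜ = 0) : ∀ᵐ c ∂(poisson Λ), pts c ⊆ N := by
  rw [ae_iff]
  have e : ∀ k : ℕ, {x : Fin k → ℂ | (⟨k, x⟩ : Conf) ∈ {c : Conf | ¬ pts c ⊆ N}} =
      ⋃ i : Fin k, (fun x : Fin k → ℂ => x i) ⁻¹' Nᶜ := by
    intro k
    ext x
    simp only [mem_ofPred_eq, mem_iUnion, mem_preimage, mem_compl_iff]
    constructor
    · intro hx
      by_contra hn
      push Not at hn
      apply hx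
      rintro _ ⟨i, rfl⟩
      exact hn i
    · rintro ⟨i, hi⟩ hx
      exact hi (hx ⟨i, rfl⟩)
  have hm : MeasurableSet {c : Conf | ¬ pts c ⊆ N} := by
    rw [P1_meas_iff]
    intro k
    have e' := e k
    have : (fun y : Fin k → ℂ => (⟨k, y⟩ : Conf)) ⁻¹' {c : Conf | ¬ pts c ⊆ N} =
      ⋃ i : Fin k, (fun x : Fin k → ℂ => x i) ⁻¹' Nᶜ := e'
    rw [this]
    exact MeasurableSet.iUnion fun i => (measurable_pi_apply i) hN.compl
  rw [poisson_apply Λ _ hm]
  have h0 : ∀ k : ℕ, ((k.factorial : ℝ≥0∞)⁻¹) *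
      (Measure.pi fun _ : Fin k => Λ) {x | (⟨k, x⟩ : Conf) ∈ {c : Conf | ¬ pts c ⊆ N}} = 0 := by
    intro k
    rw [e k]
    have : (Measure.pi fun _ : Fin k => Λ) (⋃ i : Fin k, (fun x : Fin k → ℂ => x i) ⁻¹' Nᶜ) = 0 := by
      refine measure_iUnion_null fun i => ?_
      exact Measure.pi_eval_preimage_null (fun _ : Fin k => Λ) h
    rw [this, mul_zero]
  simp only [h0]
  simp

end MP412
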