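import Pool.Agent.Lib.MP_412417_pr.P0
import Pool.Agent.Lib.MP_412417_pr.P1

/-!
Row 412-P6: the mapping theorem.

`Measure.pi` of a map is the map of `Measure.pi` (`Measure.pi_map_pi` or `Measure.pi_eq`).
-/

set_option autoImplicit false

open MeasureTheory Set
open scoped ENNReal Pointwise

namespace MP412

theorem poisson_map (Λ : Measure ℂ) [IsFiniteMeasure Λ] (g : ℂ → ℂ) (hg : Measurable g) :
    (poisson Λ).map (mapConf g) = poisson (Λ.map g) := by
  ext S hS
  rw [Measure.map_apply (measurable_mapConf hg) hS, poisson_apply Λ _ (measurable_mapConf hg hS),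
    poisson_apply (Λ.map g) S hS, Measure.map_apply hg MeasurableSet.univ, preimage_univ]
  congr 1
  refine tsum_congr fun k => ?_
  congr 1
  have h1 : (Measure.pi fun _ : Fin k => Λ.map g) =
      (Measure.pi fun _ : Fin k => Λ).map (fun x i => g (x i)) := by
    rw [Measure.pi_map_pi (fun _ => hg.aemeasurable)]
  have h0 : Measurable (fun x : Fin k → ℂ => (⟨k, x⟩ : Conf)) := by
    refine measurable_iff_le_map.2 ?_
    exact iInf_le (fun a : ℕ => MeasurableSpace.map (Sigma.mk a) MeasurableSpace.pi) k
  have h2 : MeasurableSet {x : Fin k → ℂ | (⟨k, x⟩ : Conf) ∈ S} := h0 hS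
  have h3 : Measurable (fun (x : Fin k → ℂ) (i : Fin k) => g (x i)) :=
    measurable_pi_lambda _ fun i => hg.comp (measurable_pi_apply i)
  rw [h1, Measure.map_apply h3 h2]
  rfl

end MP412
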