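import Pool.Agent.Lib.MP_412417_pr.P0
import Pool.Agent.Lib.MP_412417_pr.P1

/-!
Row 412-P7: an event which depends only on the points in `N`.

For a finite set `Z` and `k` let `h k Z = (pi Λ) {x : Fin k → ℂ | T (range x ∪ Z)}` and `j k Z` the same for
`Λ.restrict N`. Splitting off the first coordinate: `h (k+1) Z = ∫ z in N, h k (insert z Z) ∂Λ + Λ Nᶜ * h k Z` (a point outside `N`
does not matter), so by induction on `k` (for all `Z`) `h k Z = ∑ l ≤ k, (k choose l) * (Λ Nᶜ)^(k-l) * j l Z`. Sum over `k`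
with `1/k!`. Measurability of `{c | T (pts c ∪ Z)}`: preimage of `{c | T (pts c)}` under adding points.
-/

set_option autoImplicit false

open MeasureTheory Set
open scoped ENNReal Pointwise

namespace MP412

private theorem P7_mk (k : ℕ) : Measurable fun x : Fin k → ℂ => (⟨k, x⟩ : Conf) := by
  intro s hs
  exact MeasurableSpace.measurableSet_iInf.1 hs k

private theorem P7_meas {T : Set ℂ → Prop} (hT : MeasurableSet {c : Conf | T (pts c)}) (k : ℕ) :
    MeasurableSet {p : ℂ × (Fin k → ℂ) | T (insert p.1 (range p.2))} := by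
  have h1 : Measurable fun p : ℂ × (Fin k → ℂ) => (p.1, (⟨k, p.2⟩ : Conf)) :=
    measurable_fst.prodMk ((P7_mk k).comp measurable_snd)
  have h2 := (measurable_cons.comp h1) hT
  have h3 : ((fun p : ℂ × Conf => cons p.1 p.2) ∘ fun p : ℂ × (Fin k → ℂ) => (p.1, (⟨k, p.2⟩ : Conf))) ⁻¹'
      {c : Conf | T (pts c)} = {p : ℂ × (Fin k → ℂ) | T (insert p.1 (range p.2))} := by
    ext p
    show T (pts (cons p.1 (⟨k, p.2⟩ : Conf))) ↔ _
    rw [pts_cons]
    rfl
  rw [← h3]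
  exact h2

private theorem P7_split (μ : Measure ℂ) [IsFiniteMeasure μ] {T : Set ℂ → Prop}
    (hT : MeasurableSet {c : Conf | T (pts c)}) (k : ℕ) :
    (Measure.pi fun _ : Fin (k + 1) => μ) {x | T (range x)} =
      ∫⁻ z, (Measure.pi fun _ : Fin k => μ) {x | T (insert z (range x))} ∂μ := by
  have h1 := (measurePreserving_piFinSuccAbove (fun _ : Fin (k + 1) => μ) 0).symm
  have h2 := h1.measure_preimage_equiv {x : Fin (k + 1) → ℂ | T (range x)}
  rw [← h2]
  have h3 : (MeasurableEquiv.piFinSuccAbove (fun _ : Fin (k + 1) => ℂ) 0).symm ⁻¹'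
      {x : Fin (k + 1) → ℂ | T (range x)} = {p : ℂ × (Fin k → ℂ) | T (insert p.1 (range p.2))} := by
    ext p
    show T (range (Fin.insertNth (0 : Fin (k + 1)) p.1 p.2)) ↔ _
    rw [Fin.insertNth_zero']
    have h4 : range (Fin.cons p.1 p.2 : Fin (k + 1) → ℂ) = insert p.1 (range p.2) := Fin.range_cons _ _
    rw [h4]
    rfl
  rw [h3]
  exact Measure.prod_apply (P7_meas hT k)

private theorem P7_cons {T : Set ℂ → Prop} (hT : MeasurableSet {c : Conf | T (pts c)}) (z : ℂ) :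
    MeasurableSet {c : Conf | T (insert z (pts c))} := by
  have h1 : Measurable fun c : Conf => (z, c) := measurable_const.prodMk measurable_id
  have h2 := (measurable_cons.comp h1) hT
  have h3 : ((fun p : ℂ × Conf => cons p.1 p.2) ∘ fun c : Conf => (z, c)) ⁻¹'
      {c : Conf | T (pts c)} = {c : Conf | T (insert z (pts c))} := by
    ext c
    show T (pts (cons z c)) ↔ _
    rw [pts_cons]
    rfl
  rw [← h3]
  exact h2

private theorem P7_key (Λ : Measure ℂ) [IsFiniteMeasure Λ] (N : Set ℂ) (hN : MeasurableSet N) (k : ℕ) :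
    ∀ T : Set ℂ → Prop, MeasurableSet {c : Conf | T (pts c)} → (∀ X, T X ↔ T (X ∩ N)) →
      (Measure.pi fun _ : Fin k => Λ) {x | T (range x)} =
        ∑ ij ∈ Finset.HasAntidiagonal.antidiagonal k, ((k.choose ij.1 : ℕ) : ℝ≥0∞) * ((Λ Nᶜ) ^ ij.1 *
          (Measure.pi fun _ : Fin ij.2 => Λ.restrict N) {x | T (range x)}) := by
  induction k with
  | zero =>
    intro T _ _
    have h0 : (Measure.pi fun _ : Fin 0 => Λ) = Measure.pi fun _ : Fin 0 => Λ.restrict N := by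
      rw [Measure.pi_of_empty (fun _ : Fin 0 => Λ), Measure.pi_of_empty (fun _ : Fin 0 => Λ.restrict N)]
    rw [h0]
    simp
  | succ k ih =>
    intro T hT h
    rw [P7_split Λ hT k, ← lintegral_add_compl _ hN]
    have hz : ∀ z ∈ N, (Measure.pi fun _ : Fin k => Λ) {x | T (insert z (range x))} =
        ∑ ij ∈ Finset.HasAntidiagonal.antidiagonal k, ((k.choose ij.1 : ℕ) : ℝ≥0∞) * ((Λ Nᶜ) ^ ij.1 *
          (Measure.pi fun _ : Fin ij.2 => Λ.restrict N) {x | T (insert z (range x))}) := by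
      intro z hz
      refine ih (fun X => T (insert z X)) (P7_cons hT z) fun X => ?_
      show T (insert z X) ↔ T (insert z (X ∩ N))
      have h1 : insert z (X ∩ N) = insert z X ∩ N := by
        rw [insert_inter_of_mem hz]
      rw [h1]
      exact h _
    have hz' : ∀ z ∈ Nᶜ, (Measure.pi fun _ : Fin k => Λ) {x | T (insert z (range x))} =
        (Measure.pi fun _ : Fin k => Λ) {x | T (range x)} := by
      intro z hz
      congr 1
      ext x
      show T (insert z (range x)) ↔ T (range x)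
      rw [h (insert z (range x)), h (range x)]
      have h1 : insert z (range x) ∩ N = range x ∩ N := insert_inter_of_notMem hz
      rw [h1]
    rw [setLIntegral_congr_fun hN hz, setLIntegral_congr_fun hN.compl hz', setLIntegral_const,
      lintegral_finsetSum]
    · have h1 : ∀ ij ∈ Finset.HasAntidiagonal.antidiagonal k, ∫⁻ z in N, ((k.choose ij.1 : ℕ) : ℝ≥0∞) *
          ((Λ Nᶜ) ^ ij.1 * (Measure.pi fun _ : Fin ij.2 => Λ.restrict N) {x | T (insert z (range x))}) ∂Λ =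
          ((k.choose ij.1 : ℕ) : ℝ≥0∞) * ((Λ Nᶜ) ^ ij.1 *
            (Measure.pi fun _ : Fin (ij.2 + 1) => Λ.restrict N) {x | T (range x)}) := by
        intro ij _
        have hm : Measurable fun z => (Measure.pi fun _ : Fin ij.2 => Λ.restrict N)
            {x | T (insert z (range x))} := measurable_measure_prodMk_left (P7_meas hT ij.2)
        rw [lintegral_const_mul _ (hm.const_mul _), lintegral_const_mul _ hm, P7_split (Λ.restrict N) hT]
      rw [Finset.sum_congr rfl h1, Finset.sum_antidiagonal_choose_succ_mul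
        (fun i j => (Λ Nᶜ) ^ i * (Measure.pi fun _ : Fin j => Λ.restrict N) {x | T (range x)}) k]
      congr 1
      rw [ih T hT h, Finset.sum_mul]
      refine Finset.sum_congr rfl fun ij hij => ?_
      have h2 : k.choose ij.2 = k.choose ij.1 :=
        (Nat.choose_symm_of_eq_add (Finset.HasAntidiagonal.mem_antidiagonal.1 hij).symm).symm
      rw [h2, pow_succ]
      ring
    · intro ij _
      have hm : Measurable fun z => (Measure.pi fun _ : Fin ij.2 => Λ.restrict N)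
          {x | T (insert z (range x))} := measurable_measure_prodMk_left (P7_meas hT ij.2)
      exact (hm.const_mul _).const_mul _

private theorem P7_choose {i j k : ℕ} (h : i + j = k) :
    ((k.factorial : ℝ≥0∞)⁻¹) * ((k.choose i : ℕ) : ℝ≥0∞) =
      ((i.factorial : ℝ≥0∞)⁻¹) * ((j.factorial : ℝ≥0∞)⁻¹) := by
  subst h
  have h1 : (((i + j).factorial : ℕ) : ℝ≥0∞) =
      (((i + j).choose i : ℕ) : ℝ≥0∞) * ((i.factorial : ℝ≥0∞) * (j.factorial : ℝ≥0∞)) := by
    have h2 : (i + j).choose i = (i + j).choose j := Nat.choose_symm_add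
    rw [← Nat.add_choose_mul_factorial_mul_factorial i j, h2]
    push_cast
    ring
  have hc0 : (((i + j).choose i : ℕ) : ℝ≥0∞) ≠ 0 := by
    rw [Ne, Nat.cast_eq_zero]
    exact (Nat.choose_pos (Nat.le_add_right i j)).ne'
  have hct : (((i + j).choose i : ℕ) : ℝ≥0∞) ≠ ⊤ := ENNReal.natCast_ne_top _
  have hi0 : (i.factorial : ℝ≥0∞) ≠ 0 := by
    rw [Ne, Nat.cast_eq_zero]
    exact (Nat.factorial_pos i).ne'
  have hit : (i.factorial : ℝ≥0∞) ≠ ⊤ := ENNReal.natCast_ne_top _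
  rw [h1, ENNReal.mul_inv (Or.inl hc0) (Or.inl hct), ENNReal.mul_inv (Or.inl hi0) (Or.inl hit)]
  calc (((i + j).choose i : ℕ) : ℝ≥0∞)⁻¹ * ((i.factorial : ℝ≥0∞)⁻¹ * (j.factorial : ℝ≥0∞)⁻¹) *
        (((i + j).choose i : ℕ) : ℝ≥0∞)
      = ((((i + j).choose i : ℕ) : ℝ≥0∞)⁻¹ * (((i + j).choose i : ℕ) : ℝ≥0∞)) *
        ((i.factorial : ℝ≥0∞)⁻¹ * (j.factorial : ℝ≥0∞)⁻¹) := by ring
    _ = (i.factorial : ℝ≥0∞)⁻¹ * (j.factorial : ℝ≥0∞)⁻¹ := by
      rw [ENNReal.inv_mul_cancel hc0 hct, one_mul]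

private theorem P7_sum (a b : ℕ → ℝ≥0∞) :
    ∑' k : ℕ, ((k.factorial : ℝ≥0∞)⁻¹) * ∑ ij ∈ Finset.HasAntidiagonal.antidiagonal k,
        ((k.choose ij.1 : ℕ) : ℝ≥0∞) * (a ij.1 * b ij.2) =
      (∑' i : ℕ, ((i.factorial : ℝ≥0∞)⁻¹) * a i) * ∑' j : ℕ, ((j.factorial : ℝ≥0∞)⁻¹) * b j := by
  let F : ℕ × ℕ → ℝ≥0∞ := fun ij =>
    (((ij.1.factorial : ℝ≥0∞)⁻¹) * a ij.1) * (((ij.2.factorial : ℝ≥0∞)⁻¹) * b ij.2)
  have h1 : ∀ k : ℕ, ((k.factorial : ℝ≥0∞)⁻¹) * ∑ ij ∈ Finset.HasAntidiagonal.antidiagonal k,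
      ((k.choose ij.1 : ℕ) : ℝ≥0∞) * (a ij.1 * b ij.2) = ∑ ij ∈ Finset.HasAntidiagonal.antidiagonal k, F ij := by
    intro k
    rw [Finset.mul_sum]
    refine Finset.sum_congr rfl fun ij hij => ?_
    rw [← mul_assoc, P7_choose (Finset.HasAntidiagonal.mem_antidiagonal.1 hij)]
    show _ = (((ij.1.factorial : ℝ≥0∞)⁻¹) * a ij.1) * (((ij.2.factorial : ℝ≥0∞)⁻¹) * b ij.2)
    ring
  have h2 : ∑' k : ℕ, ∑ ij ∈ Finset.HasAntidiagonal.antidiagonal k, F ij = ∑' ij : ℕ × ℕ, F ij := by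
    rw [← (Finset.HasAntidiagonal.sigmaAntidiagonalEquivProd (A := ℕ)).tsum_eq F, ENNReal.tsum_sigma']
    refine tsum_congr fun k => ?_
    exact (Finset.tsum_subtype (Finset.HasAntidiagonal.antidiagonal k) F).symm
  rw [tsum_congr h1, h2, ENNReal.tsum_prod']
  show ∑' i : ℕ, ∑' j : ℕ, (((i.factorial : ℝ≥0∞)⁻¹) * a i) * (((j.factorial : ℝ≥0∞)⁻¹) * b j) = _
  rw [← ENNReal.tsum_mul_right]
  refine tsum_congr fun i => ?_
  rw [ENNReal.tsum_mul_left]

private theorem P7_poisson (Λ : Measure ℂ) [IsFiniteMeasure Λ] (N : Set ℂ) (hN : MeasurableSet N)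
    (T : Set ℂ → Prop) (hT : MeasurableSet {c : Conf | T (pts c)}) (h : ∀ X, T X ↔ T (X ∩ N)) :
    poisson Λ {c | T (pts c)} = ENNReal.ofReal (Real.exp (-(Λ univ).toReal)) *
      ((∑' i : ℕ, ((i.factorial : ℝ≥0∞)⁻¹) * (Λ Nᶜ) ^ i) * ∑' j : ℕ, ((j.factorial : ℝ≥0∞)⁻¹) *
        (Measure.pi fun _ : Fin j => Λ.restrict N) {x | T (range x)}) := by
  rw [poisson_apply Λ _ hT, ← P7_sum]
  congr 1
  refine tsum_congr fun k => ?_
  congr 1
  exact P7_key Λ N hN k T hT h

theorem poisson_restrict (Λ : Measure ℂ) [IsFiniteMeasure Λ] (N : Set ℂ) (hN : MeasurableSet N)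
    (T : Set ℂ → Prop) (hT : MeasurableSet {c : Conf | T (pts c)}) (h : ∀ X, T X ↔ T (X ∩ N)) :
    poisson Λ {c | T (pts c)} = poisson (Λ.restrict N) {c | T (pts c)} := by
  have h1 := P7_poisson Λ N hN T hT h
  have h2 : poisson (Λ.restrict N) {c | T (pts c)} =
      ENNReal.ofReal (Real.exp (-((Λ.restrict N) univ).toReal)) * ∑' j : ℕ, ((j.factorial : ℝ≥0∞)⁻¹) *
        (Measure.pi fun _ : Fin j => Λ.restrict N) {x | T (range x)} :=
    poisson_apply (Λ.restrict N) _ hT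
  have huniv : MeasurableSet {c : Conf | (fun _ : Set ℂ => True) (pts c)} := MeasurableSet.univ
  have h3 := P7_poisson Λ N hN (fun _ => True) huniv (fun _ => Iff.rfl)
  have h4 : poisson (Λ.restrict N) {c | (fun _ : Set ℂ => True) (pts c)} =
      ENNReal.ofReal (Real.exp (-((Λ.restrict N) univ).toReal)) * ∑' j : ℕ, ((j.factorial : ℝ≥0∞)⁻¹) *
        (Measure.pi fun _ : Fin j => Λ.restrict N) {x | (fun _ : Set ℂ => True) (range x)} :=
    poisson_apply (Λ.restrict N) _ huniv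
  have h5 : poisson Λ {c | (fun _ : Set ℂ => True) (pts c)} = 1 := measure_univ
  have h6 : poisson (Λ.restrict N) {c | (fun _ : Set ℂ => True) (pts c)} = 1 := measure_univ
  rw [h5] at h3
  rw [h6] at h4
  set a : ℝ≥0∞ := ENNReal.ofReal (Real.exp (-(Λ univ).toReal))
  set b : ℝ≥0∞ := ENNReal.ofReal (Real.exp (-((Λ.restrict N) univ).toReal))
  set q : ℝ≥0∞ := ∑' i : ℕ, ((i.factorial : ℝ≥0∞)⁻¹) * (Λ Nᶜ) ^ i
  set S : ℝ≥0∞ := ∑' j : ℕ, ((j.factorial : ℝ≥0∞)⁻¹) *
    (Measure.pi fun _ : Fin j => Λ.restrict N) {x | (fun _ : Set ℂ => True) (range x)}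
  have hab : a * q = b := by
    calc a * q = a * q * (b * S) := by rw [← h4, mul_one]
      _ = a * (q * S) * b := by ring
      _ = b := by rw [← h3, one_mul]
  rw [h1, h2, ← hab]
  ring

end MP412
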