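import Pool.Agent.Lib.MP_412417_pr.P1
import Pool.Agent.Lib.MP_412417_pr.P5
import Pool.Agent.Lib.MP_412417_pr.P6
import Pool.Agent.Lib.MP_412417_pr.P7
import Pool.Agent.Lib.MP_412417_pr.G1
import Pool.Agent.Lib.MP_412417_pr.G2
import Pool.Agent.Lib.MP_412417_pr.L0
import Pool.Agent.Lib.MP_412417_pr.C2
import Pool.Agent.Lib.MP_412417_pr.C3
import Pool.Agent.Lib.MP_412417_pr.C4
import Pool.Agent.Lib.MP_412417_pr.C5

/-!
Row 412-C6: the two models agree up to a change of the radius by the relative amount `C δ^2`.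

`n = 1/δ`, `t = r δ`. The law of the configuration `mapConf (shift φ t) (mapConf (indicator ψ) c)` under the Poisson law of `Pdens` is
`poisson ((lam δ N).map (shift φ t))` (`poisson_map` twice, `change_var`), and `pts c ⊆ φ '' N` almost surely (`poisson_ae_subset`). By
`shift_measure` `lam δ (shift '' N) ≤ (lam δ N).map shift ≤ (1 + C t^4) lam δ (shift '' N)`, total masses at most `C δ^-2`, so by `poisson_tv`
the probabilities of an event under `poisson ((lam δ N).map shift)` and `poisson (lam δ (shift '' N))` differ by at most `C δ^2`.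
For the event `Ev s` (`s ≤ ρ`, measurable by `crosses_iff` and `measurableSet_chain`) `poisson (lam δ (shift '' N)) (Ev s) = poisson (lam δ N) (Ev s)` by
`poisson_restrict` (both are equal to `poisson (lam δ (cthickening ρ K)) (Ev s)`, by `crosses_inter`, `shift_surj`).
-/

set_option autoImplicit false

open MeasureTheory Set
open scoped ENNReal Pointwise

namespace MP412

private theorem C6_meas {s : ℝ} (hs : 0 ≤ s) {K A B : Set ℂ} (hK : IsCompact K)
    (hKc : Convex ℝ K) (hA : IsCompact A) (hAK : A ⊆ K) (hB : IsCompact B) (hBK : B ⊆ K) :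
    MeasurableSet (Ev s K A B) := by
  have h : Ev s K A B = {c | Chain (2 * s) s K A B (pts c)} := by
    ext c
    exact crosses_iff s hs K A B (pts c) hK hKc hAK hBK (finite_pts c)
  rw [h]
  exact measurableSet_chain _ _ K A B hK hA hB

private theorem C6_restrict {s ρ δ : ℝ} (hs : 0 ≤ s) (hsρ : s ≤ ρ) {K A B X : Set ℂ}
    (hK : IsCompact K)
    (hKc : Convex ℝ K) (hA : IsCompact A) (hAK : A ⊆ K) (hB : IsCompact B) (hBK : B ⊆ K)
    (hX : Metric.cthickening ρ K ⊆ X) (hf : IsFiniteMeasure (lam δ X)) :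
    poisson (lam δ X) (Ev s K A B) = poisson (lam δ (Metric.cthickening ρ K)) (Ev s K A B) := by
  have hm : MeasurableSet (Metric.cthickening ρ K) := Metric.isClosed_cthickening.measurableSet
  have h1 : (lam δ X).restrict (Metric.cthickening ρ K) = lam δ (Metric.cthickening ρ K) := by
    unfold lam
    rw [Measure.restrict_smul, Measure.restrict_restrict hm, inter_eq_self_of_subset_left hX]
  have h2 := poisson_restrict (lam δ X) (Metric.cthickening ρ K) hm
    (fun Y => Crosses (⋃ x ∈ Y, Metric.closedBall x s) K A B)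
    (C6_meas hs hK hKc hA hAK hB hBK) (by
      intro Y
      have h3 := crosses_inter s K A B Y
      have h4 := crosses_inter s K A B (Y ∩ Metric.cthickening ρ K)
      have h5 : Y ∩ Metric.cthickening ρ K ∩ Metric.cthickening s K =
          Y ∩ Metric.cthickening s K := by
        rw [inter_assoc, inter_eq_self_of_subset_right (Metric.cthickening_mono hsρ K)]
      rw [h5] at h4
      exact h3.trans h4.symm)
  rw [h1] at h2
  exact h2

/-- the law of the shifted configuration -/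
private theorem C6_law (Λ : Measure ℂ) [IsFiniteMeasure Λ] (f g : ℂ → ℂ) (hf : Measurable f)
    (hg : Measurable g) (S : Set Conf) (hS : MeasurableSet S) :
    poisson Λ {c | mapConf g (mapConf f c) ∈ S} = poisson ((Λ.map f).map g) S := by
  rw [← poisson_map (Λ.map f) g hg, ← poisson_map Λ f hf,
    Measure.map_map (measurable_mapConf hg) (measurable_mapConf hf),
    Measure.map_apply ((measurable_mapConf hg).comp (measurable_mapConf hf)) hS]
  rfl

/-- the comparison of the two intensities -/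
private theorem C6_tv (N : Set ℂ) (hN : Bornology.IsBounded N) (g : ℂ → ℂ) (hg : Measurable g)
    (δ ε : ℝ) (hε : 0 ≤ ε)
    (h1 : volume.restrict (g '' N) ≤ (volume.restrict N).map g)
    (h2 : (volume.restrict N).map g ≤ ENNReal.ofReal (1 + ε) • volume.restrict (g '' N))
    (S : Set Conf) (hS : MeasurableSet S) :
    |(poisson (lam δ (g '' N)) S).toReal - (poisson ((lam δ N).map g) S).toReal| ≤
      ε * ((δ⁻¹) ^ 2 * (volume N).toReal) := by
  have hfN : IsFiniteMeasure (lam δ N) := isFiniteMeasure_lam δ hN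
  have e2 : (lam δ N).map g = ENNReal.ofReal ((δ⁻¹) ^ 2) • (volume.restrict N).map g := by
    unfold lam; rw [Measure.map_smul]
  have hle : lam δ (g '' N) ≤ (lam δ N).map g := by
    rw [e2]; unfold lam
    refine Measure.le_iff.mpr fun T _ => ?_
    rw [Measure.smul_apply, Measure.smul_apply, smul_eq_mul, smul_eq_mul]
    gcongr
  have hge : (lam δ N).map g ≤ ENNReal.ofReal (1 + ε) • lam δ (g '' N) := by
    rw [e2]; unfold lam
    refine Measure.le_iff.mpr fun T _ => ?_
    rw [Measure.smul_apply, Measure.smul_apply, Measure.smul_apply, smul_eq_mul, smul_eq_mul,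
      smul_eq_mul, mul_left_comm]
    gcongr
    exact h2 T
  have hf1 : IsFiniteMeasure (lam δ (g '' N)) := ⟨lt_of_le_of_lt (hle univ) (measure_lt_top _ _)⟩
  refine (poisson_tv hle S hS).trans ?_
  have hu : ((lam δ N).map g) univ = (lam δ N) univ := by
    rw [Measure.map_apply hg MeasurableSet.univ, preimage_univ]
  have hv : ((lam δ N) univ).toReal = (δ⁻¹) ^ 2 * (volume N).toReal := by
    unfold lam
    rw [Measure.smul_apply, smul_eq_mul, Measure.restrict_apply_univ, ENNReal.toReal_mul,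
      ENNReal.toReal_ofReal (sq_nonneg _)]
  have hw1 : ((lam δ (g '' N)) univ).toReal ≤ (((lam δ N).map g) univ).toReal :=
    ENNReal.toReal_mono (measure_ne_top _ _) (hle univ)
  have hw2 : (((lam δ N).map g) univ).toReal ≤ (1 + ε) * ((lam δ (g '' N)) univ).toReal := by
    have h3 := hge univ
    rw [Measure.smul_apply, smul_eq_mul] at h3
    have h4 := ENNReal.toReal_mono (ENNReal.mul_ne_top ENNReal.ofReal_ne_top
      (measure_ne_top (lam δ (g '' N)) univ)) h3
    rwa [ENNReal.toReal_mul, ENNReal.toReal_ofReal (by linarith)] at h4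
  rw [hu, hv] at hw1 hw2 ⊢
  nlinarith

theorem stage1 (r : ℝ) (hr : 0 < r) (G : Set ℂ) (hG : IsOpen G) (φ ψ : ℂ → ℂ)
    (hφ : DifferentiableOn ℂ φ G) (hφ' : ∀ z ∈ G, deriv φ z ≠ 0) (hψ : ∀ z ∈ G, ψ (φ z) = z)
    (K N A B : Set ℂ) (hK : IsCompact K) (hKc : Convex ℝ K)
    (hN : IsCompact N) (hKN : K ⊆ interior N) (hNG : N ⊆ G)
    (hA : IsCompact A) (hAK : A ⊆ K) (hB : IsCompact B) (hBK : B ⊆ K) :
    ∃ C C₁ δ₀ : ℝ, 0 ≤ C₁ ∧ 0 < δ₀ ∧ ∀ δ, 0 < δ → δ ≤ δ₀ →
      Pdens (fun w => ‖deriv ψ w‖) (φ '' N) r δ⁻¹ (φ '' K) (φ '' A) (φ '' B) ≤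
        (poisson (lam δ N) (Ev (r * δ * (1 + C₁ * δ ^ 2)) K A B)).toReal + C * δ ^ 2 ∧
      (poisson (lam δ N) (Ev (r * δ * (1 - C₁ * δ ^ 2)) K A B)).toReal ≤
        Pdens (fun w => ‖deriv ψ w‖) (φ '' N) r δ⁻¹ (φ '' K) (φ '' A) (φ '' B) + C * δ ^ 2 := by
  obtain ⟨Cs, n₀, hCs, hn₀, hev⟩ := event_sandwich G hG φ ψ hφ hφ' hψ K N A B hN
    (hKN.trans interior_subset) hNG hAK hBK r hr
  obtain ⟨Cm, tm, hCm, htm, hsm⟩ := shift_measure G hG φ hφ hφ' N hN hNG
  obtain ⟨ρ, ts, hρ, hts, hρN, hss⟩ := shift_surj G hG φ hφ hφ' K N hK hN hKN hNG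
  have hC₁0 : 0 ≤ Cs * r ^ 2 := mul_nonneg hCs (sq_nonneg r)
  set C₁ : ℝ := Cs * r ^ 2 with hC₁
  set D : ℝ := min (min n₀⁻¹ (min (tm / r) (ts / r))) (min (ρ / (2 * r)) (1 / (C₁ + 1))) with hD
  have hDpos : 0 < D := lt_min (lt_min (inv_pos.mpr hn₀) (lt_min (div_pos htm hr)
    (div_pos hts hr))) (lt_min (div_pos hρ (by linarith)) (div_pos one_pos (by linarith)))
  refine ⟨Cm * r ^ 4 * (volume N).toReal, C₁, D, hC₁0, hDpos, fun δ hδ hδD => ?_⟩
  have b1 : δ ≤ n₀⁻¹ := hδD.trans (le_trans (min_le_left _ _) (min_le_left _ _))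
  have b2 : δ ≤ tm / r := hδD.trans (le_trans (min_le_left _ _)
    (le_trans (min_le_right _ _) (min_le_left _ _)))
  have b3 : δ ≤ ts / r := hδD.trans (le_trans (min_le_left _ _)
    (le_trans (min_le_right _ _) (min_le_right _ _)))
  have b4 : δ ≤ ρ / (2 * r) := hδD.trans (le_trans (min_le_right _ _) (min_le_left _ _))
  have b5 : δ ≤ 1 / (C₁ + 1) := hδD.trans (le_trans (min_le_right _ _) (min_le_right _ _))
  have c1 : n₀ ≤ δ⁻¹ := by rw [le_inv_comm₀ hn₀ hδ]; exact b1
  have c2 : r * δ ≤ tm := by rw [le_div_iff₀ hr] at b2; linarith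
  have c3 : r * δ ≤ ts := by rw [le_div_iff₀ hr] at b3; linarith
  have c4 : r * δ * 2 ≤ ρ := by rw [le_div_iff₀ (by linarith)] at b4; linarith
  have c5 : C₁ * δ ≤ 1 ∧ δ ≤ 1 := by
    rw [le_div_iff₀ (by linarith)] at b5
    constructor <;> nlinarith
  have c6 : C₁ * δ ^ 2 ≤ 1 := by nlinarith [mul_nonneg hC₁0 hδ.le]
  have hrδ : 0 < r * δ := mul_pos hr hδ
  have hdiv : r / δ⁻¹ = r * δ := by rw [div_inv_eq_mul]
  set t : ℝ := r * δ with ht
  set f : ℂ → ℂ := (φ '' N).indicator ψ with hf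
  set g : ℂ → ℂ := shift φ t with hg
  have hfm : Measurable f := measurable_inv G hG φ ψ hφ hφ' hψ N hN hNG
  have hgm : Measurable g := measurable_shift φ t
  set Λ : Measure ℂ := (volume.restrict (φ '' N)).withDensity
    fun x => ENNReal.ofReal ((δ⁻¹ * ‖deriv ψ x‖) ^ 2) with hΛ
  have hmap : Λ.map f = lam δ N := by
    have := change_var G hG φ ψ hφ hφ' hψ N hN hNG δ⁻¹ (inv_pos.mpr hδ)
    rw [inv_inv] at this
    exact this
  have hfN : IsFiniteMeasure (lam δ N) := isFiniteMeasure_lam δ hN.isBounded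
  have hfΛ : IsFiniteMeasure Λ := by
    refine ⟨?_⟩
    have h1 : (Λ.map f) univ < ⊤ := by rw [hmap]; exact measure_lt_top _ _
    rwa [Measure.map_apply hfm MeasurableSet.univ, preimage_univ] at h1
  -- all points are in `φ '' N`
  have hφN : MeasurableSet (φ '' N) :=
    (hN.image_of_continuousOn (hφ.continuousOn.mono hNG)).measurableSet
  have hae : ∀ᵐ c ∂(poisson Λ), pts c ⊆ φ '' N := by
    refine poisson_ae_subset Λ _ hφN ?_
    refine withDensity_absolutelyContinuous _ _ ?_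
    rw [Measure.restrict_apply hφN.compl, compl_inter_self, measure_empty]
  obtain ⟨-, hm1, hm2⟩ := hsm t hrδ c2
  -- the key comparison
  have hkey : ∀ s, 0 ≤ s → s ≤ ρ →
      |(poisson (lam δ N) (Ev s K A B)).toReal -
        (poisson Λ {c | mapConf g (mapConf f c) ∈ Ev s K A B}).toReal| ≤
          Cm * r ^ 4 * (volume N).toReal * δ ^ 2 := by
    intro s hs hsρ
    have hSm : MeasurableSet (Ev s K A B) := C6_meas hs hK hKc hA hAK hB hBK
    have h3 := C6_tv N hN.isBounded g hgm δ (Cm * t ^ 4) (mul_nonneg hCm (by positivity))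
      hm1 hm2 (Ev s K A B) hSm
    have hle : lam δ (g '' N) ≤ (lam δ N).map g := by
      unfold lam
      rw [Measure.map_smul]
      refine Measure.le_iff.mpr fun T _ => ?_
      rw [Measure.smul_apply, Measure.smul_apply, smul_eq_mul, smul_eq_mul]
      gcongr
    have hf1 : IsFiniteMeasure (lam δ (g '' N)) :=
      ⟨lt_of_le_of_lt (hle univ) (measure_lt_top _ _)⟩
    rw [C6_restrict hs hsρ hK hKc hA hAK hB hBK (hss t hrδ c3) hf1,
      ← C6_restrict hs hsρ hK hKc hA hAK hB hBK hρN hfN, ← hmap,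
      ← C6_law Λ f g hfm hgm _ hSm, hmap] at h3
    refine h3.trans (le_of_eq ?_)
    rw [ht]
    field_simp
  have hPd : Pdens (fun w => ‖deriv ψ w‖) (φ '' N) r δ⁻¹ (φ '' K) (φ '' A) (φ '' B) =
      (poisson Λ {c | Crosses (⋃ x ∈ pts c, Metric.closedBall x (r / (δ⁻¹ * ‖deriv ψ x‖)))
        (φ '' K) (φ '' A) (φ '' B)}).toReal := rfl
  rw [hPd]
  have hCt : Cs * t ^ 2 = C₁ * δ ^ 2 := by rw [hC₁, ht]; ring
  constructor
  · -- upper bound
    have hs0 : 0 ≤ t * (1 + C₁ * δ ^ 2) := by positivity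
    have hsρ : t * (1 + C₁ * δ ^ 2) ≤ ρ := by nlinarith
    have h4 := hkey _ hs0 hsρ
    have h5 : poisson Λ {c | Crosses (⋃ x ∈ pts c, Metric.closedBall x
        (r / (δ⁻¹ * ‖deriv ψ x‖))) (φ '' K) (φ '' A) (φ '' B)} ≤
        poisson Λ {c | mapConf g (mapConf f c) ∈ Ev (t * (1 + C₁ * δ ^ 2)) K A B} := by
      refine measure_mono_ae ?_
      filter_upwards [hae] with c hc hcr
      have h6 := (hev δ⁻¹ c1 c hc).1 hcr
      rw [hdiv, hCt] at h6
      exact h6
    have h7 := ENNReal.toReal_mono (measure_ne_top _ _) h5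
    have h8 := (abs_le.mp h4).1
    linarith
  · have hs0 : 0 ≤ t * (1 - C₁ * δ ^ 2) := mul_nonneg hrδ.le (by linarith)
    have hsρ : t * (1 - C₁ * δ ^ 2) ≤ ρ := by nlinarith [mul_nonneg hC₁0 (sq_nonneg δ)]
    have h4 := hkey _ hs0 hsρ
    have h5 : poisson Λ {c | mapConf g (mapConf f c) ∈ Ev (t * (1 - C₁ * δ ^ 2)) K A B} ≤
        poisson Λ {c | Crosses (⋃ x ∈ pts c, Metric.closedBall x
        (r / (δ⁻¹ * ‖deriv ψ x‖))) (φ '' K) (φ '' A) (φ '' B)} := by
      refine measure_mono_ae ?_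
      filter_upwards [hae] with c hc hcr
      have h6 := (hev δ⁻¹ c1 c hc).2
      rw [hdiv, hCt] at h6
      exact h6 hcr
    have h7 := ENNReal.toReal_mono (measure_ne_top _ _) h5
    have h8 := (abs_le.mp h4).2
    linarith

end MP412
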