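import Pool.Agent.Lib.MP_412417_pr.Stmt

/-!
# Boolean percolation in the plane: auxiliary notions of the proof
-/

set_option autoImplicit false

open MeasureTheory Set
open scoped ENNReal Pointwise

namespace MP412

/-- `c` arises from `c'` by inserting the point `x` somewhere. -/
def IsIns (c : Conf) (x : ℂ) (c' : Conf) : Prop :=
  ∃ (k : ℕ) (i : Fin (k + 1)) (y : Fin (k + 1) → ℂ), c = ⟨k + 1, y⟩ ∧ x = y i ∧
    c' = ⟨k, fun j => y (i.succAbove j)⟩

/-- add a point -/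
def cons (x : ℂ) (c : Conf) : Conf := ⟨c.1 + 1, Fin.cons x c.2⟩

/-- the number of points in `S` -/
noncomputable def cnt (S : Set ℂ) (c : Conf) : ℝ≥0∞ := ∑ i, S.indicator 1 (c.2 i)

/-- `x` and `y` are linked: distance at most `u`, and a common point of `K` at distance at most
`s` from both. -/
def Link (u s : ℝ) (K : Set ℂ) (x y : ℂ) : Prop :=
  dist x y ≤ u ∧ ∃ q ∈ K, dist x q ≤ s ∧ dist y q ≤ s

/-- there is a chain of linked points of `X` from `A` to `B` -/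
def Chain (u s : ℝ) (K A B : Set ℂ) (X : Set ℂ) : Prop :=
  ∃ x ∈ X, ∃ y ∈ X, (∃ q ∈ A, dist x q ≤ s) ∧ (∃ q ∈ B, dist y q ≤ s) ∧
    Relation.ReflTransGen (fun a b => a ∈ X ∧ b ∈ X ∧ Link u s K a b) x y

/-- the Poisson process of intensity `δ⁻²` on `N` -/
noncomputable def lam (δ : ℝ) (N : Set ℂ) : Measure ℂ :=
  ENNReal.ofReal ((δ⁻¹) ^ 2) • (volume.restrict N)

/-- the crossing event for discs of radius `s` -/
def Ev (s : ℝ) (K A B : Set ℂ) : Set Conf :=
  {c | Crosses (⋃ x ∈ pts c, Metric.closedBall x s) K A B}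

/-- apply a map to the points of a configuration -/
def mapConf (g : ℂ → ℂ) (c : Conf) : Conf := ⟨c.1, fun i => g (c.2 i)⟩

/-- the pairs of centres whose discs of radius `s'` have a common point of `K` and whose discs of
radius `s` meet each other and `K` but have no common point of `K` -/
def Bad (s s' : ℝ) (K : Set ℂ) : Set (ℂ × ℂ) :=
  {p | dist p.1 p.2 ≤ 2 * s ∧ (∃ q ∈ K, dist p.1 q ≤ s) ∧ (∃ q ∈ K, dist p.2 q ≤ s) ∧
    (∃ q ∈ K, dist p.1 q ≤ s' ∧ dist p.2 q ≤ s') ∧ ¬ ∃ q ∈ K, dist p.1 q ≤ s ∧ dist p.2 q ≤ s}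

/-- the shift of the centres at scale `t` -/
noncomputable def shift (φ : ℂ → ℂ) (t : ℝ) (w : ℂ) : ℂ :=
  w - (starRingEnd ℂ) (deriv (deriv φ) w / (2 * deriv φ w)) * (t : ℂ) ^ 2

/-- the squares of side `e`, indexed by `ℤ × ℤ` -/
def sq (e : ℝ) (p : ℤ × ℤ) : Set ℂ :=
  {z | p.1 * e ≤ z.re ∧ z.re < (p.1 + 1) * e ∧ p.2 * e ≤ z.im ∧ z.im < (p.2 + 1) * e}

/-- the indices at distance at most `m` from `p` -/
noncomputable def box (m : ℕ) (p : ℤ × ℤ) : Finset (ℤ × ℤ) :=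
  Finset.Icc (p.1 - m, p.2 - m) (p.1 + m, p.2 + m)

end MP412
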