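import Pool.Agent.Lib.MP_412417_pr.P6
import Pool.Agent.Lib.MP_412417_pr.P7
import Pool.Agent.Lib.MP_412417_pr.G1
import Pool.Agent.Lib.MP_412417_pr.G2
import Pool.Agent.Lib.MP_412417_pr.L0

/-!
Row 412-F1: scaling.

`poisson_map` with `z ↦ z / n`: `(volume.restrict (cthickening r (n • K))).map (z ↦ z / n) = lam n⁻¹ (cthickening (r / n) K)`; the crossing events
correspond. Then `poisson_restrict` with `cthickening (r / n) K ⊆ cthickening ρ K ⊆ N` and `crosses_inter` (measurability by `crosses_iff`,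
`measurableSet_chain`).
-/

set_option autoImplicit false

open MeasureTheory Set
open scoped ENNReal Pointwise

namespace MP412

private theorem F1_crosses_smul_aux {n : ℝ} {S K A B : Set ℂ} (h : Crosses S K A B) :
    Crosses (n • S) (n • K) (n • A) (n • B) := by
  obtain ⟨C, hC, hCc, ⟨a, haC, haA⟩, ⟨b, hbC, hbB⟩⟩ := h
  refine ⟨n • C, ?_, ?_, ⟨n • a, ?_, ?_⟩, ⟨n • b, ?_, ?_⟩⟩
  · rintro _ ⟨x, hx, rfl⟩
    exact ⟨smul_mem_smul_set (hC hx).1, smul_mem_smul_set (hC hx).2⟩
  · have : n • C = (fun z : ℂ => n • z) '' C := rfl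
    rw [this]
    exact hCc.image _ (continuous_const_smul n).continuousOn
  · exact smul_mem_smul_set haC
  · exact smul_mem_smul_set haA
  · exact smul_mem_smul_set hbC
  · exact smul_mem_smul_set hbB

private theorem F1_crosses_smul {n : ℝ} (hn : n ≠ 0) {S K A B : Set ℂ} :
    Crosses (n • S) (n • K) (n • A) (n • B) ↔ Crosses S K A B := by
  constructor
  · intro h
    have h' := F1_crosses_smul_aux (n := n⁻¹) h
    simpa only [smul_smul, inv_mul_cancel₀ hn, one_smul] using h'
  · exact F1_crosses_smul_aux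

private theorem F1_union {n r : ℝ} (hn : 0 < n) (hr : 0 < r) (c : Conf) :
    n • (⋃ x ∈ pts (mapConf (fun z : ℂ => n⁻¹ • z) c), Metric.closedBall x (r * n⁻¹)) =
      ⋃ x ∈ pts c, Metric.closedBall x r := by
  rw [pts_mapConf]
  have hs : (0 : ℝ) ≤ r * n⁻¹ := by positivity
  rw [biUnion_image, smul_set_iUnion₂]
  refine iUnion₂_congr fun x _ => ?_
  rw [smul_closedBall _ _ hs, smul_smul, mul_inv_cancel₀ hn.ne', one_smul]
  congr 1
  rw [Real.norm_of_nonneg hn.le]
  field_simp

private theorem F1_cthickening {n r : ℝ} (hn : 0 < n) (hr : 0 < r) {K : Set ℂ} (hK : IsCompact K) :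
    Metric.cthickening r (n • K) = n • Metric.cthickening (r * n⁻¹) K := by
  have hs : (0 : ℝ) ≤ r * n⁻¹ := by positivity
  have hnK : IsCompact (n • K) := hK.smul n
  rw [hnK.cthickening_eq_biUnion_closedBall hr.le, hK.cthickening_eq_biUnion_closedBall hs,
    smul_set_iUnion₂]
  have : n • K = (fun z : ℂ => n • z) '' K := rfl
  rw [this, biUnion_image]
  refine iUnion₂_congr fun x _ => ?_
  rw [smul_closedBall _ _ hs]
  congr 1
  rw [Real.norm_of_nonneg hn.le]
  field_simp

private theorem F1_map {n r : ℝ} (hn : 0 < n) (hr : 0 < r) {K : Set ℂ} (hK : IsCompact K) :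
    (volume.restrict (Metric.cthickening r (n • K))).map (fun z : ℂ => n⁻¹ • z) =
      lam n⁻¹ (Metric.cthickening (r * n⁻¹) K) := by
  ext S hS
  have hg : Measurable (fun z : ℂ => n⁻¹ • z) := measurable_const_smul _
  rw [Measure.map_apply hg hS, Measure.restrict_apply (hg hS), lam_apply _ _ _ hS,
    F1_cthickening hn hr hK]
  have e : (fun z : ℂ => n⁻¹ • z) ⁻¹' S = n • S := by
    rw [preimage_smul_inv₀ hn.ne']
  rw [e, ← smul_set_inter₀ hn.ne', Measure.addHaar_smul, Complex.finrank_real_complex]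
  congr 2
  rw [inv_inv, abs_of_nonneg (by positivity)]

theorem P_eq (r : ℝ) (hr : 0 < r) (K N A B : Set ℂ) (hK : IsCompact K) (hKc : Convex ℝ K)
    (hA : IsCompact A) (hAK : A ⊆ K) (hB : IsCompact B) (hBK : B ⊆ K) (hN : MeasurableSet N)
    (hNb : Bornology.IsBounded N) (ρ : ℝ) (hρ : 0 < ρ) (hKN : Metric.cthickening ρ K ⊆ N)
    (n : ℝ) (hn : 0 < n) (hn' : r / n ≤ ρ) :
    P r n K A B = (poisson (lam n⁻¹ N) (Ev (r * n⁻¹) K A B)).toReal := by
  have hs : (0 : ℝ) ≤ r * n⁻¹ := by positivity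
  have hg : Measurable (fun z : ℂ => n⁻¹ • z) := measurable_const_smul _
  have hmeas : MeasurableSet (Ev (r * n⁻¹) K A B) := by
    have e : Ev (r * n⁻¹) K A B = {c : Conf | Chain (2 * (r * n⁻¹)) (r * n⁻¹) K A B (pts c)} := by
      ext c
      exact crosses_iff _ hs K A B (pts c) hK hKc hAK hBK (finite_pts c)
    rw [e]
    exact measurableSet_chain _ _ K A B hK hA hB
  have hfin0 : IsFiniteMeasure (volume.restrict (Metric.cthickening r (n • K))) := by
    constructor
    rw [Measure.restrict_apply_univ]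
    exact (hK.smul n).isBounded.cthickening.measure_lt_top
  have h1 : P r n K A B = (poisson (lam n⁻¹ (Metric.cthickening (r * n⁻¹) K))
      (Ev (r * n⁻¹) K A B)).toReal := by
    rw [← F1_map hn hr hK, ← poisson_map _ _ hg, Measure.map_apply (measurable_mapConf hg) hmeas]
    unfold P Measure.real
    congr 2
    ext c
    simp only [mem_setOf_eq, mem_preimage, Ev]
    rw [← F1_union hn hr c, F1_crosses_smul hn.ne']
  have hfin : IsFiniteMeasure (lam n⁻¹ N) := isFiniteMeasure_lam _ hNb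
  have hcN : Metric.cthickening (r * n⁻¹) K ⊆ N := by
    refine Subset.trans (Metric.cthickening_mono ?_ K) hKN
    rwa [← div_eq_mul_inv]
  have hcm : MeasurableSet (Metric.cthickening (r * n⁻¹) K) :=
    Metric.isClosed_cthickening.measurableSet
  have h2 : poisson (lam n⁻¹ N) (Ev (r * n⁻¹) K A B) =
      poisson (lam n⁻¹ (Metric.cthickening (r * n⁻¹) K)) (Ev (r * n⁻¹) K A B) := by
    have h3 := poisson_restrict (lam n⁻¹ N) (Metric.cthickening (r * n⁻¹) K) hcm
      (fun X => Crosses (⋃ x ∈ X, Metric.closedBall x (r * n⁻¹)) K A B) hmeas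
      (fun X => crosses_inter _ K A B X)
    have e : (lam n⁻¹ N).restrict (Metric.cthickening (r * n⁻¹) K) =
        lam n⁻¹ (Metric.cthickening (r * n⁻¹) K) := by
      unfold lam
      rw [Measure.restrict_smul, Measure.restrict_restrict hcm, inter_eq_left.mpr hcN]
    rw [e] at h3
    exact h3
  rw [h1, h2]

end MP412
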