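import Pool.Agent.Lib.MP_412417_pr.G10a

/-!
Row 412-G10: the measure of the bad pairs.

`(x, v) ↦ (x, x + v)` preserves the measure (`measurePreserving_prod_add` or similar), so the measure is the integral of `bad_slice` over
`‖v‖ ≤ 2 s`. For `‖v‖ ≤ 2 s (1 - κ)`: `√(s^2 - ‖v‖^2/4) ≥ s √κ` and `β - α = (s'^2 - s^2) / (α + β) ≤ (s'^2 - s^2) / (s √κ)`, area at most
`4 π s^2`; for the other `v`: `β - α ≤ √(β^2 - α^2)`, area at most `8 π κ s^2` (`Complex.volume_closedBall`, `Complex.volume_ball`).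
-/

set_option autoImplicit false

open MeasureTheory Set
open scoped ENNReal Pointwise

namespace MP412

private theorem G10_ball (r : ℝ) (hr : 0 ≤ r) :
    volume (Metric.closedBall (0 : ℂ) r) = ENNReal.ofReal (Real.pi * r ^ 2) := by
  rw [Complex.volume_closedBall, ← ENNReal.ofReal_pow hr]
  have h1 : (NNReal.pi : ℝ≥0∞) = ENNReal.ofReal Real.pi := by
    rw [ENNReal.ofReal, ← NNReal.coe_real_pi, Real.toNNReal_coe]
  rw [h1, ← ENNReal.ofReal_mul (by positivity)]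
  congr 1
  ring

private theorem G10_ring (s κ : ℝ) (hs : 0 < s) (hκ : 0 < κ) (hκ1 : κ ≤ 1) :
    volume (Metric.closedBall (0 : ℂ) (2 * s) \ Metric.closedBall 0 (2 * s * (1 - κ))) ≤
      ENNReal.ofReal (8 * Real.pi * κ * s ^ 2) := by
  have hr : 0 ≤ 2 * s * (1 - κ) := by
    have : 0 ≤ 1 - κ := by linarith
    positivity
  have hsub : Metric.closedBall (0 : ℂ) (2 * s * (1 - κ)) ⊆ Metric.closedBall 0 (2 * s) := by
    apply Metric.closedBall_subset_closedBall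
    nlinarith
  have hfin : volume (Metric.closedBall (0 : ℂ) (2 * s * (1 - κ))) ≠ ⊤ := by
    rw [G10_ball _ hr]
    exact ENNReal.ofReal_ne_top
  rw [measure_sdiff hsub Metric.isClosed_closedBall.measurableSet.nullMeasurableSet hfin,
    G10_ball _ hr, G10_ball _ (by positivity), ← ENNReal.ofReal_sub _ (by positivity)]
  apply ENNReal.ofReal_le_ofReal
  have := Real.pi_pos
  have h2 : Real.pi * (2 * s) ^ 2 - Real.pi * (2 * s * (1 - κ)) ^ 2 =
      8 * Real.pi * κ * s ^ 2 - 4 * (Real.pi * (κ * s) ^ 2) := by ring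
  rw [h2]
  have : 0 ≤ Real.pi * (κ * s) ^ 2 := by positivity
  linarith

private theorem G10_inner (s s' κ n : ℝ) (hs : 0 < s) (hss : s ≤ s') (hκ : 0 < κ) (hκ1 : κ ≤ 1)
    (hn : 0 ≤ n) (hn2 : n ≤ 2 * s * (1 - κ)) :
    √(s' ^ 2 - n ^ 2 / 4) - √(s ^ 2 - n ^ 2 / 4) ≤ (s' ^ 2 - s ^ 2) / (s * √κ) := by
  have h1 : n ^ 2 ≤ (2 * s * (1 - κ)) ^ 2 := by
    apply pow_le_pow_left₀ hn hn2
  have h2 : κ * s ^ 2 ≤ s ^ 2 - n ^ 2 / 4 := by nlinarith [mul_pos hκ (pow_pos hs 2)]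
  have h3 : s * √κ ≤ √(s ^ 2 - n ^ 2 / 4) := by
    apply Real.le_sqrt_of_sq_le
    rw [mul_pow, Real.sq_sqrt hκ.le]
    linarith
  have hpos : 0 < s * √κ := mul_pos hs (Real.sqrt_pos.2 hκ)
  have h4 : s ^ 2 ≤ s' ^ 2 := by nlinarith
  have hα2 : √(s ^ 2 - n ^ 2 / 4) ^ 2 = s ^ 2 - n ^ 2 / 4 :=
    Real.sq_sqrt (by nlinarith [mul_pos hκ (pow_pos hs 2)])
  have hβ2 : √(s' ^ 2 - n ^ 2 / 4) ^ 2 = s' ^ 2 - n ^ 2 / 4 :=
    Real.sq_sqrt (by nlinarith [mul_pos hκ (pow_pos hs 2)])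
  have hβ0 : 0 ≤ √(s' ^ 2 - n ^ 2 / 4) := Real.sqrt_nonneg _
  have hαβ : √(s ^ 2 - n ^ 2 / 4) ≤ √(s' ^ 2 - n ^ 2 / 4) := Real.sqrt_le_sqrt (by linarith)
  rw [le_div_iff₀ hpos]
  obtain ⟨α, hα⟩ : ∃ α, α = √(s ^ 2 - n ^ 2 / 4) := ⟨_, rfl⟩
  obtain ⟨β, hβ⟩ : ∃ β, β = √(s' ^ 2 - n ^ 2 / 4) := ⟨_, rfl⟩
  rw [← hα] at hα2 h3 hαβ ⊢
  rw [← hβ] at hβ2 hβ0 hαβ ⊢
  have h5 : (β - α) * (s * √κ) ≤ (β - α) * (α + β) := by
    apply mul_le_mul_of_nonneg_left _ (by linarith)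
    linarith
  nlinarith

private theorem G10_outer (s s' n : ℝ) (hss : s ^ 2 ≤ s' ^ 2) (hn : n ^ 2 / 4 ≤ s ^ 2) :
    √(s' ^ 2 - n ^ 2 / 4) - √(s ^ 2 - n ^ 2 / 4) ≤ √(s' ^ 2 - s ^ 2) := by
  have h1 : √(s' ^ 2 - n ^ 2 / 4) ≤ √(s' ^ 2 - s ^ 2) + √(s ^ 2 - n ^ 2 / 4) := by
    have h2 := Real.sqrt_nonneg (s' ^ 2 - s ^ 2)
    have h3 := Real.sqrt_nonneg (s ^ 2 - n ^ 2 / 4)
    apply Real.sqrt_le_iff.2
    refine ⟨by linarith, ?_⟩
    have h4 := Real.sq_sqrt (show 0 ≤ s' ^ 2 - s ^ 2 by linarith)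
    have h5 := Real.sq_sqrt (show 0 ≤ s ^ 2 - n ^ 2 / 4 by linarith)
    nlinarith [mul_nonneg h2 h3]
  linarith

theorem bad_measure (K : Set ℂ) (hK : IsCompact K) (hKc : Convex ℝ K) :
    ∃ C : ℝ, 0 < C ∧ ∀ s s' κ : ℝ, 0 < s → s ≤ s' → 0 < κ → κ ≤ 1 →
      ((volume : Measure ℂ).prod volume) (Bad s s' K) ≤
        ENNReal.ofReal (C * s ^ 2 * ((s' ^ 2 - s ^ 2) / (s * √κ) + κ * √(s' ^ 2 - s ^ 2))) := by
  have hπ := Real.pi_pos
  have hd : 0 ≤ Metric.diam K := Metric.diam_nonneg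
  refine ⟨16 * Real.pi * (Metric.diam K + 1), by positivity, fun s s' κ hs hss hκ hκ1 => ?_⟩
  have hss2 : s ^ 2 ≤ s' ^ 2 := by nlinarith
  have hE : 0 ≤ (s' ^ 2 - s ^ 2) / (s * √κ) := by
    apply div_nonneg (by linarith)
    positivity
  have hF : 0 ≤ √(s' ^ 2 - s ^ 2) := Real.sqrt_nonneg _
  have hmeas := measurableSet_Bad K hK s s'
  -- shear
  have hmp := measurePreserving_prod_add (volume : Measure ℂ) (volume : Measure ℂ)
  have h1 : ((volume : Measure ℂ).prod volume) (Bad s s' K) =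
      ((volume : Measure ℂ).prod volume) ((fun z : ℂ × ℂ => (z.1, z.1 + z.2)) ⁻¹' Bad s s' K) :=
    (hmp.measure_preimage hmeas.nullMeasurableSet).symm
  rw [h1, Measure.prod_apply_symm (hmp.measurable hmeas)]
  obtain ⟨c1, hc1⟩ : ∃ c1 : ℝ, c1 = 2 * ((s' ^ 2 - s ^ 2) / (s * √κ)) * Metric.diam K := ⟨_, rfl⟩
  obtain ⟨c2, hc2⟩ : ∃ c2 : ℝ, c2 = 2 * √(s' ^ 2 - s ^ 2) * Metric.diam K := ⟨_, rfl⟩
  have hc10 : 0 ≤ c1 := by rw [hc1]; positivity
  have hc20 : 0 ≤ c2 := by rw [hc2]; positivity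
  have hbd : ∀ v : ℂ, volume ((fun x : ℂ => (x, v)) ⁻¹'
        ((fun z : ℂ × ℂ => (z.1, z.1 + z.2)) ⁻¹' Bad s s' K)) ≤
      (Metric.closedBall (0 : ℂ) (2 * s * (1 - κ))).indicator (fun _ => ENNReal.ofReal c1) v +
      (Metric.closedBall (0 : ℂ) (2 * s) \ Metric.closedBall 0 (2 * s * (1 - κ))).indicator
        (fun _ => ENNReal.ofReal c2) v := by
    intro v
    have hset : ((fun x : ℂ => (x, v)) ⁻¹'
        ((fun z : ℂ × ℂ => (z.1, z.1 + z.2)) ⁻¹' Bad s s' K)) =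
        {x : ℂ | (x, x + v) ∈ Bad s s' K} := rfl
    rw [hset]
    by_cases hv2 : ‖v‖ ≤ 2 * s
    · by_cases hv0 : v = 0
      · have hemp : {x : ℂ | (x, x + v) ∈ Bad s s' K} = ∅ := by
          rw [eq_empty_iff_forall_notMem]
          rintro x ⟨-, ⟨q, hq, hxq⟩, -, -, hno⟩
          apply hno
          exact ⟨q, hq, hxq, by simpa [hv0] using hxq⟩
        rw [hemp, measure_empty]
        exact zero_le
      · refine (bad_slice K hK hKc s s' hs hss v hv0 hv2).trans ?_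
        by_cases hv1 : ‖v‖ ≤ 2 * s * (1 - κ)
        · have hm1 : v ∈ Metric.closedBall (0 : ℂ) (2 * s * (1 - κ)) := by
            rw [mem_closedBall_zero_iff]
            exact hv1
          rw [indicator_of_mem hm1]
          refine le_trans (ENNReal.ofReal_le_ofReal ?_) le_self_add
          rw [hc1]
          have := G10_inner s s' κ ‖v‖ hs hss hκ hκ1 (norm_nonneg _) hv1
          gcongr
        · have hm2 : v ∈ Metric.closedBall (0 : ℂ) (2 * s) \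
              Metric.closedBall 0 (2 * s * (1 - κ)) := by
            constructor
            · rw [mem_closedBall_zero_iff]
              exact hv2
            · rw [mem_closedBall_zero_iff]
              exact hv1
          rw [indicator_of_mem hm2]
          refine le_trans (ENNReal.ofReal_le_ofReal ?_) le_add_self
          rw [hc2]
          have hn4 : ‖v‖ ^ 2 / 4 ≤ s ^ 2 := by nlinarith [norm_nonneg v]
          have := G10_outer s s' ‖v‖ hss2 hn4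
          gcongr
    · have hemp : {x : ℂ | (x, x + v) ∈ Bad s s' K} = ∅ := by
        rw [eq_empty_iff_forall_notMem]
        rintro x ⟨hd', -⟩
        apply hv2
        have : dist x (x + v) = ‖v‖ := by simp [dist_eq_norm]
        rw [← this]
        exact hd'
      rw [hemp, measure_empty]
      exact zero_le
  refine (lintegral_mono hbd).trans ?_
  have hM1 : MeasurableSet (Metric.closedBall (0 : ℂ) (2 * s * (1 - κ))) :=
    Metric.isClosed_closedBall.measurableSet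
  have hM2 : MeasurableSet (Metric.closedBall (0 : ℂ) (2 * s) \
      Metric.closedBall 0 (2 * s * (1 - κ))) := Metric.isClosed_closedBall.measurableSet.diff hM1
  rw [lintegral_add_left (measurable_const.indicator hM1), lintegral_indicator_const hM1,
    lintegral_indicator_const hM2]
  have hr : 0 ≤ 2 * s * (1 - κ) := by
    have : 0 ≤ 1 - κ := by linarith
    positivity
  have hV1 : volume (Metric.closedBall (0 : ℂ) (2 * s * (1 - κ))) ≤
      ENNReal.ofReal (4 * Real.pi * s ^ 2) := by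
    rw [G10_ball _ hr]
    apply ENNReal.ofReal_le_ofReal
    have h5 : (2 * s * (1 - κ)) ^ 2 ≤ (2 * s) ^ 2 := by
      apply pow_le_pow_left₀ hr
      nlinarith
    nlinarith
  refine (add_le_add (mul_le_mul_right hV1 _) (mul_le_mul_right
    (G10_ring s κ hs hκ hκ1) _)).trans ?_
  rw [← ENNReal.ofReal_mul hc10, ← ENNReal.ofReal_mul hc20, ← ENNReal.ofReal_add (by positivity)
    (by positivity)]
  apply ENNReal.ofReal_le_ofReal
  rw [hc1, hc2]
  obtain ⟨E, hE'⟩ : ∃ E, E = (s' ^ 2 - s ^ 2) / (s * √κ) := ⟨_, rfl⟩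
  obtain ⟨F, hF'⟩ : ∃ F, F = √(s' ^ 2 - s ^ 2) := ⟨_, rfl⟩
  rw [← hE'] at hE ⊢
  rw [← hF'] at hF ⊢
  have e1 : 2 * E * Metric.diam K * (4 * Real.pi * s ^ 2) +
      2 * F * Metric.diam K * (8 * Real.pi * κ * s ^ 2) =
      8 * Real.pi * Metric.diam K * s ^ 2 * E + 16 * Real.pi * Metric.diam K * s ^ 2 * (κ * F) := by
    ring
  have e2 : 16 * Real.pi * (Metric.diam K + 1) * s ^ 2 * (E + κ * F) =
      8 * Real.pi * Metric.diam K * s ^ 2 * E + 16 * Real.pi * Metric.diam K * s ^ 2 * (κ * F) +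
      (8 * Real.pi * Metric.diam K * s ^ 2 * E + 16 * Real.pi * s ^ 2 * E +
        16 * Real.pi * s ^ 2 * (κ * F)) := by ring
  rw [e1, e2]
  have : 0 ≤ 8 * Real.pi * Metric.diam K * s ^ 2 * E + 16 * Real.pi * s ^ 2 * E +
        16 * Real.pi * s ^ 2 * (κ * F) := by positivity
  linarith

end MP412
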