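import Pool.Agent.Lib.MP_412417_pr.Defs

/-!
Row 412-G8: the area of a neighbourhood of the boundary of a convex set.

Let `ball p ρ ⊆ K`, without loss `p = 0`. `K + ball 0 s ⊆ (1 + s/ρ) K`, and `(1 - s/ρ) K + ball 0 s ⊆ K` for `s ≤ ρ`, so a point of
`(1 - s/ρ) K` (or of `(1-2s/ρ) K`) is at distance at least `s` from the frontier. Hence
`thickening s (frontier K) ⊆ (1 + s/ρ) K \ (1 - s/ρ) K` up to constants, of area at most `C s`.
-/

set_option autoImplicit false

open MeasureTheory Set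
open scoped ENNReal Pointwise

namespace MP412

private theorem G8_outer {K : Set ℂ} (hKc : Convex ℝ K) {p : ℂ} {ρ s : ℝ} (hρ : 0 < ρ) (hs : 0 < s)
    (hb : Metric.ball p ρ ⊆ K) :
    Metric.thickening s K ⊆ AffineMap.homothety p (1 + s / ρ) '' K := by
  intro y hy
  obtain ⟨x, hx, hyx⟩ := Metric.mem_thickening_iff.1 hy
  have hσ : 0 < s / ρ := by positivity
  have h1 : p + ((ρ / s : ℝ) : ℂ) * (y - x) ∈ K := by
    apply hb
    rw [Metric.mem_ball, dist_eq_norm, add_sub_cancel_left, norm_mul, Complex.norm_real,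
      Real.norm_eq_abs, abs_of_pos (by positivity)]
    rw [dist_eq_norm] at hyx
    calc ρ / s * ‖y - x‖ < ρ / s * s := by gcongr
      _ = ρ := by field_simp
  have h2 := hKc hx h1 (a := 1 / (1 + s / ρ)) (b := (s / ρ) / (1 + s / ρ)) (by positivity)
    (by positivity) (by field_simp)
  refine ⟨_, h2, ?_⟩
  rw [AffineMap.homothety_apply]
  simp only [vsub_eq_sub, vadd_eq_add, Complex.real_smul]
  push_cast
  have e1 : (1 + (s : ℂ) / ρ) ≠ 0 := by
    exact_mod_cast (by positivity : (1 + s / ρ) ≠ 0)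
  have e2 : (s : ℂ) ≠ 0 := by exact_mod_cast hs.ne'
  have e3 : (ρ : ℂ) ≠ 0 := by exact_mod_cast hρ.ne'
  have e4 : ((ρ : ℂ) + s) ≠ 0 := by exact_mod_cast (by positivity : (ρ + s) ≠ 0)
  field_simp
  ring

private theorem G8_inner {K : Set ℂ} (hKc : Convex ℝ K) {p : ℂ} {ρ s : ℝ} (hρ : 0 < ρ) (hs : 0 < s)
    (hsρ : s < ρ) (hb : Metric.ball p ρ ⊆ K) {y : ℂ}
    (hy : y ∈ AffineMap.homothety p (1 - s / ρ) '' K) : Metric.ball y s ⊆ K := by
  obtain ⟨x, hx, rfl⟩ := hy
  intro z hz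
  have hσ : 0 < s / ρ := by positivity
  have hσ1 : s / ρ < 1 := (div_lt_one hρ).2 hsρ
  rw [AffineMap.homothety_apply] at hz
  simp only [vsub_eq_sub, vadd_eq_add, Complex.real_smul] at hz
  set y := ((1 - s / ρ : ℝ) : ℂ) * (x - p) + p with hy
  have h1 : p + ((ρ / s : ℝ) : ℂ) * (z - y) ∈ K := by
    apply hb
    rw [Metric.mem_ball, dist_eq_norm, add_sub_cancel_left, norm_mul, Complex.norm_real,
      Real.norm_eq_abs, abs_of_pos (by positivity)]
    rw [Metric.mem_ball, dist_eq_norm] at hz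
    calc ρ / s * ‖z - y‖ < ρ / s * s := by gcongr
      _ = ρ := by field_simp
  have h2 := hKc hx h1 (a := 1 - s / ρ) (b := s / ρ) (by linarith) hσ.le (by ring)
  have h3 : (1 - s / ρ) • x + (s / ρ) • (p + ((ρ / s : ℝ) : ℂ) * (z - y)) = z := by
    simp only [Complex.real_smul]
    rw [hy]
    push_cast
    have e2 : (s : ℂ) ≠ 0 := by exact_mod_cast hs.ne'
    have e3 : (ρ : ℂ) ≠ 0 := by exact_mod_cast hρ.ne'
    field_simp
    ring
  rwa [h3] at h2

theorem bdry_area (K : Set ℂ) (hK : IsCompact K) (hKc : Convex ℝ K) (hKi : (interior K).Nonempty) :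
    ∃ C : ℝ, 0 < C ∧ ∀ s : ℝ, 0 < s → s ≤ 1 →
      volume (Metric.thickening s (frontier K)) ≤ ENNReal.ofReal (C * s) := by
  obtain ⟨p, hp⟩ := hKi
  obtain ⟨ρ, hρ, hb⟩ := Metric.isOpen_iff.1 isOpen_interior p hp
  have hb : Metric.ball p ρ ⊆ K := hb.trans interior_subset
  have hfin : volume K ≠ ⊤ := hK.measure_lt_top.ne
  set v := (volume K).toReal with hv
  have hv0 : 0 ≤ v := ENNReal.toReal_nonneg
  have hvK : volume K = ENNReal.ofReal v := (ENNReal.ofReal_toReal hfin).symm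
  have hvol : ∀ c : ℝ, volume (AffineMap.homothety p c '' K) = ENNReal.ofReal (c ^ 2 * v) := by
    intro c
    rw [Measure.addHaar_image_homothety, Complex.finrank_real_complex, abs_of_nonneg (sq_nonneg c),
      hvK, ← ENNReal.ofReal_mul (sq_nonneg c)]
  have hfr : ∀ s : ℝ, Metric.thickening s (frontier K) ⊆ Metric.thickening s K := fun s =>
    Metric.thickening_subset_of_subset s hK.isClosed.frontier_subset
  refine ⟨4 / ρ * v + (1 + 1 / ρ) ^ 2 / ρ * v + 1, by positivity, fun s hs hs1 => ?_⟩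
  rcases lt_or_ge s ρ with hsρ | hsρ
  · have hsub : Metric.thickening s (frontier K) ⊆
        AffineMap.homothety p (1 + s / ρ) '' K \ AffineMap.homothety p (1 - s / ρ) '' K := by
      intro y hy
      refine ⟨G8_outer hKc hρ hs hb (hfr s hy), fun hy2 => ?_⟩
      have h1 := G8_inner hKc hρ hs hsρ hb hy2
      obtain ⟨w, hw, hyw⟩ := Metric.mem_thickening_iff.1 hy
      have h2 : w ∈ interior K := by
        rw [mem_interior]
        exact ⟨_, h1, Metric.isOpen_ball, by rw [Metric.mem_ball, dist_comm]; exact hyw⟩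
      exact hw.2 h2
    have hsub2 : AffineMap.homothety p (1 - s / ρ) '' K ⊆ AffineMap.homothety p (1 + s / ρ) '' K := by
      intro y hy
      have h1 := G8_inner hKc hρ hs hsρ hb hy (Metric.mem_ball_self hs)
      exact G8_outer hKc hρ hs hb (Metric.self_subset_thickening hs K h1)
    have hcomp : IsCompact (AffineMap.homothety p (1 - s / ρ) '' K) :=
      hK.image (AffineMap.homothety_continuous p _)
    refine (measure_mono hsub).trans ?_
    rw [measure_diff hsub2 hcomp.measurableSet.nullMeasurableSet hcomp.measure_lt_top.ne, hvol, hvol,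
      ← ENNReal.ofReal_sub _ (by positivity)]
    apply ENNReal.ofReal_le_ofReal
    have e : (1 + s / ρ) ^ 2 * v - (1 - s / ρ) ^ 2 * v = 4 / ρ * v * s := by
      field_simp
      ring
    rw [e]
    have h1 : 0 ≤ (1 + 1 / ρ) ^ 2 / ρ * v * s := by positivity
    nlinarith
  · refine (measure_mono ((hfr s).trans (G8_outer hKc hρ hs hb))).trans ?_
    rw [hvol]
    apply ENNReal.ofReal_le_ofReal
    have h1 : (1 + s / ρ) ^ 2 ≤ (1 + 1 / ρ) ^ 2 := by
      have : s / ρ ≤ 1 / ρ := by gcongr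
      have h0 : 0 < s / ρ := by positivity
      gcongr
    have h2 : 1 ≤ s / ρ := (one_le_div hρ).2 hsρ
    calc (1 + s / ρ) ^ 2 * v ≤ (1 + 1 / ρ) ^ 2 * v := by gcongr
      _ ≤ (1 + 1 / ρ) ^ 2 * v * (s / ρ) := le_mul_of_one_le_right (by positivity) h2
      _ = (1 + 1 / ρ) ^ 2 / ρ * v * s := by field_simp
      _ ≤ (4 / ρ * v + (1 + 1 / ρ) ^ 2 / ρ * v + 1) * s := by
        have h3 : 0 ≤ 4 / ρ * v * s := by positivity
        nlinarith

end MP412
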