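import Pool.Agent.Lib.MP_412417_pr.Defs

/-!
Row 412-G9: away from bad points and bad pairs the radius of the common points can be reduced.

For a link `x, y` of the chain (`dist x y ≤ 2 s`, a common point `q ∈ K` at distance at most `s'`): if `x ∉ K` then `infDist x K = infDist x (frontier K) ≤ s'`,
so it is at most `s` by `hb`, and the infimum is attained; same for `y`; then `(x, y) ∉ Bad s s' K` gives a common point at
distance at most `s`. At the ends: `infDist x A ≤ s'`, so `infDist x A ≤ s`, attained. (A chain of length `0` is possible.)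
-/

set_option autoImplicit false

open MeasureTheory Set
open scoped ENNReal Pointwise

namespace MP412

private theorem G9_attain {s s' : ℝ} {x : ℂ} {F : Set ℂ} (hF : IsCompact F)
    (hb : ¬ (s < Metric.infDist x F ∧ Metric.infDist x F ≤ s')) (h : ∃ q ∈ F, dist x q ≤ s') :
    ∃ q ∈ F, dist x q ≤ s := by
  obtain ⟨q, hq, hd⟩ := h
  obtain ⟨y, hy, he⟩ := hF.exists_infDist_eq_dist ⟨q, hq⟩ x
  have h1 : Metric.infDist x F ≤ s' := (Metric.infDist_le_dist_of_mem hq).trans hd
  refine ⟨y, hy, ?_⟩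
  rw [← he]
  by_contra hcon
  exact hb ⟨not_le.1 hcon, h1⟩

private theorem G9_near {s s' : ℝ} (hs : 0 < s) {x : ℂ} {K : Set ℂ} (hK : IsCompact K)
    (hb : ¬ (s < Metric.infDist x (frontier K) ∧ Metric.infDist x (frontier K) ≤ s'))
    (h : ∃ q ∈ K, dist x q ≤ s') : ∃ q ∈ K, dist x q ≤ s := by
  by_cases hx : x ∈ K
  · exact ⟨x, hx, by rw [dist_self]; exact hs.le⟩
  obtain ⟨q, hq, hd⟩ := h
  have hne : (segment ℝ x q ∩ frontier K).Nonempty := by
    have hpre : IsPreconnected (segment ℝ x q) := (convex_segment x q).isPreconnected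
    by_contra hcon
    rw [Set.not_nonempty_iff_eq_empty] at hcon
    have h1 : segment ℝ x q ⊆ interior K ∪ Kᶜ := by
      intro z hz
      by_cases hzK : z ∈ K
      · left
        by_contra hzi
        have : z ∈ frontier K := ⟨subset_closure hzK, hzi⟩
        have h2 : z ∈ segment ℝ x q ∩ frontier K := ⟨hz, this⟩
        rw [hcon] at h2
        exact h2
      · exact Or.inr hzK
    have hqi : q ∈ interior K := by
      rcases h1 (right_mem_segment ℝ x q) with h2 | h2
      · exact h2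
      · exact absurd hq h2
    obtain ⟨z, _, hz1, hz2⟩ := hpre (interior K) Kᶜ isOpen_interior hK.isClosed.isOpen_compl h1
      ⟨q, right_mem_segment ℝ x q, hqi⟩ ⟨x, left_mem_segment ℝ x q, hx⟩
    exact hz2 (interior_subset hz1)
  obtain ⟨z, hz, hzf⟩ := hne
  have hdz : dist x z ≤ s' := by
    refine le_trans ?_ hd
    rw [segment_eq_image_lineMap] at hz
    obtain ⟨t, ht, rfl⟩ := hz
    rw [dist_left_lineMap, Real.norm_eq_abs, abs_of_nonneg ht.1]
    have := dist_nonneg (x := x) (y := q)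
    nlinarith [ht.2]
  have hfc : IsCompact (frontier K) := hK.of_isClosed_subset isClosed_frontier
    hK.isClosed.frontier_subset
  obtain ⟨w, hw, hdw⟩ := G9_attain hfc hb ⟨z, hzf, hdz⟩
  exact ⟨w, hK.isClosed.frontier_subset hw, hdw⟩

theorem chain_shrink (s s' : ℝ) (hs : 0 < s) (hss : s ≤ s') (K A B X : Set ℂ) (hK : IsCompact K)
    (hA : IsCompact A) (hB : IsCompact B) (h : Chain (2 * s) s' K A B X)
    (hb : ∀ x ∈ X, ∀ F : Set ℂ, F = A ∨ F = B ∨ F = frontier K →
      ¬ (s < Metric.infDist x F ∧ Metric.infDist x F ≤ s'))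
    (hp : ∀ x ∈ X, ∀ y ∈ X, (x, y) ∉ Bad s s' K) : Chain (2 * s) s K A B X := by
  obtain ⟨x, hx, y, hy, h1, h2, h3⟩ := h
  refine ⟨x, hx, y, hy, G9_attain hA (hb x hx A (Or.inl rfl)) h1,
    G9_attain hB (hb y hy B (Or.inr (Or.inl rfl))) h2, ?_⟩
  have hstep : ∀ a b : ℂ, (a ∈ X ∧ b ∈ X ∧ Link (2 * s) s' K a b) →
      (a ∈ X ∧ b ∈ X ∧ Link (2 * s) s K a b) := by
    rintro a b ⟨ha, hb', hl1, q, hq, hq1, hq2⟩
    refine ⟨ha, hb', hl1, ?_⟩
    by_contra hcon
    refine hp a ha b hb' ⟨hl1, ?_, ?_, ⟨q, hq, hq1, hq2⟩, hcon⟩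
    · exact G9_near hs hK (hb a ha _ (Or.inr (Or.inr rfl))) ⟨q, hq, hq1⟩
    · exact G9_near hs hK (hb b hb' _ (Or.inr (Or.inr rfl))) ⟨q, hq, hq2⟩
  clear h2 hy
  induction h3 with
  | refl => exact Relation.ReflTransGen.refl
  | tail _ hl ih => exact Relation.ReflTransGen.tail ih (hstep _ _ hl)

end MP412
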