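import Pool.Agent.Lib.MP_412417_pr.P3
import Pool.Agent.Lib.MP_412417_pr.G1
import Pool.Agent.Lib.MP_412417_pr.G2
import Pool.Agent.Lib.MP_412417_pr.G6
import Pool.Agent.Lib.MP_412417_pr.G7
import Pool.Agent.Lib.MP_412417_pr.G8
import Pool.Agent.Lib.MP_412417_pr.G9
import Pool.Agent.Lib.MP_412417_pr.G10
import Pool.Agent.Lib.MP_412417_pr.L0

/-!
Row 412-G11: a change of the radius by the relative amount `δ^2` does not matter.

`s = r δ (1 - C₁ δ^2)`, `s' = r δ (1 + C₁ δ^2)`. `Ev s' = {Chain (2 s') s'}` (`crosses_iff`); `bulk` with the radius `s'`, `v = 2 s`, `w = 2 s'`; then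
`chain_shrink`: `{Chain (2 s) s'}` is contained in the union of `{Chain (2 s) s} = Ev s`, of the events that some point satisfies
`s < infDist x F ≤ s'` for `F = A, B, frontier K` (`point_le`, `lam_le`, `shell`, `bdry_area`: at most `δ^-2 C δ^2 C δ`; `thickening s A ⊆ thickening s (frontier K)`),
and of the event that there is a bad pair (`pair_le` with `T = univ`, `exists_isIns`, `lam_prod_le`, `bad_measure` with `κ = δ`: at most
`δ^-4 C δ^(9/2)`; a pair `(x, x)` is never bad).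
-/

set_option autoImplicit false

open MeasureTheory Set
open scoped ENNReal Pointwise

namespace MP412

private theorem G11_chain_eq {s : ℝ} (hs : 0 ≤ s) {K A B : Set ℂ} (hK : IsCompact K)
    (hKc : Convex ℝ K) (hAK : A ⊆ K) (hBK : B ⊆ K) :
    Ev s K A B = {c | Chain (2 * s) s K A B (pts c)} := by
  ext c
  exact crosses_iff s hs K A B (pts c) hK hKc hAK hBK (finite_pts c)

private theorem G11_point (N K : Set ℂ) (hNb : Bornology.IsBounded N) (hKb : Bornology.IsBounded K)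
    (δ s s' Cb : ℝ)
    (hs : 0 < s) (hss : s ≤ s')
    (hb : volume (Metric.thickening s (frontier K)) ≤ ENNReal.ofReal (Cb * s)) (F : Set ℂ)
    (hF : F ⊆ frontier K) (hfK : frontier K ⊆ K) :
    poisson (lam δ N) {c | ∃ x ∈ pts c, s < Metric.infDist x F ∧ Metric.infDist x F ≤ s'} ≤
      ENNReal.ofReal ((δ⁻¹) ^ 2 * (((s' / s) ^ 2 - 1) * (Cb * s))) := by
  have hfN : IsFiniteMeasure (lam δ N) := isFiniteMeasure_lam δ hNb
  have hm : MeasurableSet {x : ℂ | s < Metric.infDist x F ∧ Metric.infDist x F ≤ s'} :=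
    ((isOpen_lt continuous_const (Metric.continuous_infDist_pt F)).measurableSet).inter
      ((isClosed_le (Metric.continuous_infDist_pt F) continuous_const).measurableSet)
  have h1 := point_le (lam δ N) {x : ℂ | s < Metric.infDist x F ∧ Metric.infDist x F ≤ s'} hm
  have h2 := lam_le δ N {x : ℂ | s < Metric.infDist x F ∧ Metric.infDist x F ≤ s'}
  have h3 : volume {x : ℂ | s < Metric.infDist x F ∧ Metric.infDist x F ≤ s'} ≤
      ENNReal.ofReal ((s' / s) ^ 2 - 1) * ENNReal.ofReal (Cb * s) := by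
    have h4 := shell F ((hKb.subset hfK).subset hF) s s' hs hss
    have h5 : {x : ℂ | s < Metric.infDist x F ∧ Metric.infDist x F ≤ s'} ⊆
        {x : ℂ | s ≤ Metric.infDist x F ∧ Metric.infDist x F ≤ s'} := fun x hx => ⟨hx.1.le, hx.2⟩
    refine le_trans (measure_mono h5) (h4.trans ?_)
    gcongr
    exact (measure_mono (Metric.thickening_subset_of_subset s hF)).trans hb
  have h0 : 0 ≤ (s' / s) ^ 2 - 1 := by
    have : 1 ≤ s' / s := by rw [le_div_iff₀ hs]; linarith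
    nlinarith
  rw [ENNReal.ofReal_mul (sq_nonneg _), ENNReal.ofReal_mul h0]
  refine h1.trans (h2.trans ?_)
  gcongr

private theorem G11_bad (N K : Set ℂ) (hNb : Bornology.IsBounded N) (hK : IsCompact K)
    (δ s s' b : ℝ)
    (hb : ((volume : Measure ℂ).prod volume) (Bad s s' K) ≤ ENNReal.ofReal b) :
    poisson (lam δ N) {c | ∃ x ∈ pts c, ∃ y ∈ pts c, (x, y) ∈ Bad s s' K} ≤
      ENNReal.ofReal ((δ⁻¹) ^ 4 * b) := by
  have hfN : IsFiniteMeasure (lam δ N) := isFiniteMeasure_lam δ hNb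
  have h1 := pair_le (lam δ N) (Bad s s' K) (measurableSet_Bad K hK s s') univ
  rw [measure_univ, mul_one] at h1
  refine le_trans (measure_mono ?_) (h1.trans ((lam_prod_le δ N _).trans ?_))
  · rintro c ⟨x, ⟨i, rfl⟩, y, ⟨j, rfl⟩, hxy⟩
    have hij : i ≠ j := by
      rintro rfl
      obtain ⟨-, ⟨q, hq, hq1⟩, -, -, hn⟩ := hxy
      exact hn ⟨q, hq, hq1, hq1⟩
    obtain ⟨c', c'', hc1, hc2⟩ := exists_isIns hij
    exact ⟨_, _, c', c'', hc1, hc2, hxy, mem_univ _⟩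
  · rw [ENNReal.ofReal_mul (by positivity)]
    gcongr

theorem radius_stable (r : ℝ) (hr : 0 < r) (K N A B : Set ℂ) (hK : IsCompact K)
    (hKc : Convex ℝ K) (hKi : (interior K).Nonempty) (hA : IsClosed A) (hAK : A ⊆ frontier K)
    (hB : IsClosed B) (hBK : B ⊆ frontier K) (hN : MeasurableSet N)
    (hNb : Bornology.IsBounded N) (ρ : ℝ) (hρ : 0 < ρ) (hKN : Metric.cthickening ρ K ⊆ N)
    (C₁ : ℝ) (hC₁ : 0 ≤ C₁) :
    ∃ C δ₀ : ℝ, 0 < δ₀ ∧ ∀ δ, 0 < δ → δ ≤ δ₀ →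
      (poisson (lam δ N) (Ev (r * δ * (1 + C₁ * δ ^ 2)) K A B)).toReal ≤
        (poisson (lam δ N) (Ev (r * δ * (1 - C₁ * δ ^ 2)) K A B)).toReal + C * √δ := by
  have hfK : frontier K ⊆ K := hK.isClosed.frontier_subset
  have hAK' : A ⊆ K := hAK.trans hfK
  have hBK' : B ⊆ K := hBK.trans hfK
  have hAc : IsCompact A := hK.of_isClosed_subset hA hAK'
  have hBc : IsCompact B := hK.of_isClosed_subset hB hBK'
  obtain ⟨Cu, δ₁, hCu, hδ₁, hbulk⟩ := bulk r hr K N A B hK hKc hAc hAK' hBc hBK' hN hNb ρ hρ hKN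
  obtain ⟨Cb, hCb, hbd⟩ := bdry_area K hK hKc hKi
  obtain ⟨Cp, hCp, hbad⟩ := bad_measure K hK hKc
  set D : ℝ := min δ₁ (min (1 / (7 * (C₁ + 1))) (1 / (r + 1))) with hD
  have hDpos : 0 < D := lt_min hδ₁ (lt_min (by positivity) (by positivity))
  refine ⟨Cu * (4 * r * C₁) + 3 * (8 * C₁ * Cb * r) + Cp * r ^ 3 * (8 * C₁ + 2 * √C₁), D, hDpos,
    fun δ hδ hδD => ?_⟩
  have b1 : δ ≤ δ₁ := hδD.trans (min_le_left _ _)
  have b2 : δ ≤ 1 / (7 * (C₁ + 1)) := hδD.trans (le_trans (min_le_right _ _) (min_le_left _ _))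
  have b3 : δ ≤ 1 / (r + 1) := hδD.trans (le_trans (min_le_right _ _) (min_le_right _ _))
  rw [le_div_iff₀ (by positivity)] at b2 b3
  have c0 : δ ≤ 1 := by nlinarith
  have c1 : C₁ * δ ≤ 1 / 7 := by nlinarith
  have c2 : r * δ ≤ 1 := by nlinarith
  set η : ℝ := C₁ * δ ^ 2 with hη
  have hη0 : 0 ≤ η := by positivity
  have hη1 : η ≤ 1 / 7 := by
    rw [hη]; nlinarith [mul_nonneg hC₁ hδ.le]
  have hrδ : 0 < r * δ := mul_pos hr hδ
  set s : ℝ := r * δ * (1 - η) with hs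
  set s' : ℝ := r * δ * (1 + η) with hs'
  have hs0 : 0 < s := mul_pos hrδ (by linarith)
  have hss : s ≤ s' := by rw [hs, hs']; nlinarith
  have hs'0 : 0 < s' := lt_of_lt_of_le hs0 hss
  have hs1 : s ≤ r * δ := by rw [hs]; nlinarith
  have hs2 : r * δ / 2 ≤ s := by rw [hs]; nlinarith
  have hfN : IsFiniteMeasure (lam δ N) := isFiniteMeasure_lam δ hNb
  have hsq : √δ * √δ = δ := Real.mul_self_sqrt hδ.le
  have hsq0 : 0 < √δ := Real.sqrt_pos.mpr hδ
  have hsq1 : √δ ≤ 1 := Real.sqrt_le_one.mpr c0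
  have hδsq : δ ≤ √δ := by nlinarith
  rw [G11_chain_eq hs'0.le hK hKc hAK' hBK', G11_chain_eq hs0.le hK hKc hAK' hBK']
  -- the bulk
  have e1 := hbulk δ hδ b1 s' (2 * s) (2 * s') (by linarith) (by nlinarith)
    (by rw [hs, hs']; nlinarith) (by linarith) le_rfl
  have e1' : Cu * (2 * s' - 2 * s) / δ ^ 2 = Cu * (4 * r * C₁) * δ := by
    rw [hs, hs', hη]
    field_simp
    ring
  rw [e1'] at e1
  -- the boundary
  have e2 : ∀ F : Set ℂ, F ⊆ frontier K → (poisson (lam δ N)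
      {c | ∃ x ∈ pts c, s < Metric.infDist x F ∧ Metric.infDist x F ≤ s'}).toReal ≤
      8 * C₁ * Cb * r * δ := by
    intro F hF
    have h1 := G11_point N K hNb hK.isBounded δ s s' Cb hs0 hss (hbd s hs0 (hs1.trans c2)) F hF
      hfK
    have h2 := ENNReal.toReal_mono ENNReal.ofReal_ne_top h1
    have h3 : (s' / s) ^ 2 - 1 ≤ 8 * η := by
      rw [hs, hs', mul_div_mul_left _ _ hrδ.ne', div_pow, sub_le_iff_le_add,
        div_le_iff₀ (by nlinarith)]
      nlinarith [mul_nonneg hη0 hη0, mul_nonneg (mul_nonneg hη0 hη0) hη0]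
    have h4 : 1 ≤ s' / s := by rw [le_div_iff₀ hs0]; linarith
    have h5 : 0 ≤ (s' / s) ^ 2 - 1 := by nlinarith
    rw [ENNReal.toReal_ofReal (by positivity)] at h2
    refine h2.trans ?_
    calc (δ⁻¹) ^ 2 * (((s' / s) ^ 2 - 1) * (Cb * s))
        ≤ (δ⁻¹) ^ 2 * ((8 * η) * (Cb * (r * δ))) := by gcongr
      _ = 8 * C₁ * Cb * r * δ := by rw [hη]; field_simp
  -- the bad pairs
  have e3 : (poisson (lam δ N) {c | ∃ x ∈ pts c, ∃ y ∈ pts c, (x, y) ∈ Bad s s' K}).toReal ≤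
      Cp * r ^ 3 * (8 * C₁ + 2 * √C₁) * √δ := by
    have h1 := G11_bad N K hNb hK δ s s' _ (hbad s s' δ hs0 hss hδ c0)
    have h2 := ENNReal.toReal_mono ENNReal.ofReal_ne_top h1
    have h3 : s' ^ 2 - s ^ 2 = 4 * r ^ 2 * C₁ * δ ^ 4 := by rw [hs, hs', hη]; ring
    have h4 : √(s' ^ 2 - s ^ 2) = 2 * r * √C₁ * δ ^ 2 := by
      rw [h3, show 4 * r ^ 2 * C₁ * δ ^ 4 = (2 * r * δ ^ 2) ^ 2 * C₁ by ring,
        Real.sqrt_mul (sq_nonneg _), Real.sqrt_sq (by positivity)]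
      ring
    have h5 : (s' ^ 2 - s ^ 2) / (s * √δ) ≤ 8 * r * C₁ * δ ^ 2 * √δ := by
      rw [h3, div_le_iff₀ (by positivity)]
      have h6 : 8 * r * C₁ * δ ^ 2 * √δ * (s * √δ) = 8 * r * C₁ * δ ^ 3 * s := by
        calc 8 * r * C₁ * δ ^ 2 * √δ * (s * √δ) = 8 * r * C₁ * δ ^ 2 * (√δ * √δ) * s := by ring
          _ = 8 * r * C₁ * δ ^ 3 * s := by rw [hsq]; ring
      rw [h6]
      have h7 : 8 * r * C₁ * δ ^ 3 * (r * δ / 2) ≤ 8 * r * C₁ * δ ^ 3 * s := by gcongr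
      refine le_trans (le_of_eq ?_) h7
      ring
    have h8 : 0 ≤ s' ^ 2 - s ^ 2 := by rw [h3]; positivity
    rw [ENNReal.toReal_ofReal (by positivity)] at h2
    refine h2.trans ?_
    rw [h4]
    calc (δ⁻¹) ^ 4 * (Cp * s ^ 2 * ((s' ^ 2 - s ^ 2) / (s * √δ) + δ * (2 * r * √C₁ * δ ^ 2)))
        ≤ (δ⁻¹) ^ 4 * (Cp * (r * δ) ^ 2 * (8 * r * C₁ * δ ^ 2 * √δ +
            δ * (2 * r * √C₁ * δ ^ 2))) := by gcongr
      _ = Cp * r ^ 3 * (8 * C₁ * √δ + 2 * √C₁ * δ) := by field_simp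
      _ ≤ Cp * r ^ 3 * (8 * C₁ * √δ + 2 * √C₁ * √δ) := by gcongr
      _ = Cp * r ^ 3 * (8 * C₁ + 2 * √C₁) * √δ := by ring
  -- the inclusion
  have e4 : {c : Conf | Chain (2 * s) s' K A B (pts c)} ⊆
      {c | Chain (2 * s) s K A B (pts c)} ∪
      ({c | ∃ x ∈ pts c, s < Metric.infDist x A ∧ Metric.infDist x A ≤ s'} ∪
      ({c | ∃ x ∈ pts c, s < Metric.infDist x B ∧ Metric.infDist x B ≤ s'} ∪
      ({c | ∃ x ∈ pts c, s < Metric.infDist x (frontier K) ∧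
        Metric.infDist x (frontier K) ≤ s'} ∪
      {c | ∃ x ∈ pts c, ∃ y ∈ pts c, (x, y) ∈ Bad s s' K}))) := by
    intro c hc
    by_contra hcon
    simp only [mem_union, mem_setOf_eq, not_or] at hcon
    obtain ⟨n1, n2, n3, n4, n5⟩ := hcon
    refine n1 (chain_shrink s s' hs0 hss K A B (pts c) hK hAc hBc hc ?_ ?_)
    · rintro x hx F (rfl | rfl | rfl) hF
      · exact n2 ⟨x, hx, hF⟩
      · exact n3 ⟨x, hx, hF⟩
      · exact n4 ⟨x, hx, hF⟩
    · intro x hx y hy hb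
      exact n5 ⟨x, hx, y, hy, hb⟩
  have e5 : (poisson (lam δ N) {c | Chain (2 * s) s' K A B (pts c)}).toReal ≤
      (poisson (lam δ N) {c | Chain (2 * s) s K A B (pts c)}).toReal +
        (8 * C₁ * Cb * r * δ + (8 * C₁ * Cb * r * δ + (8 * C₁ * Cb * r * δ +
          Cp * r ^ 3 * (8 * C₁ + 2 * √C₁) * √δ))) := by
    have h1 := measureReal_mono (μ := poisson (lam δ N)) e4
    refine h1.trans ((measureReal_union_le _ _).trans (add_le_add le_rfl
      ((measureReal_union_le _ _).trans (add_le_add (e2 A hAK)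
      ((measureReal_union_le _ _).trans (add_le_add (e2 B hBK)
      ((measureReal_union_le _ _).trans (add_le_add (e2 _ subset_rfl) e3))))))))
  have e6 : Cu * (4 * r * C₁) * δ ≤ Cu * (4 * r * C₁) * √δ := by gcongr
  have e7 : 8 * C₁ * Cb * r * δ ≤ 8 * C₁ * Cb * r * √δ := by gcongr
  have e8 : (Cu * (4 * r * C₁) + 3 * (8 * C₁ * Cb * r) + Cp * r ^ 3 * (8 * C₁ + 2 * √C₁)) * √δ =
      Cu * (4 * r * C₁) * √δ + 3 * (8 * C₁ * Cb * r * √δ) +
        Cp * r ^ 3 * (8 * C₁ + 2 * √C₁) * √δ := by ring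
  rw [e8]
  linarith

end MP412
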