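import Pool.Agent.Lib.MP_412417_pr.C6
import Pool.Agent.Lib.MP_412417_pr.G11
import Pool.Agent.Lib.MP_412417_pr.F1

/-!
Row 412-F2: the main theorem.
-/

set_option autoImplicit false

open MeasureTheory Set
open scoped ENNReal Pointwise

namespace MP412

private theorem F2_sqrt_le {δ : ℝ} (h0 : 0 < δ) (h1 : δ ≤ 1) : δ ^ 2 ≤ √δ := by
  have h2 : δ ^ 2 ≤ δ := by nlinarith
  have h3 : δ ≤ √δ := by
    have h4 : √δ ≤ 1 := Real.sqrt_le_one.mpr h1
    have h5 : √δ * √δ = δ := Real.mul_self_sqrt h0.le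
    nlinarith [Real.sqrt_nonneg δ]
  linarith

theorem main (r : ℝ) (hr : 0 < r) (G : Set ℂ) (hG : IsOpen G) (φ ψ : ℂ → ℂ)
    (hφ : DifferentiableOn ℂ φ G) (hφ' : ∀ z ∈ G, deriv φ z ≠ 0) (hψ : ∀ z ∈ G, ψ (φ z) = z)
    (K N : Set ℂ) (hK : IsCompact K) (hKc : Convex ℝ K) (hKi : (interior K).Nonempty)
    (hN : IsCompact N) (hKN : K ⊆ interior N) (hNG : N ⊆ G)
    (A B : Set ℂ) (hA : IsClosed A) (hAK : A ⊆ frontier K) (hB : IsClosed B)
    (hBK : B ⊆ frontier K) :
    ∃ C : ℝ, ∀ n : ℝ, 1 ≤ n →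
      |Pdens (fun w => ‖deriv ψ w‖) (φ '' N) r n (φ '' K) (φ '' A) (φ '' B) - P r n K A B| ≤
        C / √n := by
  have hfK : frontier K ⊆ K := hK.isClosed.frontier_subset
  have hAK' : A ⊆ K := hAK.trans hfK
  have hBK' : B ⊆ K := hBK.trans hfK
  have hAc : IsCompact A := hK.of_isClosed_subset hA hAK'
  have hBc : IsCompact B := hK.of_isClosed_subset hB hBK'
  obtain ⟨ρ, hρ, hρN⟩ := hK.exists_cthickening_subset_open isOpen_interior hKN
  have hρN' : Metric.cthickening ρ K ⊆ N := hρN.trans interior_subset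
  obtain ⟨C₂, C₁, δ₂, hC₁, hδ₂, hst⟩ := stage1 r hr G hG φ ψ hφ hφ' hψ K N A B hK hKc hN hKN hNG
    hAc hAK' hBc hBK'
  obtain ⟨C₃, δ₃, hδ₃, hrs⟩ := radius_stable r hr K N A B hK hKc hKi hA hAK hB hBK
    hN.measurableSet hN.isBounded ρ hρ hρN' C₁ hC₁
  set D : ℝ := min (min δ₂ δ₃) (min 1 (ρ / r)) with hD
  have hDpos : 0 < D := by
    rw [hD]; exact lt_min (lt_min hδ₂ hδ₃) (lt_min one_pos (div_pos hρ hr))
  refine ⟨max (1 / √D) (|C₂| + |C₃|), fun n hn => ?_⟩
  have hn0 : 0 < n := lt_of_lt_of_le one_pos hn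
  set p : ℝ := Pdens (fun w => ‖deriv ψ w‖) (φ '' N) r n (φ '' K) (φ '' A) (φ '' B) with hp
  by_cases hnD : n⁻¹ ≤ D
  · -- large `n`
    set δ : ℝ := n⁻¹ with hδ
    have hδ0 : 0 < δ := inv_pos.mpr hn0
    have h1 : δ ≤ δ₂ := hnD.trans (le_trans (min_le_left _ _) (min_le_left _ _))
    have h2 : δ ≤ δ₃ := hnD.trans (le_trans (min_le_left _ _) (min_le_right _ _))
    have h3 : δ ≤ 1 := hnD.trans (le_trans (min_le_right _ _) (min_le_left _ _))
    have h4 : δ ≤ ρ / r := hnD.trans (le_trans (min_le_right _ _) (min_le_right _ _))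
    obtain ⟨ha, hb⟩ := hst δ hδ0 h1
    have hc := hrs δ hδ0 h2
    rw [hδ, inv_inv, ← hδ, ← hp] at ha hb
    have _ : IsFiniteMeasure (lam δ N) := isFiniteMeasure_lam δ hN.isBounded
    have hPe : P r n K A B = (poisson (lam δ N) (Ev (r * δ) K A B)).toReal := by
      have := P_eq r hr K N A B hK hKc hAc hAK' hBc hBK' hN.measurableSet hN.isBounded ρ hρ hρN'
        n hn0 (by
          have h5 : r * δ ≤ r * (ρ / r) := mul_le_mul_of_nonneg_left h4 hr.le
          rw [mul_div_cancel₀ _ hr.ne'] at h5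
          rw [div_eq_mul_inv, ← hδ]; exact h5)
      exact this
    have hmono : ∀ s s' : ℝ, s ≤ s' → (poisson (lam δ N) (Ev s K A B)).toReal ≤
        (poisson (lam δ N) (Ev s' K A B)).toReal := fun s s' h =>
      ENNReal.toReal_mono (measure_ne_top _ _) (measure_mono (Ev_mono h K A B))
    have hrδ : 0 < r * δ := mul_pos hr hδ0
    have hu : (poisson (lam δ N) (Ev (r * δ) K A B)).toReal ≤
        (poisson (lam δ N) (Ev (r * δ * (1 + C₁ * δ ^ 2)) K A B)).toReal :=
      hmono _ _ (by nlinarith [mul_nonneg hC₁ (sq_nonneg δ)])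
    have hl : (poisson (lam δ N) (Ev (r * δ * (1 - C₁ * δ ^ 2)) K A B)).toReal ≤
        (poisson (lam δ N) (Ev (r * δ) K A B)).toReal :=
      hmono _ _ (by nlinarith [mul_nonneg hC₁ (sq_nonneg δ)])
    have hsq : √δ = 1 / √n := by rw [hδ, Real.sqrt_inv, one_div]
    have hkey : |p - P r n K A B| ≤ (|C₂| + |C₃|) * √δ := by
      have h6 : C₂ * δ ^ 2 ≤ |C₂| * √δ :=
        mul_le_mul (le_abs_self _) (F2_sqrt_le hδ0 h3) (sq_nonneg δ) (abs_nonneg _)
      have h7 : C₃ * √δ ≤ |C₃| * √δ :=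
        mul_le_mul_of_nonneg_right (le_abs_self _) (Real.sqrt_nonneg _)
      rw [hPe, abs_le]
      constructor
      · nlinarith
      · nlinarith
    refine hkey.trans ?_
    rw [hsq, mul_one_div]
    exact div_le_div_of_nonneg_right (le_max_right _ _) (Real.sqrt_nonneg _)
  · -- small `n`
    rw [not_le] at hnD
    have hp01 : 0 ≤ p ∧ p ≤ 1 := by
      refine ⟨measureReal_nonneg, ?_⟩
      have hfin : IsFiniteMeasure ((volume.restrict (φ '' N)).withDensity
          fun x => ENNReal.ofReal ((n * ‖deriv ψ x‖) ^ 2)) := by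
        have h5 := change_var G hG φ ψ hφ hφ' hψ N hN hNG n hn0
        have h6 : IsFiniteMeasure (lam n⁻¹ N) := isFiniteMeasure_lam n⁻¹ hN.isBounded
        refine ⟨?_⟩
        have h7 : (((volume.restrict (φ '' N)).withDensity
            fun x => ENNReal.ofReal ((n * ‖deriv ψ x‖) ^ 2)).map
              ((φ '' N).indicator ψ)) univ < ⊤ := by
          rw [h5]; exact measure_lt_top _ _
        rwa [Measure.map_apply (measurable_inv G hG φ ψ hφ hφ' hψ N hN hNG) MeasurableSet.univ,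
          preimage_univ] at h7
      exact measureReal_le_one
    have hP01 : 0 ≤ P r n K A B ∧ P r n K A B ≤ 1 := by
      refine ⟨measureReal_nonneg, ?_⟩
      have hcp : Bornology.IsBounded (Metric.cthickening r (n • K)) :=
        (hK.smul n).isBounded.cthickening
      have hfin : IsFiniteMeasure (volume.restrict (Metric.cthickening r (n • K))) :=
        ⟨by rw [Measure.restrict_apply_univ]; exact hcp.measure_lt_top⟩
      exact measureReal_le_one
    have h1 : |p - P r n K A B| ≤ 1 := by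
      rw [abs_le]; constructor <;> linarith [hp01.1, hp01.2, hP01.1, hP01.2]
    refine h1.trans ?_
    have h2 : 1 ≤ (1 / √D) / √n := by
      rw [div_div, ← Real.sqrt_mul hDpos.le, le_div_iff₀ (Real.sqrt_pos.mpr (mul_pos hDpos hn0)),
        one_mul, Real.sqrt_le_one]
      have h3 : D * n ≤ n⁻¹ * n := mul_le_mul_of_nonneg_right hnD.le hn0.le
      rw [inv_mul_cancel₀ hn0.ne'] at h3
      exact h3
    exact h2.trans (div_le_div_of_nonneg_right (le_max_left _ _) (Real.sqrt_nonneg _))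

end MP412
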