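import Pool.Agent.Lib.MP_412417_pr.Defs

/-!
Row 412-G10a: the bad pairs with given difference `v`.

Let `e = v / ‖v‖`, `x + v / 2 = e (a + i b)`, `α = √(s^2 - ‖v‖^2/4)`, `β = √(s'^2 - ‖v‖^2/4)`. A point `e (a + i b')` of the bisector of
`x, x + v` is at distance `√(‖v‖^2/4 + (b - b')^2)` from both. For fixed `a` let `I = {b' | e (a + i b') ∈ K}`, a compact interval.
If `(x, x + v)` is bad: there are `p ∈ K` with `dist p x ≤ s < dist p (x+v)` and `p' ∈ K` with the converse, so the segment `[p, p']` meets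
the bisector and `I` is not empty; all `b' ∈ I` satisfy `|b' - b| > α` (otherwise a common point at distance at most `s`); if `q ∈ K`
is at distance at most `s'` from both, say `q` on the side of `x` (or on the bisector), the segment `[q, p']` meets the bisector in a
point at distance at most `s'` from `x + v` (convexity of the distance), so some `b' ∈ I` has `|b' - b| ≤ β`. Hence
`b ∈ [inf I - β, inf I - α) ∪ (sup I + α, sup I + β]`, of length at most `2 (β - α)`, and `a` is in the projection of `K`, of length at most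
`diam K`. Fubini in the coordinates `(a, b)` (rotation and translation preserve the area, `Complex.volume_preserving_equiv_real_prod`).
-/

set_option autoImplicit false

open MeasureTheory Set
open scoped ENNReal Pointwise

namespace MP412

private theorem G10a_proj {α : Type*} [TopologicalSpace α] (K : Set ℂ) (hK : IsCompact K)
    (F : Set (α × ℂ)) (hF : IsClosed F) : IsClosed {p : α | ∃ q ∈ K, (p, q) ∈ F} := by
  have : CompactSpace K := isCompact_iff_compactSpace.mp hK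
  have h1 : IsClosed ((fun z : α × K => (z.1, (z.2 : ℂ))) ⁻¹' F) := hF.preimage (by fun_prop)
  have h2 := isClosedMap_fst_of_compactSpace (X := α) (Y := K) _ h1
  convert h2 using 1
  ext p
  constructor
  · rintro ⟨q, hq, h⟩
    exact ⟨(p, ⟨q, hq⟩), h, rfl⟩
  · rintro ⟨⟨p', q⟩, h, rfl⟩
    exact ⟨q, q.2, h⟩

private theorem G10a_sq (x y t : ℝ) (h0 : 0 ≤ t) (h1 : t ≤ 1) :
    ((1 - t) * x + t * y) ^ 2 ≤ (1 - t) * x ^ 2 + t * y ^ 2 := by
  nlinarith [mul_nonneg (mul_nonneg h0 (sub_nonneg.2 h1)) (sq_nonneg (x - y))]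

private theorem G10a_conv (r x y x' y' t : ℝ) (h0 : 0 ≤ t) (h1 : t ≤ 1)
    (h : x ^ 2 + y ^ 2 ≤ r) (h' : x' ^ 2 + y' ^ 2 ≤ r) :
    ((1 - t) * x + t * x') ^ 2 + ((1 - t) * y + t * y') ^ 2 ≤ r := by
  have e1 := G10a_sq x x' t h0 h1
  have e2 := G10a_sq y y' t h0 h1
  have e3 := mul_le_mul_of_nonneg_left h (sub_nonneg.2 h1)
  have e4 := mul_le_mul_of_nonneg_left h' h0
  nlinarith

private theorem G10a_core (Q : ℝ → ℝ → Prop)
    (hQ : ∀ c d c' d' t : ℝ, Q c d → Q c' d' → 0 ≤ t → t ≤ 1 →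
      Q ((1 - t) * c + t * c') ((1 - t) * d + t * d'))
    (s s' h a b : ℝ) (hss : s ^ 2 ≤ s' ^ 2) (hh : 0 < h)
    (h1 : ∃ c d, Q c d ∧ (a - h - c) ^ 2 + (b - d) ^ 2 ≤ s ^ 2)
    (h2 : ∃ c d, Q c d ∧ (a + h - c) ^ 2 + (b - d) ^ 2 ≤ s ^ 2)
    (h3 : ∃ c d, Q c d ∧ (a - h - c) ^ 2 + (b - d) ^ 2 ≤ s' ^ 2 ∧
      (a + h - c) ^ 2 + (b - d) ^ 2 ≤ s' ^ 2)
    (h4 : ∀ c d, Q c d → (a - h - c) ^ 2 + (b - d) ^ 2 ≤ s ^ 2 →
      ¬ (a + h - c) ^ 2 + (b - d) ^ 2 ≤ s ^ 2) :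
    (∃ b₀, Q a b₀ ∧ h ^ 2 + (b - b₀) ^ 2 ≤ s' ^ 2) ∧
      ∀ b', Q a b' → s ^ 2 < h ^ 2 + (b - b') ^ 2 := by
  constructor
  · obtain ⟨c1, d1, k1, l1⟩ := h1
    obtain ⟨c2, d2, k2, l2⟩ := h2
    obtain ⟨c3, d3, k3, l3, l3'⟩ := h3
    have m1 : c1 < a := by
      have := h4 c1 d1 k1 l1
      by_contra hc
      push Not at hc this
      nlinarith [mul_nonneg hh.le (sub_nonneg.2 hc)]
    have m2 : a < c2 := by
      have : ¬ (a - h - c2) ^ 2 + (b - d2) ^ 2 ≤ s ^ 2 := fun hc => h4 c2 d2 k2 hc l2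
      by_contra hc
      push Not at hc this
      nlinarith [mul_nonneg hh.le (sub_nonneg.2 hc)]
    rcases le_total c3 a with hc | hc
    · have hpos : 0 < c2 - c3 := by linarith
      set t := (a - c3) / (c2 - c3) with ht
      have ht0 : 0 ≤ t := div_nonneg (by linarith) hpos.le
      have ht1 : t ≤ 1 := (div_le_one hpos).2 (by linarith)
      have hta : (1 - t) * c3 + t * c2 = a := by
        rw [ht]; field_simp; ring
      have hq := hQ c3 d3 c2 d2 t k3 k2 ht0 ht1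
      rw [hta] at hq
      refine ⟨_, hq, ?_⟩
      have := G10a_conv (s' ^ 2) _ _ _ _ t ht0 ht1 l3' (l2.trans hss)
      have e1 : (1 - t) * (a + h - c3) + t * (a + h - c2) = h := by linear_combination -hta
      have e2 : (1 - t) * (b - d3) + t * (b - d2) = b - ((1 - t) * d3 + t * d2) := by ring
      rwa [e1, e2] at this
    · have hpos : 0 < c3 - c1 := by linarith
      set t := (a - c1) / (c3 - c1) with ht
      have ht0 : 0 ≤ t := div_nonneg (by linarith) hpos.le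
      have ht1 : t ≤ 1 := (div_le_one hpos).2 (by linarith)
      have hta : (1 - t) * c1 + t * c3 = a := by
        rw [ht]; field_simp; ring
      have hq := hQ c1 d1 c3 d3 t k1 k3 ht0 ht1
      rw [hta] at hq
      refine ⟨_, hq, ?_⟩
      have := G10a_conv (s' ^ 2) _ _ _ _ t ht0 ht1 (l1.trans hss) l3
      have e1 : (1 - t) * (a - h - c1) + t * (a - h - c3) = - h := by linear_combination -hta
      have e2 : (1 - t) * (b - d1) + t * (b - d3) = b - ((1 - t) * d1 + t * d3) := by ring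
      rwa [e1, e2, neg_sq] at this
  · intro b' hb'
    by_contra hc
    push Not at hc
    refine h4 a b' hb' ?_ ?_
    · have e : (a - h - a) ^ 2 = h ^ 2 := by ring
      rw [e]; exact hc
    · have e : (a + h - a) ^ 2 = h ^ 2 := by ring
      rw [e]; exact hc

private theorem G10a_slice (I : Set ℝ) (hI : Convex ℝ I) (hb : BddBelow I) (hb' : BddAbove I)
    (α β : ℝ) (h0 : 0 ≤ α) (hαβ : α ≤ β) (T : Set ℝ)
    (hT : ∀ b ∈ T, (∃ b₀ ∈ I, |b - b₀| ≤ β) ∧ ∀ b' ∈ I, α < |b - b'|) :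
    volume T ≤ ENNReal.ofReal (2 * (β - α)) := by
  have hsub : T ⊆ Icc (sInf I - β) (sInf I - α) ∪ Icc (sSup I + α) (sSup I + β) := by
    intro b hbT
    obtain ⟨⟨b₀, hb₀, hle⟩, hlt⟩ := hT b hbT
    have hnb : b ∉ I := by
      intro hbI
      have := hlt b hbI
      rw [sub_self, abs_zero] at this
      linarith
    have hne : b ≠ b₀ := fun e => hnb (e ▸ hb₀)
    rcases lt_or_gt_of_ne hne with hlt' | hgt'
    · left
      have hall : ∀ b' ∈ I, b + α ≤ b' := by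
        intro b' hb'I
        have h1 : b < b' := by
          by_contra hc
          push Not at hc
          exact hnb (hI.ordConnected.out hb'I hb₀ ⟨hc, hlt'.le⟩)
        have h2 := hlt b' hb'I
        rw [abs_of_neg (by linarith)] at h2
        linarith
      have h1 : b + α ≤ sInf I := le_csInf ⟨b₀, hb₀⟩ hall
      have h2 : sInf I ≤ b₀ := csInf_le hb hb₀
      rw [abs_of_neg (by linarith)] at hle
      exact ⟨by linarith, by linarith⟩
    · right
      have hall : ∀ b' ∈ I, b' ≤ b - α := by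
        intro b' hb'I
        have h1 : b' < b := by
          by_contra hc
          push Not at hc
          exact hnb (hI.ordConnected.out hb₀ hb'I ⟨hgt'.le, hc⟩)
        have h2 := hlt b' hb'I
        rw [abs_of_pos (by linarith)] at h2
        linarith
      have h1 : sSup I ≤ b - α := csSup_le ⟨b₀, hb₀⟩ hall
      have h2 : b₀ ≤ sSup I := le_csSup hb' hb₀
      rw [abs_of_pos (by linarith)] at hle
      exact ⟨by linarith, by linarith⟩
  calc volume T ≤ volume (Icc (sInf I - β) (sInf I - α) ∪ Icc (sSup I + α) (sSup I + β)) :=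
        measure_mono hsub
    _ ≤ volume (Icc (sInf I - β) (sInf I - α)) + volume (Icc (sSup I + α) (sSup I + β)) :=
        measure_union_le _ _
    _ = ENNReal.ofReal (2 * (β - α)) := by
        rw [Real.volume_Icc, Real.volume_Icc, ← ENNReal.ofReal_add (by linarith) (by linarith)]
        congr 1; ring

/-- the coordinates -/
private noncomputable def G10a_pt (e : ℂ) (a b : ℝ) : ℂ := e * ((a : ℂ) + (b : ℂ) * Complex.I)

private theorem G10a_dist (e : ℂ) (he : ‖e‖ = 1) (a b c d s : ℝ) (hs : 0 ≤ s) :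
    dist (G10a_pt e a b) (G10a_pt e c d) ≤ s ↔ (a - c) ^ 2 + (b - d) ^ 2 ≤ s ^ 2 := by
  have h1 : dist (G10a_pt e a b) (G10a_pt e c d) = √((a - c) ^ 2 + (b - d) ^ 2) := by
    rw [dist_eq_norm, G10a_pt, G10a_pt, ← mul_sub, norm_mul, he, one_mul]
    have : ((a : ℂ) + (b : ℂ) * Complex.I - ((c : ℂ) + (d : ℂ) * Complex.I)) =
        ((a - c : ℝ) : ℂ) + ((b - d : ℝ) : ℂ) * Complex.I := by push_cast; ring
    rw [this, Complex.norm_add_mul_I]
  rw [h1, Real.sqrt_le_left hs]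

private theorem G10a_surj (e : ℂ) (he : ‖e‖ = 1) (q : ℂ) : ∃ c d : ℝ, q = G10a_pt e c d := by
  have he0 : e ≠ 0 := by
    intro h; rw [h, norm_zero] at he; exact zero_ne_one he
  refine ⟨(e⁻¹ * q).re, (e⁻¹ * q).im, ?_⟩
  rw [G10a_pt, Complex.re_add_im, ← mul_assoc, mul_inv_cancel₀ he0, one_mul]

theorem measurableSet_Bad (K : Set ℂ) (hK : IsCompact K) (s s' : ℝ) :
    MeasurableSet (Bad s s' K) := by
  have h1 : IsClosed {p : ℂ × ℂ | dist p.1 p.2 ≤ 2 * s} :=
    isClosed_le (by fun_prop) (by fun_prop)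
  have h2 : IsClosed {p : ℂ × ℂ | ∃ q ∈ K, dist p.1 q ≤ s} :=
    G10a_proj K hK {z : (ℂ × ℂ) × ℂ | dist z.1.1 z.2 ≤ s} (isClosed_le (by fun_prop) (by fun_prop))
  have h3 : IsClosed {p : ℂ × ℂ | ∃ q ∈ K, dist p.2 q ≤ s} :=
    G10a_proj K hK {z : (ℂ × ℂ) × ℂ | dist z.1.2 z.2 ≤ s} (isClosed_le (by fun_prop) (by fun_prop))
  have h4 : ∀ t : ℝ, IsClosed {p : ℂ × ℂ | ∃ q ∈ K, dist p.1 q ≤ t ∧ dist p.2 q ≤ t} := fun t =>
    G10a_proj K hK ({z : (ℂ × ℂ) × ℂ | dist z.1.1 z.2 ≤ t} ∩ {z | dist z.1.2 z.2 ≤ t})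
      (IsClosed.inter (isClosed_le (by fun_prop) (by fun_prop))
        (isClosed_le (by fun_prop) (by fun_prop)))
  exact h1.measurableSet.inter (h2.measurableSet.inter (h3.measurableSet.inter
    ((h4 s').measurableSet.inter (h4 s).measurableSet.compl)))

theorem bad_slice (K : Set ℂ) (hK : IsCompact K) (hKc : Convex ℝ K) (s s' : ℝ) (hs : 0 < s)
    (hss : s ≤ s') (v : ℂ) (hv : v ≠ 0) (hv2 : ‖v‖ ≤ 2 * s) :
    volume {x : ℂ | (x, x + v) ∈ Bad s s' K} ≤
      ENNReal.ofReal (2 * (√(s' ^ 2 - ‖v‖ ^ 2 / 4) - √(s ^ 2 - ‖v‖ ^ 2 / 4)) * Metric.diam K) := by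
  have hvpos : 0 < ‖v‖ := norm_pos_iff.2 hv
  obtain ⟨h, hh⟩ : ∃ h : ℝ, h = ‖v‖ / 2 := ⟨_, rfl⟩
  have hh0 : 0 < h := by rw [hh]; positivity
  have hhs : h ≤ s := by rw [hh]; linarith
  have hh4 : ‖v‖ ^ 2 / 4 = h ^ 2 := by rw [hh]; ring
  rw [hh4]
  obtain ⟨e, he⟩ : ∃ e : ℂ, e = v / ‖v‖ := ⟨_, rfl⟩
  have he1 : ‖e‖ = 1 := by
    rw [he, norm_div, Complex.norm_real, norm_norm, div_self hvpos.ne']
  have hve : v = e * ((2 * h : ℝ) : ℂ) := by
    have : ((‖v‖ : ℝ) : ℂ) ≠ 0 := by exact_mod_cast hvpos.ne'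
    rw [he, hh]
    push_cast
    field_simp
  have he0 : e ≠ 0 := by
    intro h; rw [h, norm_zero] at he1; exact zero_ne_one he1
  have hs' : 0 ≤ s' := hs.le.trans hss
  have hsq : s ^ 2 ≤ s' ^ 2 := pow_le_pow_left₀ hs.le hss 2
  have hhsq : h ^ 2 ≤ s ^ 2 := pow_le_pow_left₀ hh0.le hhs 2
  obtain ⟨S, hSdef⟩ : ∃ S : Set ℂ, S = {x : ℂ | (x, x + v) ∈ Bad s s' K} := ⟨_, rfl⟩
  rw [← hSdef]
  have hS : MeasurableSet S := by
    rw [hSdef]
    exact (measurableSet_Bad K hK s s').preimage (by fun_prop : Measurable fun x : ℂ => (x, x + v))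
  have hΦ : MeasurePreserving (fun z : ℝ × ℝ => G10a_pt e (z.1 - h) z.2) volume volume := by
    have m1 := Complex.volume_preserving_equiv_real_prod.symm
    have m2 := measurePreserving_sub_right (volume : Measure ℂ) (h : ℂ)
    obtain ⟨u, hu⟩ : ∃ u : Circle, (u : ℂ) = e :=
      ⟨⟨e, by simpa [Submonoid.unitSphere] using he1⟩, rfl⟩
    have m3 := (rotation u).measurePreserving
    have m4 := m3.comp (m2.comp m1)
    have hfun : (fun z : ℝ × ℝ => G10a_pt e (z.1 - h) z.2) =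
        ⇑(rotation u) ∘ (fun x => x - (h : ℂ)) ∘
          ⇑Complex.measurableEquivRealProd.symm := by
      funext z
      simp only [Function.comp_apply]
      rw [rotation_apply, hu]
      change G10a_pt e (z.1 - h) z.2 = e * ((⟨z.1, z.2⟩ : ℂ) - h)
      rw [G10a_pt, Complex.mk_eq_add_mul_I]
      push_cast
      ring
    rw [hfun]
    exact m4
  rw [← hΦ.measure_preimage hS.nullMeasurableSet, Measure.volume_eq_prod,
    Measure.prod_apply (hΦ.measurable hS)]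
  -- the projection
  obtain ⟨J, hJ⟩ : ∃ J : Set ℝ, J = (fun q : ℂ => (e⁻¹ * q).re) '' K := ⟨_, rfl⟩
  have hJc : IsCompact J := by
    rw [hJ]; exact hK.image (by fun_prop)
  have hJv : volume J ≤ ENNReal.ofReal (Metric.diam K) := by
    have hL : LipschitzWith 1 (fun q : ℂ => (e⁻¹ * q).re) := by
      refine LipschitzWith.of_dist_le_mul fun x y => ?_
      rw [NNReal.coe_one, one_mul, Real.dist_eq, ← Complex.sub_re, ← mul_sub, dist_eq_norm]
      refine (Complex.abs_re_le_norm _).trans ?_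
      rw [norm_mul, norm_inv, he1, inv_one, one_mul]
    have h1 := hL.ediam_image_le K
    rw [← hJ] at h1
    refine (Real.volume_le_diam J).trans (h1.trans ?_)
    rw [ENNReal.coe_one, one_mul, Metric.diam, ENNReal.ofReal_toReal hK.isBounded.ediam_ne_top]
  have hQ : ∀ c d c' d' t : ℝ, G10a_pt e c d ∈ K → G10a_pt e c' d' ∈ K → 0 ≤ t → t ≤ 1 →
      G10a_pt e ((1 - t) * c + t * c') ((1 - t) * d + t * d') ∈ K := by
    intro c d c' d' t h1 h2 h3 h4
    have := hKc h1 h2 (sub_nonneg.2 h4) h3 (by ring)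
    convert this using 1
    simp only [G10a_pt, Complex.real_smul]
    push_cast
    ring
  have hmem : ∀ a b : ℝ, G10a_pt e (a - h) b ∈ S →
      (∃ b₀, G10a_pt e a b₀ ∈ K ∧ h ^ 2 + (b - b₀) ^ 2 ≤ s' ^ 2) ∧
      ∀ b', G10a_pt e a b' ∈ K → s ^ 2 < h ^ 2 + (b - b') ^ 2 := by
    intro a b hab
    rw [hSdef] at hab
    have hadd : G10a_pt e (a - h) b + v = G10a_pt e (a + h) b := by
      rw [hve, G10a_pt, G10a_pt]; push_cast; ring
    have hab' : (G10a_pt e (a - h) b, G10a_pt e (a - h) b + v) ∈ Bad s s' K := hab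
    rw [hadd] at hab'
    obtain ⟨-, ⟨q1, hq1, k1⟩, ⟨q2, hq2, k2⟩, ⟨q3, hq3, k3, k3'⟩, k4⟩ := hab'
    simp only at k1 k2 k3 k3' k4
    obtain ⟨c1, d1, rfl⟩ := G10a_surj e he1 q1
    obtain ⟨c2, d2, rfl⟩ := G10a_surj e he1 q2
    obtain ⟨c3, d3, rfl⟩ := G10a_surj e he1 q3
    rw [G10a_dist e he1 _ _ _ _ _ hs.le] at k1 k2
    rw [G10a_dist e he1 _ _ _ _ _ hs'] at k3 k3'
    refine G10a_core (fun c d => G10a_pt e c d ∈ K) hQ s s' h a b hsq hh0
      ⟨c1, d1, hq1, k1⟩ ⟨c2, d2, hq2, k2⟩ ⟨c3, d3, hq3, k3, k3'⟩ ?_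
    intro c d hcd l1 l2
    exact k4 ⟨G10a_pt e c d, hcd, (G10a_dist e he1 _ _ _ _ _ hs.le).2 l1,
      (G10a_dist e he1 _ _ _ _ _ hs.le).2 l2⟩
  obtain ⟨R, hR⟩ := hK.isBounded.exists_norm_le
  have hbd : ∀ a b : ℝ, G10a_pt e a b ∈ K → |b| ≤ R := by
    intro a b hab
    have h1 := hR _ hab
    rw [G10a_pt, norm_mul, he1, one_mul] at h1
    have h2 := Complex.abs_im_le_norm ((a : ℂ) + (b : ℂ) * Complex.I)
    have h3 : ((a : ℂ) + (b : ℂ) * Complex.I).im = b := by simp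
    rw [h3] at h2
    exact h2.trans h1
  have hα0 : 0 ≤ √(s ^ 2 - h ^ 2) := Real.sqrt_nonneg _
  have hαβ : √(s ^ 2 - h ^ 2) ≤ √(s' ^ 2 - h ^ 2) := Real.sqrt_le_sqrt (by linarith)
  have hslice : ∀ a : ℝ, volume (Prod.mk a ⁻¹' ((fun z : ℝ × ℝ => G10a_pt e (z.1 - h) z.2) ⁻¹' S)) ≤
      J.indicator (fun _ => ENNReal.ofReal (2 * (√(s' ^ 2 - h ^ 2) - √(s ^ 2 - h ^ 2)))) a := by
    intro a
    by_cases haJ : a ∈ J
    · rw [indicator_of_mem haJ]
      refine G10a_slice {b' | G10a_pt e a b' ∈ K} ?_ ?_ ?_ _ _ hα0 hαβ _ ?_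
      · intro x hx y hy p q hp hq hpq
        have := hQ a x a y q hx hy hq (by linarith)
        have e1 : (1 - q) * a + q * a = a := by ring
        have e2 : (1 - q) * x + q * y = p • x + q • y := by
          rw [smul_eq_mul, smul_eq_mul, ← hpq]; ring
        rw [e1, e2] at this
        exact this
      · exact ⟨-R, fun b hb => (abs_le.1 (hbd a b hb)).1⟩
      · exact ⟨R, fun b hb => (abs_le.1 (hbd a b hb)).2⟩
      · intro b hb
        obtain ⟨⟨b₀, h1, h2⟩, h3⟩ := hmem a b hb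
        refine ⟨⟨b₀, h1, ?_⟩, ?_⟩
        · exact Real.abs_le_sqrt (by linarith)
        · intro b' hb'
          have := h3 b' hb'
          rw [← Real.sqrt_sq_eq_abs]
          exact Real.sqrt_lt_sqrt (by linarith) (by linarith)
    · rw [indicator_of_notMem haJ]
      have : Prod.mk a ⁻¹' ((fun z : ℝ × ℝ => G10a_pt e (z.1 - h) z.2) ⁻¹' S) = ∅ := by
        rw [eq_empty_iff_forall_notMem]
        intro b hb
        obtain ⟨⟨b₀, h1, -⟩, -⟩ := hmem a b hb
        apply haJ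
        rw [hJ]
        refine ⟨_, h1, ?_⟩
        simp only [G10a_pt]
        rw [← mul_assoc, inv_mul_cancel₀ he0, one_mul]
        simp
      rw [this, measure_empty]
  calc ∫⁻ a : ℝ, volume (Prod.mk a ⁻¹' ((fun z : ℝ × ℝ => G10a_pt e (z.1 - h) z.2) ⁻¹' S))
      ≤ ∫⁻ a : ℝ, J.indicator
          (fun _ => ENNReal.ofReal (2 * (√(s' ^ 2 - h ^ 2) - √(s ^ 2 - h ^ 2)))) a :=
        lintegral_mono hslice
    _ = ENNReal.ofReal (2 * (√(s' ^ 2 - h ^ 2) - √(s ^ 2 - h ^ 2))) * volume J :=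
        lintegral_indicator_const hJc.measurableSet _
    _ ≤ ENNReal.ofReal (2 * (√(s' ^ 2 - h ^ 2) - √(s ^ 2 - h ^ 2))) *
          ENNReal.ofReal (Metric.diam K) := mul_le_mul_right hJv _
    _ = ENNReal.ofReal (2 * (√(s' ^ 2 - h ^ 2) - √(s ^ 2 - h ^ 2)) * Metric.diam K) := by
        rw [← ENNReal.ofReal_mul (mul_nonneg two_pos.le (sub_nonneg.2 hαβ))]

end MP412
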