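import Pool.Agent.Lib.MP_412417_pr.Defs

/-!
Row 412-G3: two points `x, y` of a chain can be replaced by a net `E`.

Take the chain of `Y ∪ {x, y}`; if it does not use `x, y` there is nothing to do. Otherwise take the part before the
first and the part after the last point of `{x, y}`. The point `w` before is linked to `x` (or `y`) by a common point
`q ∈ K`, `dist w q ≤ s`; `f ∈ E` with `dist f q ≤ ε` is linked to `w` (`dist w f ≤ s + ε ≤ u`, common point `q`). If there is no point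
before, `x` (or `y`) is near a point `q ∈ A ⊆ K` and so is `f`. Same at the end, with `q'`. Both `q, q'` are in
`K ∩ closedBall x (s + dist x y)`, which is convex: move along the segment from `q` to `q'` in steps at most `ε` and take points
of `E` at distance at most `ε`; consecutive ones are at distance at most `3 ε ≤ u` and share the point on the
segment (`2 ε ≤ s`).
-/

set_option autoImplicit false

open MeasureTheory Set
open scoped ENNReal Pointwise

namespace MP412

private theorem G3_path {u s ε ρ : ℝ} (hε : 0 < ε) (h2 : 3 * ε ≤ u) (h3 : 2 * ε ≤ s)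
    {K : Set ℂ} (hKc : Convex ℝ K) {X E : Set ℂ} (hEX : E ⊆ X) {x : ℂ}
    (hE : ∀ p, dist p x ≤ ρ → ∃ f ∈ E, dist f p ≤ ε) {q q' f : ℂ} (hq : q ∈ K) (hq' : q' ∈ K)
    (hqx : dist q x ≤ ρ) (hqx' : dist q' x ≤ ρ) (hf : f ∈ E) (hfq : dist f q ≤ ε) :
    ∃ f' ∈ E, dist f' q' ≤ ε ∧
      Relation.ReflTransGen (fun a b => a ∈ X ∧ b ∈ X ∧ Link u s K a b) f f' := by
  obtain ⟨n, hn⟩ := exists_nat_gt (dist q q' / ε)
  have hn0 : (0 : ℝ) < n := lt_of_le_of_lt (div_nonneg dist_nonneg hε.le) hn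
  have hstep : dist q q' / n ≤ ε := by
    rw [div_le_iff₀ hn0]
    rw [div_lt_iff₀ hε] at hn
    linarith
  -- the points of the segment
  set g : ℕ → ℂ := fun i => AffineMap.lineMap q q' ((i : ℝ) / n) with hg
  have hgK : ∀ i ≤ n, g i ∈ K := by
    intro i hi
    have h01 : (i : ℝ) / n ∈ Set.Icc (0 : ℝ) 1 := by
      refine ⟨by positivity, ?_⟩
      rw [div_le_one hn0]
      exact_mod_cast hi
    have a : g i ∈ segment ℝ q q' := by
      rw [segment_eq_image_lineMap]
      exact ⟨_, h01, rfl⟩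
    exact hKc.segment_subset hq hq' a
  have hgB : ∀ i ≤ n, dist (g i) x ≤ ρ := by
    intro i hi
    have h01 : (i : ℝ) / n ∈ Set.Icc (0 : ℝ) 1 := by
      refine ⟨by positivity, ?_⟩
      rw [div_le_one hn0]
      exact_mod_cast hi
    have a : g i ∈ segment ℝ q q' := by
      rw [segment_eq_image_lineMap]
      exact ⟨_, h01, rfl⟩
    have b : g i ∈ Metric.closedBall x ρ :=
      (convex_closedBall x ρ).segment_subset (Metric.mem_closedBall.2 hqx)
        (Metric.mem_closedBall.2 hqx') a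
    exact Metric.mem_closedBall.1 b
  have hgd : ∀ i, dist (g i) (g (i + 1)) ≤ ε := by
    intro i
    have a : dist (g i) (g (i + 1)) = dist ((i : ℝ) / n) (((i + 1 : ℕ) : ℝ) / n) * dist q q' := by
      simp only [hg]
      rw [dist_lineMap_lineMap]
    rw [a, Real.dist_eq]
    have b : (i : ℝ) / n - ((i + 1 : ℕ) : ℝ) / n = -(1 / n) := by
      push_cast
      field_simp
      ring
    rw [b, abs_neg, abs_of_pos (by positivity)]
    calc 1 / (n : ℝ) * dist q q' = dist q q' / n := by ring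
      _ ≤ ε := hstep
  have key : ∀ i ≤ n, ∃ f' ∈ E, dist f' (g i) ≤ ε ∧
      Relation.ReflTransGen (fun a b => a ∈ X ∧ b ∈ X ∧ Link u s K a b) f f' := by
    intro i
    induction i with
    | zero =>
      intro _
      refine ⟨f, hf, ?_, Relation.ReflTransGen.refl⟩
      simpa [hg] using hfq
    | succ i ih =>
      intro hi
      obtain ⟨f1, hf1, hd1, hr⟩ := ih (Nat.le_of_succ_le hi)
      obtain ⟨f2, hf2, hd2⟩ := hE (g (i + 1)) (hgB (i + 1) hi)
      refine ⟨f2, hf2, hd2, hr.tail ⟨hEX hf1, hEX hf2, ?_, g i, hgK i (Nat.le_of_succ_le hi), ?_, ?_⟩⟩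
      · have t1 := dist_triangle4 f1 (g i) (g (i + 1)) f2
        have t2 := hgd i
        rw [dist_comm (g (i + 1)) f2] at t1
        linarith
      · linarith
      · have t1 := dist_triangle f2 (g (i + 1)) (g i)
        have t2 := hgd i
        rw [dist_comm (g (i + 1)) (g i)] at t1
        linarith
  obtain ⟨f', hf', hd, hr⟩ := key n le_rfl
  refine ⟨f', hf', ?_, hr⟩
  have e : g n = q' := by
    simp only [hg]
    rw [div_self hn0.ne', AffineMap.lineMap_apply_one]
  rwa [e] at hd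

theorem chain_net (u s ε : ℝ) (hε : 0 < ε) (h1 : s + ε ≤ u) (h2 : 3 * ε ≤ u) (h3 : 2 * ε ≤ s)
    (K A B : Set ℂ) (hKc : Convex ℝ K) (hA : A ⊆ K) (hB : B ⊆ K) (Y E : Set ℂ) (x y : ℂ)
    (hch : Chain u s K A B (Y ∪ {x, y}))
    (hE : ∀ p, dist p x ≤ s + dist x y → ∃ f ∈ E, dist f p ≤ ε) :
    Chain u s K A B (Y ∪ E) := by
  obtain ⟨a, ha, b, hb, haA, hbB, hab⟩ := hch
  set R := (fun a b => a ∈ Y ∪ E ∧ b ∈ Y ∪ E ∧ Link u s K a b) with hR
  -- a point of `{x, y}` close to `q`
  have hxq : ∀ p ∈ ({x, y} : Set ℂ), ∀ q, dist p q ≤ s → dist q x ≤ s + dist x y := by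
    intro p hp q hpq
    rcases hp with rfl | hp
    · have := dist_nonneg (x := p) (y := y)
      rw [dist_comm q p]
      linarith
    · rw [Set.mem_singleton_iff] at hp
      subst hp
      have t := dist_triangle q p x
      rw [dist_comm q p, dist_comm p x] at t
      linarith
  let Good : ℂ → Prop := fun p => ∃ a' ∈ Y ∪ E, (∃ q ∈ A, dist a' q ≤ s) ∧
    Relation.ReflTransGen R a' p
  let T : Prop := ∃ f ∈ E, ∃ q ∈ K, dist q x ≤ s + dist x y ∧ dist f q ≤ ε ∧ Good f
  -- from `T` one reaches the points of the net close to any `q'`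
  have hT : T → ∀ q' ∈ K, dist q' x ≤ s + dist x y → ∃ f' ∈ E, dist f' q' ≤ ε ∧ Good f' := by
    rintro ⟨f, hf, q, hq, hqx, hfq, a', ha', haq, hr⟩ q' hq' hqx'
    obtain ⟨f', hf', hd, hr'⟩ := G3_path (X := Y ∪ E) hε h2 h3 hKc Set.subset_union_right hE hq hq'
      hqx hqx' hf hfq
    exact ⟨f', hf', hd, a', ha', haq, hr.trans hr'⟩
  have inv : ∀ p, Relation.ReflTransGen
      (fun a b => a ∈ Y ∪ {x, y} ∧ b ∈ Y ∪ {x, y} ∧ Link u s K a b) a p →
      (p ∈ Y ∧ Good p) ∨ (p ∈ ({x, y} : Set ℂ) ∧ T) := by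
    intro p hp
    induction hp with
    | refl =>
      rcases ha with ha | ha
      · exact Or.inl ⟨ha, a, Or.inl ha, haA, Relation.ReflTransGen.refl⟩
      · obtain ⟨q, hq, haq⟩ := haA
        have hx := hxq a ha q haq
        obtain ⟨f, hf, hfq⟩ := hE q hx
        exact Or.inr ⟨ha, f, hf, q, hA hq, hx, hfq, f, Or.inr hf, ⟨q, hq, by linarith⟩,
          Relation.ReflTransGen.refl⟩
    | @tail p p' _ hpp ih =>
      obtain ⟨_, hp', hlink⟩ := hpp
      obtain ⟨hd, q, hq, hpq, hpq'⟩ := hlink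
      rcases ih with ⟨hpY, a', ha', haq, hr⟩ | ⟨hpx, hTT⟩
      · rcases hp' with hp' | hp'
        · exact Or.inl ⟨hp', a', ha', haq, hr.tail ⟨Or.inl hpY, Or.inl hp', hd, q, hq, hpq, hpq'⟩⟩
        · have hx := hxq p' hp' q hpq'
          obtain ⟨f, hf, hfq⟩ := hE q hx
          refine Or.inr ⟨hp', f, hf, q, hq, hx, hfq, a', ha', haq,
            hr.tail ⟨Or.inl hpY, Or.inr hf, ?_, q, hq, hpq, by linarith⟩⟩
          have t := dist_triangle p q f
          rw [dist_comm q f] at t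
          linarith
      · rcases hp' with hp' | hp'
        · have hx := hxq p hpx q hpq
          obtain ⟨f, hf, hfq, a', ha', haq, hr⟩ := hT hTT q hq hx
          refine Or.inl ⟨hp', a', ha', haq,
            hr.tail ⟨Or.inr hf, Or.inl hp', ?_, q, hq, by linarith, hpq'⟩⟩
          have t := dist_triangle f q p'
          rw [dist_comm q p'] at t
          linarith
        · exact Or.inr ⟨hp', hTT⟩
  rcases inv b hab with ⟨hbY, a', ha', haq, hr⟩ | ⟨hbx, hTT⟩
  · exact ⟨a', ha', b, Or.inl hbY, haq, hbB, hr⟩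
  · obtain ⟨q, hq, hbq⟩ := hbB
    have hx := hxq b hbx q hbq
    obtain ⟨f, hf, hfq, a', ha', haq, hr⟩ := hT hTT q (hB hq) hx
    exact ⟨a', ha', f, Or.inr hf, haq, ⟨q, hq, by linarith⟩, hr⟩

end MP412
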