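import Pool.Agent.Lib.MP_412417_pr.Defs

/-!
Row 412-G4: the squares.

`volume (sq e p)`: `Complex.volume_preserving_equiv_real_prod` and a product of two intervals. Counting: the squares
meeting `closedBall 0 R` are disjoint, of area `e ^ 2`, and contained in `closedBall 0 (R + 2)`.
-/

set_option autoImplicit false

open MeasureTheory Set
open scoped ENNReal Pointwise

namespace MP412

theorem measurableSet_sq (e : ℝ) (p : ℤ × ℤ) : MeasurableSet (sq e p) := by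
  have h : sq e p = (Complex.re ⁻¹' Ico (p.1 * e) ((p.1 + 1) * e)) ∩
      (Complex.im ⁻¹' Ico (p.2 * e) ((p.2 + 1) * e)) := by
    ext z
    simp only [sq, mem_setOf_eq, mem_inter_iff, mem_preimage, mem_Ico]
    tauto
  rw [h]
  exact (Complex.measurable_re measurableSet_Ico).inter (Complex.measurable_im measurableSet_Ico)

private lemma G4_lt {e : ℝ} (he : 0 < e) {a b : ℤ} (h : (a : ℝ) * e < (b : ℝ) * e) : a < b := by
  have := lt_of_mul_lt_mul_right h he.le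
  exact_mod_cast this

theorem disjoint_sq {e : ℝ} (he : 0 < e) {p q : ℤ × ℤ} (h : p ≠ q) : Disjoint (sq e p) (sq e q) := by
  rw [Set.disjoint_left]
  rintro z ⟨h1, h2, h3, h4⟩ ⟨k1, k2, k3, k4⟩
  apply h
  have a1 : p.1 < q.1 + 1 := G4_lt he (by push_cast; exact lt_of_le_of_lt h1 k2)
  have a2 : q.1 < p.1 + 1 := G4_lt he (by push_cast; exact lt_of_le_of_lt k1 h2)
  have a3 : p.2 < q.2 + 1 := G4_lt he (by push_cast; exact lt_of_le_of_lt h3 k4)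
  have a4 : q.2 < p.2 + 1 := G4_lt he (by push_cast; exact lt_of_le_of_lt k3 h4)
  ext <;> omega

theorem exists_sq {e : ℝ} (he : 0 < e) (z : ℂ) : ∃ p, z ∈ sq e p := by
  refine ⟨(⌊z.re / e⌋, ⌊z.im / e⌋), ?_, ?_, ?_, ?_⟩
  · have := Int.floor_le (z.re / e)
    rw [le_div_iff₀ he] at this
    exact this
  · have := Int.lt_floor_add_one (z.re / e)
    rw [div_lt_iff₀ he] at this
    exact this
  · have := Int.floor_le (z.im / e)
    rw [le_div_iff₀ he] at this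
    exact this
  · have := Int.lt_floor_add_one (z.im / e)
    rw [div_lt_iff₀ he] at this
    exact this

theorem volume_sq {e : ℝ} (he : 0 < e) (p : ℤ × ℤ) : volume (sq e p) = ENNReal.ofReal (e ^ 2) := by
  have h := Complex.volume_preserving_equiv_real_prod.measure_preimage_equiv
    (Ico ((p.1 : ℝ) * e) ((p.1 + 1) * e) ×ˢ Ico ((p.2 : ℝ) * e) ((p.2 + 1) * e))
  have h2 : Complex.measurableEquivRealProd ⁻¹'
      (Ico ((p.1 : ℝ) * e) ((p.1 + 1) * e) ×ˢ Ico ((p.2 : ℝ) * e) ((p.2 + 1) * e)) = sq e p := by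
    ext z
    simp only [mem_preimage, mem_prod, mem_Ico, sq, mem_setOf_eq]
    change (((p.1 : ℝ) * e ≤ z.re ∧ z.re < (p.1 + 1) * e) ∧
      ((p.2 : ℝ) * e ≤ z.im ∧ z.im < (p.2 + 1) * e)) ↔ _
    tauto
  rw [h2] at h
  rw [h, Measure.volume_eq_prod, Measure.prod_prod, Real.volume_Ico, Real.volume_Ico,
    ← ENNReal.ofReal_mul (by nlinarith)]
  congr 1
  ring

private lemma G4_norm (z : ℂ) {a : ℝ} (h1 : |z.re| ≤ a) (h2 : |z.im| ≤ a) : ‖z‖ ≤ 2 * a := by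
  have := Complex.norm_le_abs_re_add_abs_im z
  linarith

theorem dist_sq {e : ℝ} {p : ℤ × ℤ} {z w : ℂ} (hz : z ∈ sq e p) (hw : w ∈ sq e p) :
    dist z w ≤ 2 * e := by
  obtain ⟨h1, h2, h3, h4⟩ := hz
  obtain ⟨k1, k2, k3, k4⟩ := hw
  rw [dist_eq_norm]
  apply G4_norm
  · rw [Complex.sub_re, abs_le]
    constructor <;> nlinarith
  · rw [Complex.sub_im, abs_le]
    constructor <;> nlinarith

/-- points of the squares of a box form a net -/
theorem net_sq {e : ℝ} (he : 0 < e) {m : ℕ} {q : ℤ × ℤ} {x : ℂ} (hx : x ∈ sq e q) {w : ℂ}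
    (hw : dist w x ≤ m * e - e) : ∃ p ∈ box m q, w ∈ sq e p := by
  obtain ⟨p, hp⟩ := exists_sq he w
  refine ⟨p, ?_, hp⟩
  obtain ⟨h1, h2, h3, h4⟩ := hx
  obtain ⟨k1, k2, k3, k4⟩ := hp
  rw [dist_eq_norm] at hw
  have hr : |w.re - x.re| ≤ m * e - e := by
    have := Complex.abs_re_le_norm (w - x)
    rw [Complex.sub_re] at this
    linarith
  have hi : |w.im - x.im| ≤ m * e - e := by
    have := Complex.abs_im_le_norm (w - x)
    rw [Complex.sub_im] at this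
    linarith
  rw [abs_le] at hr hi
  have a1 : p.1 < q.1 + m := G4_lt he (by push_cast; nlinarith)
  have a2 : q.1 - m < p.1 := by
    have : q.1 - m + 1 < p.1 + 1 := G4_lt he (by push_cast; nlinarith)
    omega
  have a3 : p.2 < q.2 + m := G4_lt he (by push_cast; nlinarith)
  have a4 : q.2 - m < p.2 := by
    have : q.2 - m + 1 < p.2 + 1 := G4_lt he (by push_cast; nlinarith)
    omega
  unfold box
  rw [Finset.mem_Icc, Prod.le_def, Prod.le_def]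
  refine ⟨⟨?_, ?_⟩, ?_, ?_⟩ <;> simp only <;> omega

/-- the squares of a box are near each other -/
theorem box_sq {e : ℝ} (he : 0 < e) {m : ℕ} {p q : ℤ × ℤ} (hp : p ∈ box m q) {x w : ℂ}
    (hx : x ∈ sq e q) (hw : w ∈ sq e p) : dist w x ≤ 2 * (m + 1) * e := by
  obtain ⟨h1, h2, h3, h4⟩ := hx
  obtain ⟨k1, k2, k3, k4⟩ := hw
  unfold box at hp
  rw [Finset.mem_Icc, Prod.le_def, Prod.le_def] at hp
  obtain ⟨⟨b1, b2⟩, b3, b4⟩ := hp
  simp only at b1 b2 b3 b4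
  have c1 : (q.1 : ℝ) - m ≤ p.1 := by exact_mod_cast b1
  have c2 : (q.2 : ℝ) - m ≤ p.2 := by exact_mod_cast b2
  have c3 : (p.1 : ℝ) ≤ q.1 + m := by exact_mod_cast b3
  have c4 : (p.2 : ℝ) ≤ q.2 + m := by exact_mod_cast b4
  have d1 := mul_le_mul_of_nonneg_right c1 he.le
  have d2 := mul_le_mul_of_nonneg_right c2 he.le
  have d3 := mul_le_mul_of_nonneg_right c3 he.le
  have d4 := mul_le_mul_of_nonneg_right c4 he.le
  rw [dist_eq_norm]
  have : ‖w - x‖ ≤ 2 * ((m + 1) * e) := by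
    apply G4_norm
    · rw [Complex.sub_re, abs_le]
      constructor <;> nlinarith
    · rw [Complex.sub_im, abs_le]
      constructor <;> nlinarith
  linarith

private lemma G4_mem {e : ℝ} (he : 0 < e) {R : ℝ} {q : ℤ × ℤ}
    (h : (sq e q ∩ Metric.closedBall 0 R).Nonempty) :
    q ∈ Finset.Icc (((-(⌈R / e⌉ + 1), -(⌈R / e⌉ + 1)) : ℤ × ℤ)) (⌈R / e⌉ + 1, ⌈R / e⌉ + 1) := by
  obtain ⟨z, ⟨h1, h2, h3, h4⟩, hz⟩ := h
  rw [mem_closedBall_zero_iff] at hz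
  have hr := abs_le.1 ((Complex.abs_re_le_norm z).trans hz)
  have hi := abs_le.1 ((Complex.abs_im_le_norm z).trans hz)
  have hc : R ≤ (⌈R / e⌉ : ℝ) * e := by
    have := Int.le_ceil (R / e)
    rwa [div_le_iff₀ he] at this
  have a1 : q.1 < ⌈R / e⌉ + 1 := G4_lt he (by push_cast; nlinarith)
  have a2 : -⌈R / e⌉ - 1 < q.1 + 1 := G4_lt he (by push_cast; nlinarith)
  have a3 : q.2 < ⌈R / e⌉ + 1 := G4_lt he (by push_cast; nlinarith)
  have a4 : -⌈R / e⌉ - 1 < q.2 + 1 := G4_lt he (by push_cast; nlinarith)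
  rw [Finset.mem_Icc, Prod.le_def, Prod.le_def]
  refine ⟨⟨?_, ?_⟩, ?_, ?_⟩ <;> simp only <;> omega

theorem finite_sq {e : ℝ} (he : 0 < e) (R : ℝ) :
    {q : ℤ × ℤ | (sq e q ∩ Metric.closedBall 0 R).Nonempty}.Finite := by
  refine (Finset.finite_toSet (Finset.Icc (((-(⌈R / e⌉ + 1), -(⌈R / e⌉ + 1)) : ℤ × ℤ))
    (⌈R / e⌉ + 1, ⌈R / e⌉ + 1))).subset ?_
  intro q hq
  exact G4_mem he hq

theorem card_sq (R : ℝ) (hR : 0 < R) : ∃ C : ℝ, 0 < C ∧ ∀ e : ℝ, 0 < e → e ≤ 1 →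
    ∀ Q : Finset (ℤ × ℤ), (∀ q ∈ Q, (sq e q ∩ Metric.closedBall 0 R).Nonempty) →
      (Q.card : ℝ) ≤ C / e ^ 2 := by
  refine ⟨(2 * R + 5) ^ 2, by positivity, ?_⟩
  intro e he he1 Q hQ
  have hsub : Q ⊆ Finset.Icc (((-(⌈R / e⌉ + 1), -(⌈R / e⌉ + 1)) : ℤ × ℤ))
      (⌈R / e⌉ + 1, ⌈R / e⌉ + 1) := fun q hq => G4_mem he (hQ q hq)
  have h1 := Finset.card_le_card hsub
  rw [Finset.card_Icc_prod] at h1
  simp only [Int.card_Icc] at h1
  have hc0 : 0 ≤ ⌈R / e⌉ := Int.ceil_nonneg (by positivity)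
  have h2 : ((⌈R / e⌉ + 1 + 1 - -(⌈R / e⌉ + 1)).toNat : ℝ) = 2 * (⌈R / e⌉ : ℝ) + 3 := by
    have h3 : ((⌈R / e⌉ + 1 + 1 - -(⌈R / e⌉ + 1)).toNat : ℤ) = 2 * ⌈R / e⌉ + 3 := by
      rw [Int.toNat_of_nonneg (by omega)]
      ring
    exact_mod_cast h3
  have h4 : (Q.card : ℝ) ≤ (2 * (⌈R / e⌉ : ℝ) + 3) * (2 * (⌈R / e⌉ : ℝ) + 3) := by
    rw [← h2]
    exact_mod_cast h1
  have h5 : (⌈R / e⌉ : ℝ) < R / e + 1 := Int.ceil_lt_add_one _
  have h6 : (0 : ℝ) ≤ (⌈R / e⌉ : ℝ) := by exact_mod_cast hc0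
  have h7 : 2 * (⌈R / e⌉ : ℝ) + 3 ≤ (2 * R + 5) / e := by
    have h8 : 2 * (⌈R / e⌉ : ℝ) + 3 ≤ 2 * (R / e) + 5 := by linarith
    have h9 : (5 : ℝ) ≤ 5 / e := by
      rw [le_div_iff₀ he]
      nlinarith
    have h10 : (2 * R + 5) / e = 2 * (R / e) + 5 / e := by
      field_simp
    linarith
  calc (Q.card : ℝ) ≤ (2 * (⌈R / e⌉ : ℝ) + 3) * (2 * (⌈R / e⌉ : ℝ) + 3) := h4
    _ ≤ ((2 * R + 5) / e) * ((2 * R + 5) / e) := by
        apply mul_le_mul h7 h7 (by linarith) (by positivity)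
    _ = (2 * R + 5) ^ 2 / e ^ 2 := by
        field_simp

theorem card_box (m : ℕ) (q : ℤ × ℤ) : (box m q).card = (2 * m + 1) ^ 2 := by
  unfold box
  rw [Finset.card_Icc_prod]
  simp only [Int.card_Icc]
  have h1 : ((q.1 + m + 1 - (q.1 - m)).toNat) = 2 * m + 1 := by omega
  have h2 : ((q.2 + m + 1 - (q.2 - m)).toNat) = 2 * m + 1 := by omega
  rw [h1, h2, pow_two]

end MP412
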