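import Pool.Agent.Lib.MP_412417_pr.P2

/-!
Row 412-P4b: adding one point in each set `S p`, `p ∈ J`, to a configuration.

Induction on `J` with `mecke`: for every finite set `Z` of added points, and every `J`,
`∫⁻ c, 1_{T (pts c ∪ Z)} ∏_{p ∈ J} cnt (S p) c = ∫ ... ∫ poisson Λ {c | T (pts c ∪ Z ∪ {z_p : p ∈ J})} ∏ Λ(dz_p)`; for every
choice of the `z_p` the last probability is at least `P(T) + P(¬ T ∧ ∀ z ..)` (`T` is measurable and
monotone). `hT` for `Z ≠ ∅`: `{c | T (pts c ∪ Z)}` is the preimage of `{c | T (pts c)}` under adding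
points (`measurable_cons`).
-/

set_option autoImplicit false

open MeasureTheory Set
open scoped ENNReal Pointwise

namespace MP412

private theorem P4b_meas {T : Set ℂ → Prop} (hT : MeasurableSet {c : Conf | T (pts c)})
    {Z : Set ℂ} (hZ : Z.Finite) : MeasurableSet {c : Conf | T (pts c ∪ Z)} := by
  induction Z, hZ using Set.Finite.induction_on with
  | empty => simpa using hT
  | @insert w Z _ _ ih =>
    have h1 : {c : Conf | T (pts c ∪ insert w Z)} =
        (fun c : Conf => cons w c) ⁻¹' {c : Conf | T (pts c ∪ Z)} := by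
      ext c
      change T (pts c ∪ insert w Z) ↔ T (pts (cons w c) ∪ Z)
      rw [pts_cons, insert_union, union_insert]
    rw [h1]
    exact (measurable_cons.comp (measurable_const.prodMk measurable_id)) ih

private theorem P4b_aux (Λ : Measure ℂ) [IsFiniteMeasure Λ] {ι : Type} (S : ι → Set ℂ)
    (hS : ∀ i, MeasurableSet (S i)) (hd : ∀ i j, i ≠ j → Disjoint (S i) (S j))
    (T : Set ℂ → Prop) (hT : MeasurableSet {c : Conf | T (pts c)}) (m : ℝ≥0∞) (J : Finset ι) :
    ∀ Z : Set ℂ, Z.Finite →
      (∀ z : ι → ℂ, (∀ p ∈ J, z p ∈ S p) → m ≤ poisson Λ {c | T (pts c ∪ (Z ∪ z '' ↑J))}) →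
      (∏ p ∈ J, Λ (S p)) * m ≤
        ∫⁻ c, {c : Conf | T (pts c ∪ Z)}.indicator 1 c * ∏ p ∈ J, cnt (S p) c ∂(poisson Λ) := by
  classical
  induction J using Finset.induction_on with
  | empty =>
    intro Z hZ hm
    have h1 := hm (fun _ => 0) (fun p hp => absurd hp (Finset.notMem_empty p))
    simp only [Finset.coe_empty, image_empty, union_empty] at h1
    simp only [Finset.prod_empty, one_mul, mul_one]
    rwa [lintegral_indicator_one (P4b_meas hT hZ)]
  | insert a J ha ih =>
    intro Z hZ hm
    have hc : ∀ (S : Set ℂ) (z : ℂ) (c : Conf), cnt S (cons z c) = S.indicator 1 z + cnt S c :=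
      fun S z c => (isIns_cons z c).cnt_eq S
    have h1 : ∀ c : Conf, {c : Conf | T (pts c ∪ Z)}.indicator 1 c *
        ∏ p ∈ insert a J, cnt (S p) c =
        ({c : Conf | T (pts c ∪ Z)}.indicator 1 c * ∏ p ∈ J, cnt (S p) c) * cnt (S a) c := by
      intro c
      rw [Finset.prod_insert ha]
      ring
    simp only [h1]
    rw [mecke Λ (fun c => {c : Conf | T (pts c ∪ Z)}.indicator 1 c * ∏ p ∈ J, cnt (S p) c)
      ((measurable_one.indicator (P4b_meas hT hZ)).mul
        (Finset.measurable_fun_prod _ fun p _ => measurable_cnt (hS p)))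
      (fun c x c' h => by
        have h2 : pts c = pts (cons x c') := by rw [h.pts_eq, pts_cons]
        have h3 : {c : Conf | T (pts c ∪ Z)}.indicator (1 : Conf → ℝ≥0∞) c =
            {c : Conf | T (pts c ∪ Z)}.indicator 1 (cons x c') := by
          simp only [indicator_apply, mem_ofPred_eq, h2, Pi.one_apply]
        rw [h3]
        congr 1
        exact Finset.prod_congr rfl fun p _ => by rw [h.cnt_eq, hc]) (S a) (hS a)]
    rw [Finset.prod_insert ha, mul_assoc, mul_comm, ← setLIntegral_const]
    refine setLIntegral_mono' (hS a) fun w hw => ?_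
    refine (ih (insert w Z) (hZ.insert w) fun z hz => ?_).trans_eq ?_
    · have h2 := hm (Function.update z a w) (fun p hp => by
        rcases Finset.mem_insert.1 hp with rfl | hp'
        · rw [Function.update_self]
          exact hw
        · rw [Function.update_of_ne (by
            rintro rfl
            exact ha hp')]
          exact hz p hp')
      have h3 : Z ∪ Function.update z a w '' ↑(insert a J) = insert w Z ∪ z '' ↑J := by
        rw [Finset.coe_insert, image_insert_eq, Function.update_self, union_insert, insert_union]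
        congr 2
        refine image_congr fun p hp => ?_
        rw [Function.update_of_ne (by
          rintro rfl
          exact ha (Finset.mem_coe.1 hp))]
      rwa [h3] at h2
    · refine lintegral_congr fun c => ?_
      have h2 : {c : Conf | T (pts c ∪ insert w Z)}.indicator (1 : Conf → ℝ≥0∞) c =
          {c : Conf | T (pts c ∪ Z)}.indicator 1 (cons w c) := by
        simp only [indicator_apply, mem_ofPred_eq, pts_cons, insert_union, union_insert,
          Pi.one_apply]
      rw [h2]
      congr 1
      refine Finset.prod_congr rfl fun p hp => ?_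
      have h5 : a ≠ p := fun h => ha (h ▸ hp)
      rw [hc, indicator_of_notMem (Set.disjoint_left.1 (hd a p h5) hw), zero_add]

theorem moment_event (Λ : Measure ℂ) [IsFiniteMeasure Λ] {ι : Type} (S : ι → Set ℂ)
    (hS : ∀ i, MeasurableSet (S i)) (hd : ∀ i j, i ≠ j → Disjoint (S i) (S j)) (J : Finset ι)
    (T : Set ℂ → Prop) (hT : MeasurableSet {c : Conf | T (pts c)})
    (hmono : ∀ X Y, X ⊆ Y → T X → T Y) :
    (∏ p ∈ J, Λ (S p)) * (poisson Λ {c | T (pts c)} +
      poisson Λ {c | ¬ T (pts c) ∧ ∀ z : ι → ℂ, (∀ p ∈ J, z p ∈ S p) → T (pts c ∪ z '' ↑J)}) ≤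
      ∫⁻ c in {c | T (pts c)}, ∏ p ∈ J, cnt (S p) c ∂(poisson Λ) := by
  refine (P4b_aux Λ S hS hd T hT _ J ∅ Set.finite_empty fun z hz => ?_).trans_eq ?_
  · rw [← measure_union' ?_ hT]
    · refine measure_mono ?_
      rintro c (hc | hc)
      · exact hmono _ _ subset_union_left hc
      · rw [mem_ofPred_eq, empty_union]
        exact hc.2 z hz
    · rw [Set.disjoint_left]
      rintro c hc ⟨hc', _⟩
      exact hc' hc
  · rw [← lintegral_indicator hT]
    refine lintegral_congr fun c => ?_
    simp only [union_empty]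
    by_cases hc : c ∈ {c : Conf | T (pts c)}
    · rw [indicator_of_mem hc, indicator_of_mem hc, Pi.one_apply, one_mul]
    · rw [indicator_of_notMem hc, indicator_of_notMem hc, zero_mul]

end MP412
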