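import Pool.Agent.Lib.MP_412417_pr.P4a
import Pool.Agent.Lib.MP_412417_pr.P4b
import Pool.Agent.Lib.MP_412417_pr.G4

/-!
Row 412-P4c: the l2 bound for the probabilities that filling a box creates a crossing.

Put `g q = ∏_{p ∈ box m q} cnt (S p) / a` (real valued), `α q` the probability on the left. By `moment_one`
`E g q = 1`, by `moment_two` `E (g q)^2 = (1 + 1/a)^((2m+1)^2) =: V`, by `moment_one` for the union of two disjoint
boxes `E g q g q' = 1` if the boxes are disjoint; always `E g q g q' ≤ V` (Cauchy-Schwarz) and at most `(4m+1)^2`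
boxes meet a given one. Hence `E (∑ α q (g q - 1))^2 ≤ V (4m+1)^2 ∑ (α q)^2` (use `2 α α' ≤ α^2 + α'^2`). By `moment_event`
`α q ≤ E [1_T (g q - 1)]`. So `∑ (α q)^2 ≤ E [1_T ∑ α q (g q - 1)] ≤ sqrt (E (∑ α q (g q - 1))^2)`.
-/

set_option autoImplicit false

open MeasureTheory Set
open scoped ENNReal Pointwise

namespace MP412

private theorem P4c_cnt_ne_top (S : Set ℂ) (c : Conf) : cnt S c ≠ ⊤ := by
  unfold cnt
  refine ENNReal.sum_ne_top.mpr fun i _ => ?_
  by_cases h : c.2 i ∈ S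
  · rw [indicator_of_mem h]; simp
  · rw [indicator_of_notMem h]; simp

/-- the normalised product of counts -/
private noncomputable def P4c_G (S : ℤ × ℤ → Set ℂ) (a : ℝ) (J : Finset (ℤ × ℤ)) (c : Conf) : ℝ :=
  ∏ p ∈ J, ((cnt (S p) c).toReal / a)

private theorem P4c_G_nonneg (S : ℤ × ℤ → Set ℂ) (a : ℝ) (ha : 0 < a) (J : Finset (ℤ × ℤ))
    (c : Conf) : 0 ≤ P4c_G S a J c :=
  Finset.prod_nonneg fun _ _ => div_nonneg ENNReal.toReal_nonneg ha.le

private theorem P4c_measurable (S : ℤ × ℤ → Set ℂ) (hS : ∀ i, MeasurableSet (S i)) (a : ℝ)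
    (J : Finset (ℤ × ℤ)) : Measurable (P4c_G S a J) := by
  unfold P4c_G
  exact Finset.measurable_prod J fun p _ => ((measurable_cnt (hS p)).ennreal_toReal).div_const a

private theorem P4c_ofReal (S : ℤ × ℤ → Set ℂ) (a : ℝ) (ha : 0 < a) (J : Finset (ℤ × ℤ))
    (c : Conf) : ENNReal.ofReal (P4c_G S a J c) =
      (∏ p ∈ J, cnt (S p) c) * ((ENNReal.ofReal a)⁻¹) ^ J.card := by
  unfold P4c_G
  rw [ENNReal.ofReal_prod_of_nonneg fun _ _ => div_nonneg ENNReal.toReal_nonneg ha.le]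
  rw [← Finset.prod_const, ← Finset.prod_mul_distrib]
  refine Finset.prod_congr rfl fun p _ => ?_
  rw [ENNReal.ofReal_div_of_pos ha, ENNReal.ofReal_toReal (P4c_cnt_ne_top _ _), div_eq_mul_inv]

private theorem P4c_lint (Λ : Measure ℂ) [IsFiniteMeasure Λ] (S : ℤ × ℤ → Set ℂ)
    (hS : ∀ i, MeasurableSet (S i)) (hd : ∀ i j, i ≠ j → Disjoint (S i) (S j))
    (a : ℝ) (ha : 0 < a) (J : Finset (ℤ × ℤ)) (hJ : ∀ p ∈ J, Λ (S p) = ENNReal.ofReal a) :
    ∫⁻ c, ENNReal.ofReal (P4c_G S a J c) ∂(poisson Λ) = 1 := by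
  have hA : ENNReal.ofReal a ≠ 0 := by simpa using ha
  simp_rw [P4c_ofReal S a ha J]
  rw [lintegral_mul_const _ (Finset.measurable_prod J fun p _ => measurable_cnt (hS p)),
    moment_one Λ S hS hd J, Finset.prod_congr rfl hJ, Finset.prod_const, ← mul_pow,
    ENNReal.mul_inv_cancel hA ENNReal.ofReal_ne_top, one_pow]

private theorem P4c_lint2 (Λ : Measure ℂ) [IsFiniteMeasure Λ] (S : ℤ × ℤ → Set ℂ)
    (hS : ∀ i, MeasurableSet (S i)) (hd : ∀ i j, i ≠ j → Disjoint (S i) (S j))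
    (a : ℝ) (ha : 0 < a) (J : Finset (ℤ × ℤ)) (hJ : ∀ p ∈ J, Λ (S p) = ENNReal.ofReal a) :
    ∫⁻ c, ENNReal.ofReal (P4c_G S a J c ^ 2) ∂(poisson Λ) =
      ENNReal.ofReal ((1 + 1 / a) ^ J.card) := by
  have hA : ENNReal.ofReal a ≠ 0 := by simpa using ha
  have h1 : ∀ c, ENNReal.ofReal (P4c_G S a J c ^ 2) =
      (∏ p ∈ J, cnt (S p) c ^ 2) * (((ENNReal.ofReal a)⁻¹) ^ J.card) ^ 2 := by
    intro c
    rw [ENNReal.ofReal_pow (P4c_G_nonneg S a ha J c), P4c_ofReal S a ha J, mul_pow,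
      Finset.prod_pow]
  simp_rw [h1]
  rw [lintegral_mul_const _ (Finset.measurable_prod J fun p _ => (measurable_cnt (hS p)).pow_const 2),
    moment_two Λ S hS hd J, Finset.prod_congr rfl (g := fun _ => ENNReal.ofReal (a ^ 2 + a))
      (fun p hp => by
        rw [hJ p hp, ENNReal.ofReal_add (sq_nonneg a) ha.le, ENNReal.ofReal_pow ha.le]),
    Finset.prod_const, ← pow_mul, mul_comm J.card 2, pow_mul, ← mul_pow,
    ENNReal.ofReal_pow (by positivity)]
  congr 1
  rw [← ENNReal.ofReal_inv_of_pos ha, ← ENNReal.ofReal_pow (by positivity),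
    ← ENNReal.ofReal_mul (by positivity)]
  congr 1
  field_simp

private theorem P4c_memLp (Λ : Measure ℂ) [IsFiniteMeasure Λ] (S : ℤ × ℤ → Set ℂ)
    (hS : ∀ i, MeasurableSet (S i)) (hd : ∀ i j, i ≠ j → Disjoint (S i) (S j))
    (a : ℝ) (ha : 0 < a) (J : Finset (ℤ × ℤ)) (hJ : ∀ p ∈ J, Λ (S p) = ENNReal.ofReal a) :
    Integrable (P4c_G S a J) (poisson Λ) ∧ Integrable (fun c => P4c_G S a J c ^ 2) (poisson Λ) ∧
      ∫ c, P4c_G S a J c ∂(poisson Λ) = 1 ∧
      ∫ c, P4c_G S a J c ^ 2 ∂(poisson Λ) = (1 + 1 / a) ^ J.card := by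
  have hm := P4c_measurable S hS a J
  have h1 := P4c_lint Λ S hS hd a ha J hJ
  have h2 := P4c_lint2 Λ S hS hd a ha J hJ
  have i1 : Integrable (P4c_G S a J) (poisson Λ) := by
    refine ⟨hm.aestronglyMeasurable, ?_⟩
    rw [hasFiniteIntegral_iff_ofReal (Filter.Eventually.of_forall (P4c_G_nonneg S a ha J)), h1]
    exact ENNReal.one_lt_top
  have i2 : Integrable (fun c => P4c_G S a J c ^ 2) (poisson Λ) := by
    refine ⟨(hm.pow_const 2).aestronglyMeasurable, ?_⟩
    rw [hasFiniteIntegral_iff_ofReal (Filter.Eventually.of_forall fun c => sq_nonneg _), h2]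
    exact ENNReal.ofReal_lt_top
  refine ⟨i1, i2, ?_, ?_⟩
  · rw [integral_eq_lintegral_of_nonneg_ae (Filter.Eventually.of_forall (P4c_G_nonneg S a ha J))
      hm.aestronglyMeasurable, h1, ENNReal.toReal_one]
  · rw [integral_eq_lintegral_of_nonneg_ae (Filter.Eventually.of_forall fun c => sq_nonneg _)
      (hm.pow_const 2).aestronglyMeasurable, h2, ENNReal.toReal_ofReal (by positivity)]

/-- the covariances -/
private theorem P4c_cov (Λ : Measure ℂ) [IsFiniteMeasure Λ] (S : ℤ × ℤ → Set ℂ)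
    (hS : ∀ i, MeasurableSet (S i)) (hd : ∀ i j, i ≠ j → Disjoint (S i) (S j))
    (a : ℝ) (ha : 0 < a) (k : ℕ) (J J' : Finset (ℤ × ℤ))
    (hJ : ∀ p ∈ J, Λ (S p) = ENNReal.ofReal a) (hJ' : ∀ p ∈ J', Λ (S p) = ENNReal.ofReal a)
    (hk : J.card = k) (hk' : J'.card = k) :
    Integrable (fun c => (P4c_G S a J c - 1) * (P4c_G S a J' c - 1)) (poisson Λ) ∧
      ∫ c, (P4c_G S a J c - 1) * (P4c_G S a J' c - 1) ∂(poisson Λ) ≤
        if Disjoint J J' then 0 else (1 + 1 / a) ^ k := by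
  obtain ⟨i1, i2, e1, e2⟩ := P4c_memLp Λ S hS hd a ha J hJ
  obtain ⟨j1, j2, f1, f2⟩ := P4c_memLp Λ S hS hd a ha J' hJ'
  have hprod : Integrable (fun c => P4c_G S a J c * P4c_G S a J' c) (poisson Λ) := by
    refine Integrable.mono' (i2.add j2)
      ((P4c_measurable S hS a J).mul (P4c_measurable S hS a J')).aestronglyMeasurable
      (Filter.Eventually.of_forall fun c => ?_)
    rw [Real.norm_eq_abs, abs_mul]
    simp only [Pi.add_apply]
    rw [← sq_abs (P4c_G S a J c), ← sq_abs (P4c_G S a J' c)]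
    nlinarith [sq_nonneg (|P4c_G S a J c| - |P4c_G S a J' c|), abs_nonneg (P4c_G S a J c),
      abs_nonneg (P4c_G S a J' c)]
  have hfun : (fun c => (P4c_G S a J c - 1) * (P4c_G S a J' c - 1)) =
      fun c => P4c_G S a J c * P4c_G S a J' c - P4c_G S a J c - P4c_G S a J' c + 1 := by
    funext c; ring
  have hint : Integrable (fun c => (P4c_G S a J c - 1) * (P4c_G S a J' c - 1)) (poisson Λ) := by
    rw [hfun]
    exact ((hprod.sub i1).sub j1).add (integrable_const 1)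
  have hval : ∫ c, (P4c_G S a J c - 1) * (P4c_G S a J' c - 1) ∂(poisson Λ) =
      ∫ c, P4c_G S a J c * P4c_G S a J' c ∂(poisson Λ) - 1 := by
    have k1 : Integrable (fun c => P4c_G S a J c * P4c_G S a J' c - P4c_G S a J c) (poisson Λ) :=
      hprod.sub i1
    have k2 : Integrable (fun c => P4c_G S a J c * P4c_G S a J' c - P4c_G S a J c -
      P4c_G S a J' c) (poisson Λ) := k1.sub j1
    rw [hfun, integral_add k2 (integrable_const 1), integral_sub k1 j1, integral_sub hprod i1,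
      e1, f1]
    simp
  refine ⟨hint, ?_⟩
  rw [hval]
  split_ifs with hdis
  · have h3 : (fun c => P4c_G S a J c * P4c_G S a J' c) = P4c_G S a (J ∪ J') := by
      funext c
      unfold P4c_G
      rw [Finset.prod_union hdis]
    have h4 := (P4c_memLp Λ S hS hd a ha (J ∪ J') (by
      intro p hp
      rcases Finset.mem_union.mp hp with h | h
      · exact hJ p h
      · exact hJ' p h)).2.2.1
    rw [h3, h4, sub_self]
  · have h5 : ∫ c, P4c_G S a J c * P4c_G S a J' c ∂(poisson Λ) ≤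
        ∫ c, (1 / 2 : ℝ) * (P4c_G S a J c ^ 2 + P4c_G S a J' c ^ 2) ∂(poisson Λ) := by
      refine integral_mono hprod ((i2.add j2).const_mul _) fun c => ?_
      simp only
      nlinarith [sq_nonneg (P4c_G S a J c - P4c_G S a J' c)]
    rw [integral_const_mul, integral_add i2 j2, e2, f2, hk, hk'] at h5
    linarith

/-- the number of boxes which meet a given one -/
private theorem P4c_count (m : ℕ) (Q : Finset (ℤ × ℤ)) (q : ℤ × ℤ) :
    ((Q.filter fun q' => ¬ Disjoint (box m q) (box m q')).card : ℝ) ≤ (4 * m + 1) ^ 2 := by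
  have h1 : Q.filter (fun q' => ¬ Disjoint (box m q) (box m q')) ⊆ box (2 * m) q := by
    intro q' hq'
    rw [Finset.mem_filter, Finset.not_disjoint_iff] at hq'
    obtain ⟨-, p, hp, hp'⟩ := hq'
    unfold box at hp hp' ⊢
    rw [Finset.mem_Icc, Prod.le_def, Prod.le_def] at hp hp' ⊢
    simp only at hp hp' ⊢
    push_cast
    omega
  have h2 := Finset.card_le_card h1
  rw [card_box] at h2
  have h3 : ((Q.filter fun q' => ¬ Disjoint (box m q) (box m q')).card : ℝ) ≤
      (((2 * (2 * m) + 1) ^ 2 : ℕ) : ℝ) := by exact_mod_cast h2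
  refine h3.trans (le_of_eq ?_)
  push_cast
  ring

/-- the double sum -/
private theorem P4c_double (m : ℕ) (Q : Finset (ℤ × ℤ)) (α : ℤ × ℤ → ℝ) (hα : ∀ q, 0 ≤ α q)
    (V : ℝ) (hV : 0 ≤ V) :
    ∑ q ∈ Q, ∑ q' ∈ Q, α q * α q' * (if Disjoint (box m q) (box m q') then 0 else V) ≤
      (4 * m + 1) ^ 2 * V * ∑ q ∈ Q, α q ^ 2 := by
  have h1 : ∀ q ∈ Q, ∀ q' ∈ Q, α q * α q' * (if Disjoint (box m q) (box m q') then 0 else V) ≤
      (α q ^ 2 / 2) * (if Disjoint (box m q) (box m q') then 0 else V) +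
      (α q' ^ 2 / 2) * (if Disjoint (box m q) (box m q') then 0 else V) := by
    intro q _ q' _
    have h2 : 0 ≤ (if Disjoint (box m q) (box m q') then (0 : ℝ) else V) := by
      split_ifs
      · exact le_rfl
      · exact hV
    rw [← add_mul]
    refine mul_le_mul_of_nonneg_right ?_ h2
    nlinarith [sq_nonneg (α q - α q')]
  have h3 : ∀ q, ∑ q' ∈ Q, (if Disjoint (box m q) (box m q') then (0 : ℝ) else V) ≤
      (4 * m + 1) ^ 2 * V := by
    intro q
    have h4 : ∑ q' ∈ Q, (if Disjoint (box m q) (box m q') then (0 : ℝ) else V) =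
        ((Q.filter fun q' => ¬ Disjoint (box m q) (box m q')).card : ℝ) * V := by
      rw [Finset.card_filter, Nat.cast_sum, Finset.sum_mul]
      refine Finset.sum_congr rfl fun q' _ => ?_
      by_cases h : Disjoint (box m q) (box m q') <;> simp [h]
    rw [h4]
    exact mul_le_mul_of_nonneg_right (P4c_count m Q q) hV
  refine (Finset.sum_le_sum fun q hq => Finset.sum_le_sum fun q' hq' => h1 q hq q' hq').trans ?_
  simp_rw [Finset.sum_add_distrib]
  have h5 : ∑ q ∈ Q, ∑ q' ∈ Q, (α q' ^ 2 / 2) *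
      (if Disjoint (box m q) (box m q') then (0 : ℝ) else V) =
      ∑ q ∈ Q, ∑ q' ∈ Q, (α q ^ 2 / 2) *
      (if Disjoint (box m q) (box m q') then (0 : ℝ) else V) := by
    rw [Finset.sum_comm]
    refine Finset.sum_congr rfl fun q _ => Finset.sum_congr rfl fun q' _ => ?_
    by_cases h : Disjoint (box m q) (box m q')
    · rw [if_pos h, if_pos h.symm]
    · rw [if_neg h, if_neg fun h' => h h'.symm]
  have h6 : ∑ q ∈ Q, ∑ q' ∈ Q, (α q ^ 2 / 2) *
      (if Disjoint (box m q) (box m q') then (0 : ℝ) else V) ≤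
      ∑ q ∈ Q, (α q ^ 2 / 2) * ((4 * m + 1) ^ 2 * V) := by
    refine Finset.sum_le_sum fun q _ => ?_
    rw [← Finset.mul_sum]
    exact mul_le_mul_of_nonneg_left (h3 q) (by positivity)
  rw [h5]
  rw [← Finset.sum_mul, ← Finset.sum_div] at h6
  calc _ ≤ (∑ q ∈ Q, α q ^ 2) / 2 * ((4 * m + 1) ^ 2 * V) +
        (∑ q ∈ Q, α q ^ 2) / 2 * ((4 * m + 1) ^ 2 * V) := add_le_add h6 h6
    _ = _ := by ring

theorem bessel (Λ : Measure ℂ) [IsFiniteMeasure Λ] (S : ℤ × ℤ → Set ℂ)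
    (hS : ∀ i, MeasurableSet (S i)) (hd : ∀ i j, i ≠ j → Disjoint (S i) (S j))
    (a : ℝ) (ha : 0 < a) (m : ℕ) (Q : Finset (ℤ × ℤ))
    (hQ : ∀ q ∈ Q, ∀ p ∈ box m q, Λ (S p) = ENNReal.ofReal a)
    (T : Set ℂ → Prop) (hT : MeasurableSet {c : Conf | T (pts c)})
    (hmono : ∀ X Y, X ⊆ Y → T X → T Y) :
    ∑ q ∈ Q, (poisson Λ {c | ¬ T (pts c) ∧ ∀ z : ℤ × ℤ → ℂ, (∀ p ∈ box m q, z p ∈ S p) →
      T (pts c ∪ z '' ↑(box m q))}).toReal ^ 2 ≤ (4 * m + 1) ^ 2 * (1 + 1 / a) ^ ((2 * m + 1) ^ 2) := by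
  set α : ℤ × ℤ → ℝ := fun q => (poisson Λ {c | ¬ T (pts c) ∧ ∀ z : ℤ × ℤ → ℂ,
    (∀ p ∈ box m q, z p ∈ S p) → T (pts c ∪ z '' ↑(box m q))}).toReal with hα
  have hα0 : ∀ q, 0 ≤ α q := fun q => ENNReal.toReal_nonneg
  set V : ℝ := (1 + 1 / a) ^ ((2 * m + 1) ^ 2) with hV
  have hV0 : 0 < V := by positivity
  set U : Set Conf := {c : Conf | T (pts c)} with hU
  set L : ℝ := (4 * m + 1) ^ 2 * V with hL
  have hL0 : 0 < L := by positivity
  change ∑ q ∈ Q, α q ^ 2 ≤ L
  have hA : ENNReal.ofReal a ≠ 0 := by simpa using ha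
  -- the probability is at most the integral of `g - 1` over `U`
  have hone : ∀ q ∈ Q, α q ≤ ∫ c in U, (P4c_G S a (box m q) c - 1) ∂(poisson Λ) := by
    intro q hq
    obtain ⟨i1, i2, e1, e2⟩ := P4c_memLp Λ S hS hd a ha (box m q) (hQ q hq)
    have h1 := moment_event Λ S hS hd (box m q) T hT hmono
    rw [Finset.prod_congr rfl (hQ q hq), Finset.prod_const] at h1
    have h2 : ∫⁻ c in U, ENNReal.ofReal (P4c_G S a (box m q) c) ∂(poisson Λ) =
        (∫⁻ c in U, ∏ p ∈ box m q, cnt (S p) c ∂(poisson Λ)) *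
          ((ENNReal.ofReal a)⁻¹) ^ (box m q).card := by
      simp_rw [P4c_ofReal S a ha]
      rw [lintegral_mul_const _ (Finset.measurable_prod _ fun p _ => measurable_cnt (hS p))]
    have h3 : poisson Λ U + poisson Λ {c | ¬ T (pts c) ∧ ∀ z : ℤ × ℤ → ℂ,
        (∀ p ∈ box m q, z p ∈ S p) → T (pts c ∪ z '' ↑(box m q))} ≤
        ∫⁻ c in U, ENNReal.ofReal (P4c_G S a (box m q) c) ∂(poisson Λ) := by
      rw [h2]
      calc _ = (ENNReal.ofReal a) ^ (box m q).card * (poisson Λ U + poisson Λ {c | ¬ T (pts c) ∧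
          ∀ z : ℤ × ℤ → ℂ, (∀ p ∈ box m q, z p ∈ S p) → T (pts c ∪ z '' ↑(box m q))}) *
          ((ENNReal.ofReal a)⁻¹) ^ (box m q).card := by
            rw [mul_right_comm, ← mul_pow, ENNReal.mul_inv_cancel hA ENNReal.ofReal_ne_top,
              one_pow, one_mul]
        _ ≤ _ := by gcongr
    have h4 := ENNReal.toReal_mono (i1.integrableOn (s := U)).lintegral_lt_top.ne h3
    rw [ENNReal.toReal_add (measure_ne_top _ _) (measure_ne_top _ _)] at h4
    have h5 : ∫ c in U, P4c_G S a (box m q) c ∂(poisson Λ) =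
        (∫⁻ c in U, ENNReal.ofReal (P4c_G S a (box m q) c) ∂(poisson Λ)).toReal :=
      integral_eq_lintegral_of_nonneg_ae (Filter.Eventually.of_forall (P4c_G_nonneg S a ha _))
        (P4c_measurable S hS a _).aestronglyMeasurable
    have h6 : ∫ c in U, (P4c_G S a (box m q) c - 1) ∂(poisson Λ) =
        ∫ c in U, P4c_G S a (box m q) c ∂(poisson Λ) - (poisson Λ U).toReal := by
      rw [integral_sub (i1.integrableOn (s := U)) (integrable_const (1 : ℝ))]
      simp [Measure.real]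
    rw [h6, h5]
    have h7 : α q = (poisson Λ {c | ¬ T (pts c) ∧ ∀ z : ℤ × ℤ → ℂ,
        (∀ p ∈ box m q, z p ∈ S p) → T (pts c ∪ z '' ↑(box m q))}).toReal := rfl
    linarith
  -- the function `h`
  set H : Conf → ℝ := fun c => ∑ q ∈ Q, α q * (P4c_G S a (box m q) c - 1) with hH
  have hcov := fun q (hq : q ∈ Q) q' (hq' : q' ∈ Q) =>
    P4c_cov Λ S hS hd a ha ((2 * m + 1) ^ 2) (box m q) (box m q') (hQ q hq) (hQ q' hq')
      (card_box m q) (card_box m q')
  have hsq : (fun c => H c ^ 2) = fun c => ∑ q ∈ Q, ∑ q' ∈ Q, (α q * α q') *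
      ((P4c_G S a (box m q) c - 1) * (P4c_G S a (box m q') c - 1)) := by
    funext c
    rw [hH, pow_two]
    simp only
    rw [Finset.sum_mul_sum]
    refine Finset.sum_congr rfl fun q _ => Finset.sum_congr rfl fun q' _ => ?_
    ring
  have hHi : ∀ q ∈ Q, Integrable (fun c => α q * (P4c_G S a (box m q) c - 1)) (poisson Λ) :=
    fun q hq => (((P4c_memLp Λ S hS hd a ha (box m q) (hQ q hq)).1).sub
      (integrable_const 1)).const_mul _
  have hHint : Integrable H (poisson Λ) := integrable_finsetSum Q hHi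
  have hi2 : Integrable (fun c => H c ^ 2) (poisson Λ) := by
    rw [hsq]
    exact integrable_finsetSum Q fun q hq => integrable_finsetSum Q fun q' hq' =>
      ((hcov q hq q' hq').1).const_mul _
  have hM : ∫ c, H c ^ 2 ∂(poisson Λ) ≤ L * ∑ q ∈ Q, α q ^ 2 := by
    rw [hsq, integral_finsetSum Q fun q hq => integrable_finsetSum Q fun q' hq' =>
      ((hcov q hq q' hq').1).const_mul _]
    refine le_trans (Finset.sum_le_sum (g := fun q => ∑ q' ∈ Q, α q * α q' *
      (if Disjoint (box m q) (box m q') then 0 else V)) fun q hq => ?_)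
      (P4c_double m Q α hα0 V hV0.le)
    rw [integral_finsetSum Q fun q' hq' => ((hcov q hq q' hq').1).const_mul _]
    refine Finset.sum_le_sum fun q' hq' => ?_
    rw [integral_const_mul]
    exact mul_le_mul_of_nonneg_left (hcov q hq q' hq').2 (mul_nonneg (hα0 q) (hα0 q'))
  have hS1 : ∑ q ∈ Q, α q ^ 2 ≤ ∫ c in U, H c ∂(poisson Λ) := by
    rw [hH, integral_finsetSum Q fun q hq => (hHi q hq).integrableOn]
    refine Finset.sum_le_sum fun q hq => ?_
    rw [integral_const_mul, pow_two]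
    exact mul_le_mul_of_nonneg_left (hone q hq) (hα0 q)
  have hS2 : ∫ c in U, H c ∂(poisson Λ) ≤ ∫ c, (H c ^ 2 / (2 * L) + L / 2) ∂(poisson Λ) := by
    rw [← integral_indicator hT]
    refine integral_mono (hHint.indicator hT) ((hi2.div_const _).add (integrable_const _))
      fun c => ?_
    have h1 : H c ≤ H c ^ 2 / (2 * L) + L / 2 := by
      rw [div_add_div _ _ (by positivity) (by positivity), le_div_iff₀ (by positivity)]
      nlinarith [sq_nonneg (H c - L)]
    by_cases hc : c ∈ U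
    · rw [indicator_of_mem hc]; exact h1
    · rw [indicator_of_notMem hc]; positivity
  have hS3 : ∫ c, (H c ^ 2 / (2 * L) + L / 2) ∂(poisson Λ) =
      (∫ c, H c ^ 2 ∂(poisson Λ)) / (2 * L) + L / 2 := by
    rw [integral_add (hi2.div_const _) (integrable_const _), integral_div]
    simp
  have hS4 : (∫ c, H c ^ 2 ∂(poisson Λ)) / (2 * L) ≤ (∑ q ∈ Q, α q ^ 2) / 2 := by
    rw [div_le_div_iff₀ (by positivity) (by positivity)]
    nlinarith
  linarith

end MP412
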