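import Pool.Agent.Lib.MP_412417_pr.P3
import Pool.Agent.Lib.MP_412417_pr.P4c
import Pool.Agent.Lib.MP_412417_pr.G1
import Pool.Agent.Lib.MP_412417_pr.G3
import Pool.Agent.Lib.MP_412417_pr.G4
import Pool.Agent.Lib.MP_412417_pr.L0

/-!
Row 412-G5: one step of the radius of the links.

Put `e = r δ / 40`, squares `sq e p`, `a = (e / δ)^2 = r^2 / 1600`, `m = 300`, and let `Q` be the (finite) set of `q` such that
`sq e q` meets `cthickening s K`; for small `δ` all squares of `box m q` are in `N` (`box_sq`), so `lam δ N (sq e p) = a`;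
`Q.card ≤ C / δ^2` (`card_sq`). Let `D = P(Chain w ∧ ¬ Chain v)`. If `c` is in this event then a chain at level `w` uses a link `x, y`
(two different indices) with `v < dist x y ≤ w`; take out these two points (`exists_isIns`): `c'`. Then `¬ Chain v (pts c')`
(`chain_mono`), and if `x ∈ sq e q`, then `q ∈ Q` (a linked point is at distance at most `s` from `K`) and for all `z` with
`z p ∈ sq e p` for `p ∈ box m q`: `Chain w (pts c' ∪ z '' box m q)` (`chain_net` with `ε = 2 e`, `net_sq`, `dist_sq`; `s + w ≤ 6 r δ = 240 e`).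
So `D ≤ ∑ q ∈ Q, (lam × lam) {(x, y) | x ∈ sq e q, v < dist x y ≤ w} * P (A q)` (`pair_le`), the first factor is at most
`C (w - v) / δ`, and `P (A q) ≤ α q + D` where `α q` is the probability in `bessel` for `T = Chain w`, and
`∑ α q ≤ √(Q.card) √(∑ (α q)^2) ≤ C / δ`, `∑ D ≤ C D / δ^2`.
-/

set_option autoImplicit false

open MeasureTheory Set
open scoped ENNReal Pointwise

namespace MP412

/-- a link which is used at level `w` but not at level `v` -/
private theorem G5_find {w v s : ℝ} {K A B X : Set ℂ} (h : Chain w s K A B X)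
    (h' : ¬ Chain v s K A B X) :
    ∃ x ∈ X, ∃ y ∈ X, v < dist x y ∧ dist x y ≤ w ∧ ∃ q ∈ K, dist x q ≤ s ∧ dist y q ≤ s := by
  by_contra hcon
  apply h'
  obtain ⟨x, hx, y, hy, ha, hb, hr⟩ := h
  refine ⟨x, hx, y, hy, ha, hb, Relation.ReflTransGen.mono ?_ x y hr⟩
  rintro a b ⟨ha', hb', hl1, hl2⟩
  refine ⟨ha', hb', ?_, hl2⟩
  by_contra hd
  exact hcon ⟨a, ha', b, hb', not_le.1 hd, hl1, hl2⟩

private theorem G5_meas (e v w : ℝ) (q : ℤ × ℤ) :
    MeasurableSet {p : ℂ × ℂ | p.1 ∈ sq e q ∧ v < dist p.1 p.2 ∧ dist p.1 p.2 ≤ w} := by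
  have h1 : MeasurableSet {p : ℂ × ℂ | p.1 ∈ sq e q} := measurable_fst (measurableSet_sq e q)
  have h2 : MeasurableSet {p : ℂ × ℂ | v < dist p.1 p.2} :=
    measurableSet_lt measurable_const (measurable_fst.dist measurable_snd)
  have h3 : MeasurableSet {p : ℂ × ℂ | dist p.1 p.2 ≤ w} :=
    measurableSet_le (measurable_fst.dist measurable_snd) measurable_const
  exact h1.inter (h2.inter h3)

private theorem G5_ann (x : ℂ) {v w : ℝ} (hv : 0 ≤ v) (hvw : v ≤ w) :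
    volume {y : ℂ | v < dist x y ∧ dist x y ≤ w} ≤ ENNReal.ofReal (Real.pi * (w ^ 2 - v ^ 2)) := by
  have hsub : {y : ℂ | v < dist x y ∧ dist x y ≤ w} ⊆
      Metric.closedBall x w \ Metric.closedBall x v := by
    rintro y ⟨h1, h2⟩
    refine ⟨?_, ?_⟩
    · rw [Metric.mem_closedBall, dist_comm]; exact h2
    · rw [Metric.mem_closedBall, dist_comm]; exact not_le.2 h1
  refine (measure_mono hsub).trans ?_
  rw [measure_sdiff (Metric.closedBall_subset_closedBall hvw)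
    Metric.isClosed_closedBall.measurableSet.nullMeasurableSet measure_closedBall_lt_top.ne,
    Complex.volume_closedBall, Complex.volume_closedBall]
  have hpi : (NNReal.pi : ℝ≥0∞) = ENNReal.ofReal Real.pi := by
    rw [ENNReal.ofReal, ← NNReal.coe_real_pi, Real.toNNReal_coe]
  have hw : 0 ≤ w := hv.trans hvw
  rw [hpi, ← ENNReal.ofReal_pow hw, ← ENNReal.ofReal_pow hv, ← ENNReal.ofReal_mul (by positivity),
    ← ENNReal.ofReal_mul (by positivity), ← ENNReal.ofReal_sub _ (by positivity)]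
  apply le_of_eq
  congr 1
  ring

private theorem G5_vol {e v w : ℝ} (he : 0 < e) (hv : 0 ≤ v) (hvw : v ≤ w) (q : ℤ × ℤ) :
    ((volume : Measure ℂ).prod volume)
      {p : ℂ × ℂ | p.1 ∈ sq e q ∧ v < dist p.1 p.2 ∧ dist p.1 p.2 ≤ w} ≤
      ENNReal.ofReal (Real.pi * (w ^ 2 - v ^ 2)) * ENNReal.ofReal (e ^ 2) := by
  rw [Measure.prod_apply (G5_meas e v w q)]
  have h : ∀ x : ℂ, volume (Prod.mk x ⁻¹'
      {p : ℂ × ℂ | p.1 ∈ sq e q ∧ v < dist p.1 p.2 ∧ dist p.1 p.2 ≤ w}) ≤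
      (sq e q).indicator (fun _ => ENNReal.ofReal (Real.pi * (w ^ 2 - v ^ 2))) x := by
    intro x
    by_cases hx : x ∈ sq e q
    · rw [indicator_of_mem hx]
      refine (measure_mono ?_).trans (G5_ann x hv hvw)
      rintro y ⟨_, h2⟩
      exact h2
    · rw [indicator_of_notMem hx]
      have : Prod.mk x ⁻¹'
          {p : ℂ × ℂ | p.1 ∈ sq e q ∧ v < dist p.1 p.2 ∧ dist p.1 p.2 ≤ w} = ∅ := by
        apply eq_empty_of_forall_notMem
        rintro y ⟨h1, _⟩
        exact hx h1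
      rw [this, measure_empty]
  refine (lintegral_mono h).trans ?_
  rw [lintegral_indicator (measurableSet_sq e q), setLIntegral_const, volume_sq he]

/-- the event is covered by the pair events -/
private theorem G5_cover {e s v w : ℝ} (he : 0 < e) (hs : 0 < s) (h1 : s + 2 * e ≤ w)
    (h2 : 3 * (2 * e) ≤ w) (h3 : 2 * (2 * e) ≤ s) (hv : 0 ≤ v) (m : ℕ) (hm : s + w ≤ m * e - e)
    (K A B : Set ℂ) (hKc : Convex ℝ K) (hAK : A ⊆ K) (hBK : B ⊆ K) (Q : Finset (ℤ × ℤ))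
    (hQ : ∀ q, (∃ x ∈ sq e q, ∃ k ∈ K, dist x k ≤ s) → q ∈ Q) :
    {c | Chain w s K A B (pts c) ∧ ¬ Chain v s K A B (pts c)} ⊆
      ⋃ q ∈ Q, {c | ∃ x y c' c'', IsIns c x c'' ∧ IsIns c'' y c' ∧
        (x, y) ∈ {p : ℂ × ℂ | p.1 ∈ sq e q ∧ v < dist p.1 p.2 ∧ dist p.1 p.2 ≤ w} ∧
        c' ∈ {c' : Conf | ¬ Chain v s K A B (pts c') ∧ ∀ z : ℤ × ℤ → ℂ,
          (∀ p ∈ box m q, z p ∈ sq e p) → Chain w s K A B (pts c' ∪ z '' ↑(box m q))}} := by
  rintro c ⟨hc1, hc2⟩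
  obtain ⟨x, hx, y, hy, hd1, hd2, k, hk, hxk, hyk⟩ := G5_find hc1 hc2
  obtain ⟨i, rfl⟩ := hx
  obtain ⟨j, rfl⟩ := hy
  have hij : i ≠ j := by
    rintro rfl
    rw [dist_self] at hd1
    linarith
  obtain ⟨c', c'', hi1, hi2⟩ := exists_isIns hij
  obtain ⟨q, hq⟩ := exists_sq he (c.2 i)
  have hpts : pts c = pts c' ∪ {c.2 i, c.2 j} := by
    rw [hi1.pts_eq, hi2.pts_eq]
    ext t
    simp only [mem_insert_iff, mem_union, mem_singleton_iff]
    tauto
  simp only [mem_iUnion]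
  refine ⟨q, hQ q ⟨_, hq, k, hk, hxk⟩, c.2 i, c.2 j, c', c'', hi1, hi2, ⟨hq, hd1, hd2⟩, ?_, ?_⟩
  · intro hch
    apply hc2
    refine chain_mono le_rfl ?_ hch
    rw [hpts]
    exact subset_union_left
  · intro z hz
    refine chain_net w s (2 * e) (by positivity) h1 h2 h3 K A B hKc hAK hBK (pts c') _
      (c.2 i) (c.2 j) (by rw [← hpts]; exact hc1) ?_
    intro p hp
    obtain ⟨p', hp', hpp⟩ := net_sq (m := m) he hq (w := p) (by linarith)
    exact ⟨z p', ⟨p', hp', rfl⟩, dist_sq (hz p' hp') hpp⟩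

private theorem G5_sum {Q : Finset (ℤ × ℤ)} (α : ℤ × ℤ → ℝ) (V : ℝ)
    (h : ∑ q ∈ Q, α q ^ 2 ≤ V) : ∑ q ∈ Q, α q ≤ Real.sqrt (Q.card * V) := by
  apply Real.le_sqrt_of_sq_le
  refine (sq_sum_le_card_mul_sum_sq).trans ?_
  exact mul_le_mul_of_nonneg_left h (Nat.cast_nonneg _)

theorem step (r : ℝ) (hr : 0 < r) (K N A B : Set ℂ) (hK : IsCompact K) (hKc : Convex ℝ K)
    (hA : IsCompact A) (hAK : A ⊆ K) (hB : IsCompact B) (hBK : B ⊆ K) (hN : MeasurableSet N)
    (hNb : Bornology.IsBounded N) (ρ : ℝ) (hρ : 0 < ρ) (hKN : Metric.cthickening ρ K ⊆ N) :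
    ∃ C δ₀ : ℝ, 0 < C ∧ 0 < δ₀ ∧ ∀ δ, 0 < δ → δ ≤ δ₀ → ∀ s v w : ℝ, r * δ / 2 ≤ s →
      s ≤ 2 * r * δ → 3 / 2 * s ≤ v → v ≤ w → w ≤ 2 * s →
      (poisson (lam δ N) {c | Chain w s K A B (pts c) ∧ ¬ Chain v s K A B (pts c)}).toReal ≤
        C * (w - v) / δ ^ 2 * (1 + (poisson (lam δ N)
          {c | Chain w s K A B (pts c) ∧ ¬ Chain v s K A B (pts c)}).toReal / δ) := by
  classical
  obtain ⟨m, hm⟩ : ∃ m : ℕ, m = 300 := ⟨_, rfl⟩
  have hmr : (m : ℝ) = 300 := by rw [hm]; norm_num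
  -- a ball which contains `N`
  obtain ⟨R, hR, hNR⟩ : ∃ R : ℝ, 0 < R ∧ N ⊆ Metric.closedBall 0 R := by
    obtain ⟨R, hR⟩ := hNb.subset_closedBall 0
    exact ⟨max R 1, lt_max_of_lt_right one_pos,
      hR.trans (Metric.closedBall_subset_closedBall (le_max_left _ _))⟩
  obtain ⟨C1, hC1, hcard⟩ := card_sq R hR
  -- the constant of the l2 inequality
  obtain ⟨V, hV⟩ : ∃ V : ℝ, V = (4 * (m : ℝ) + 1) ^ 2 * (1 + 1 / (r ^ 2 / 1600)) ^ ((2 * m + 1) ^ 2) :=
    ⟨_, rfl⟩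
  have hV0 : 0 ≤ V := by rw [hV]; positivity
  set C4 : ℝ := 1600 * C1 / r ^ 2 with hC4
  have hC4p : 0 < C4 := by positivity
  set C3 : ℝ := Real.sqrt (C4 * V) with hC3
  have hC3p : 0 ≤ C3 := Real.sqrt_nonneg _
  set C2 : ℝ := Real.pi * r ^ 3 / 200 with hC2
  have hC2p : 0 < C2 := by have := Real.pi_pos; positivity
  refine ⟨C2 * (C3 + C4) + 1, min (ρ / (18 * r)) (40 / r), by positivity,
    lt_min (by positivity) (by positivity), ?_⟩
  intro δ hδ hδ0 s v w hs1 hs2 hv hvw hw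
  have hδ1 : δ ≤ ρ / (18 * r) := hδ0.trans (min_le_left _ _)
  have hδ2 : δ ≤ 40 / r := hδ0.trans (min_le_right _ _)
  rw [le_div_iff₀ (by positivity)] at hδ1 hδ2
  have hrδ : 0 < r * δ := mul_pos hr hδ
  set e : ℝ := r * δ / 40 with he
  have he0 : 0 < e := by positivity
  have he1 : e ≤ 1 := by rw [he]; linarith
  have hs0 : 0 < s := by linarith
  have hv0 : 0 ≤ v := by linarith
  have hfin : IsFiniteMeasure (lam δ N) := isFiniteMeasure_lam δ hNb
  -- the squares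
  have hsubN : ∀ q, (∃ x ∈ sq e q, ∃ k ∈ K, dist x k ≤ s) → ∀ p ∈ box m q, sq e p ⊆ N := by
    rintro q ⟨x, hx, k, hk, hxk⟩ p hp z hz
    apply hKN
    refine Metric.mem_cthickening_of_dist_le z k ρ K hk ?_
    have h1 := box_sq he0 hp hx hz
    have h2 := dist_triangle z x k
    rw [hmr] at h1
    have h3 : 2 * (300 + 1) * e ≤ 15.05 * (r * δ) := by rw [he]; linarith
    have h4 : 15.05 * (r * δ) + 2 * (r * δ) ≤ ρ := by nlinarith
    have h5 : s ≤ 2 * (r * δ) := by linarith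
    linarith
  have hqfin : {q : ℤ × ℤ | ∃ x ∈ sq e q, ∃ k ∈ K, dist x k ≤ s}.Finite := by
    refine (finite_sq he0 R).subset ?_
    rintro q ⟨x, hx, k, hk, hxk⟩
    refine ⟨x, hx, hNR (hKN ?_)⟩
    refine Metric.mem_cthickening_of_dist_le x k ρ K hk ?_
    have : s ≤ 2 * (r * δ) := by linarith
    nlinarith
  set Q : Finset (ℤ × ℤ) := hqfin.toFinset with hQdef
  have hQm : ∀ q, q ∈ Q ↔ ∃ x ∈ sq e q, ∃ k ∈ K, dist x k ≤ s := by
    intro q
    rw [hQdef, Set.Finite.mem_toFinset]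
    rfl
  have hQc : (Q.card : ℝ) ≤ C4 / δ ^ 2 := by
    refine (hcard e he0 he1 Q ?_).trans ?_
    · intro q hq
      obtain ⟨x, hx, k, hk, hxk⟩ := (hQm q).1 hq
      refine ⟨x, hx, hNR (hKN ?_)⟩
      refine Metric.mem_cthickening_of_dist_le x k ρ K hk ?_
      have : s ≤ 2 * (r * δ) := by linarith
      nlinarith
    · apply le_of_eq
      rw [hC4, he]
      field_simp
      ring
  have hlamsq : ∀ q ∈ Q, ∀ p ∈ box m q, lam δ N (sq e p) = ENNReal.ofReal (r ^ 2 / 1600) := by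
    intro q hq p hp
    rw [lam_apply δ N _ (measurableSet_sq e p),
      inter_eq_left.2 (hsubN q ((hQm q).1 hq) p hp), volume_sq he0,
      ← ENNReal.ofReal_mul (by positivity)]
    congr 1
    rw [he]
    field_simp
    ring
  set D : ℝ≥0∞ := poisson (lam δ N) {c | Chain w s K A B (pts c) ∧ ¬ Chain v s K A B (pts c)}
    with hD
  have hDt : D ≠ ⊤ := measure_ne_top _ _
  set α : ℤ × ℤ → ℝ≥0∞ := fun q => poisson (lam δ N) {c | ¬ Chain w s K A B (pts c) ∧
    ∀ z : ℤ × ℤ → ℂ, (∀ p ∈ box m q, z p ∈ sq e p) → Chain w s K A B (pts c ∪ z '' ↑(box m q))}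
    with hα
  have hαt : ∀ q, α q ≠ ⊤ := fun q => measure_ne_top _ _
  have hbes : ∑ q ∈ Q, (α q).toReal ^ 2 ≤ V := by
    rw [hV]
    exact bessel (lam δ N) (fun p => sq e p) (fun p => measurableSet_sq e p)
      (fun p q h => disjoint_sq he0 h) (r ^ 2 / 1600) (by positivity) m Q hlamsq
      (fun X => Chain w s K A B X) (measurableSet_chain w s K A B hK hA hB)
      (fun X Y hXY h => chain_mono le_rfl hXY h)
  -- the covering
  have hcov := G5_cover (v := v) (w := w) he0 hs0 (by rw [he]; linarith) (by rw [he]; linarith)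
    (by rw [he]; linarith) hv0 m (by rw [hmr, he]; linarith) K A B hKc hAK hBK Q
    (fun q hq => (hQm q).2 hq)
  have hS : ∀ q, ((lam δ N).prod (lam δ N))
      {p : ℂ × ℂ | p.1 ∈ sq e q ∧ v < dist p.1 p.2 ∧ dist p.1 p.2 ≤ w} ≤
      ENNReal.ofReal (C2 * (w - v) / δ) := by
    intro q
    refine (lam_prod_le δ N _).trans ?_
    refine (mul_le_mul_right (G5_vol he0 hv0 hvw q) _).trans ?_
    have hnn : 0 ≤ w ^ 2 - v ^ 2 := by nlinarith
    rw [← ENNReal.ofReal_mul (by have := Real.pi_pos; positivity),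
      ← ENNReal.ofReal_mul (by positivity)]
    apply ENNReal.ofReal_le_ofReal
    have h1 : w ^ 2 - v ^ 2 ≤ (w - v) * (8 * (r * δ)) := by
      have : w ^ 2 - v ^ 2 = (w - v) * (w + v) := by ring
      rw [this]
      apply mul_le_mul_of_nonneg_left _ (by linarith)
      linarith
    have h2 : δ⁻¹ ^ 4 * (Real.pi * (w ^ 2 - v ^ 2) * e ^ 2) ≤
        δ⁻¹ ^ 4 * (Real.pi * ((w - v) * (8 * (r * δ))) * e ^ 2) := by
      apply mul_le_mul_of_nonneg_left _ (by positivity)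
      apply mul_le_mul_of_nonneg_right _ (by positivity)
      exact mul_le_mul_of_nonneg_left h1 Real.pi_pos.le
    refine h2.trans (le_of_eq ?_)
    rw [hC2, he]
    field_simp
    ring
  have hT : ∀ q, poisson (lam δ N) {c' : Conf | ¬ Chain v s K A B (pts c') ∧ ∀ z : ℤ × ℤ → ℂ,
      (∀ p ∈ box m q, z p ∈ sq e p) → Chain w s K A B (pts c' ∪ z '' ↑(box m q))} ≤ α q + D := by
    intro q
    refine (measure_mono ?_).trans (measure_union_le _ _)
    rintro c ⟨h1, h2⟩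
    by_cases h : Chain w s K A B (pts c)
    · exact Or.inr ⟨h, h1⟩
    · exact Or.inl ⟨h, h2⟩
  have hmain : D ≤ ∑ q ∈ Q, ENNReal.ofReal (C2 * (w - v) / δ) * (α q + D) := by
    refine (measure_mono hcov).trans ((measure_biUnion_finset_le _ _).trans ?_)
    apply Finset.sum_le_sum
    intro q _
    refine (pair_le (lam δ N) _ (G5_meas e v w q) _).trans ?_
    exact mul_le_mul' (hS q) (hT q)
  have hx0 : 0 ≤ C2 * (w - v) / δ := div_nonneg (mul_nonneg hC2p.le (by linarith)) hδ.le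
  have hreal : D.toReal ≤ C2 * (w - v) / δ * (∑ q ∈ Q, (α q).toReal + Q.card * D.toReal) := by
    have h1 : (∑ q ∈ Q, ENNReal.ofReal (C2 * (w - v) / δ) * (α q + D)) ≠ ⊤ := by
      apply ENNReal.sum_ne_top.2
      intro q _
      exact ENNReal.mul_ne_top ENNReal.ofReal_ne_top (ENNReal.add_ne_top.2 ⟨hαt q, hDt⟩)
    have h2 := ENNReal.toReal_mono h1 hmain
    refine h2.trans (le_of_eq ?_)
    rw [ENNReal.toReal_sum (fun q _ => ENNReal.mul_ne_top ENNReal.ofReal_ne_top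
      (ENNReal.add_ne_top.2 ⟨hαt q, hDt⟩))]
    have h3 : ∀ q ∈ Q, (ENNReal.ofReal (C2 * (w - v) / δ) * (α q + D)).toReal =
        C2 * (w - v) / δ * ((α q).toReal + D.toReal) := by
      intro q _
      rw [ENNReal.toReal_mul, ENNReal.toReal_ofReal hx0, ENNReal.toReal_add (hαt q) hDt]
    rw [Finset.sum_congr rfl h3, ← Finset.mul_sum, Finset.sum_add_distrib, Finset.sum_const,
      nsmul_eq_mul]
  have hsum : ∑ q ∈ Q, (α q).toReal ≤ C3 / δ := by
    refine (G5_sum (fun q => (α q).toReal) V hbes).trans ?_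
    have h1 : (Q.card : ℝ) * V ≤ C4 * V / δ ^ 2 := by
      have := mul_le_mul_of_nonneg_right hQc hV0
      refine this.trans (le_of_eq ?_)
      ring
    refine (Real.sqrt_le_sqrt h1).trans (le_of_eq ?_)
    rw [Real.sqrt_div (by positivity), Real.sqrt_sq hδ.le]
  have hD0 : 0 ≤ D.toReal := ENNReal.toReal_nonneg
  have hfinal : C2 * (w - v) / δ * (∑ q ∈ Q, (α q).toReal + Q.card * D.toReal) ≤
      C2 * (w - v) / δ * (C3 / δ + C4 / δ ^ 2 * D.toReal) := by
    apply mul_le_mul_of_nonneg_left _ hx0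
    apply add_le_add hsum
    exact mul_le_mul_of_nonneg_right hQc hD0
  refine hreal.trans (hfinal.trans ?_)
  have hwv : 0 ≤ w - v := by linarith
  have e1 : C2 * (w - v) / δ * (C3 / δ + C4 / δ ^ 2 * D.toReal) =
      (w - v) / δ ^ 2 * (C2 * C3 + C2 * C4 * (D.toReal / δ)) := by
    field_simp
  have e2 : (C2 * (C3 + C4) + 1) * (w - v) / δ ^ 2 * (1 + D.toReal / δ) =
      (w - v) / δ ^ 2 * ((C2 * (C3 + C4) + 1) * (1 + D.toReal / δ)) := by
    ring
  rw [e1, e2]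
  apply mul_le_mul_of_nonneg_left _ (by positivity)
  have hy : 0 ≤ D.toReal / δ := by positivity
  have p1 : 0 ≤ C2 * C4 := by positivity
  have p2 : 0 ≤ C2 * C3 := by positivity
  nlinarith [mul_nonneg p2 hy]

end MP412
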