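import Pool.Agent.Lib.MP_412417_pr.Defs

/-!
Row 412-P0: elementary facts on configurations.
-/

set_option autoImplicit false

open MeasureTheory Set
open scoped ENNReal Pointwise

namespace MP412

private theorem P0_meas_iff (T : Set Conf) :
    MeasurableSet T ↔
      ∀ k : ℕ, MeasurableSet ((fun y : Fin k → ℂ => (⟨k, y⟩ : Conf)) ⁻¹' T) := by
  constructor
  · intro h k
    exact (MeasurableSpace.measurableSet_iInf.1 h) k
  · intro h
    exact MeasurableSpace.measurableSet_iInf.2 h

private theorem P0_mk (k : ℕ) : Measurable (fun y : Fin k → ℂ => (⟨k, y⟩ : Conf)) := by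
  intro T hT
  exact (P0_meas_iff T).1 hT k

private theorem P0_out {α : Type} [MeasurableSpace α] {f : Conf → α}
    (h : ∀ k : ℕ, Measurable fun y : Fin k → ℂ => f ⟨k, y⟩) : Measurable f := by
  intro T hT
  rw [P0_meas_iff]
  intro k
  exact h k hT

theorem pts_cons (x : ℂ) (c : Conf) : pts (cons x c) = insert x (pts c) := by
  exact Fin.range_cons x c.2

theorem pts_mapConf (g : ℂ → ℂ) (c : Conf) : pts (mapConf g c) = g '' pts c := by
  exact Set.range_comp g c.2

theorem IsIns.pts_eq {c c' : Conf} {x : ℂ} (h : IsIns c x c') : pts c = insert x (pts c') := by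
  obtain ⟨k, i, y, rfl, rfl, rfl⟩ := h
  ext z
  constructor
  · rintro ⟨j, rfl⟩
    by_cases hj : j = i
    · subst hj
      exact Or.inl rfl
    · obtain ⟨j', hj'⟩ := Fin.exists_succAbove_eq hj
      refine Or.inr ⟨j', ?_⟩
      show y (i.succAbove j') = y j
      rw [hj']
  · rintro (rfl | ⟨j, rfl⟩)
    · exact ⟨i, rfl⟩
    · exact ⟨i.succAbove j, rfl⟩

theorem IsIns.cnt_eq {c c' : Conf} {x : ℂ} (h : IsIns c x c') (S : Set ℂ) :
    cnt S c = S.indicator 1 x + cnt S c' := by
  obtain ⟨k, i, y, rfl, rfl, rfl⟩ := h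
  exact Fin.sum_univ_succAbove (fun j => S.indicator 1 (y j)) i

theorem isIns_cons (x : ℂ) (c : Conf) : IsIns (cons x c) x c := by
  obtain ⟨k, y⟩ := c
  refine ⟨k, 0, Fin.cons x y, rfl, rfl, ?_⟩
  have h : (fun j => (Fin.cons x y : Fin (k + 1) → ℂ) ((0 : Fin (k + 1)).succAbove j)) = y := by
    funext j
    rw [Fin.zero_succAbove, Fin.cons_succ]
  rw [h]

/-- two different points can be taken out -/
theorem exists_isIns {c : Conf} {i j : Fin c.1} (h : i ≠ j) :
    ∃ c' c'' : Conf, IsIns c (c.2 i) c'' ∧ IsIns c'' (c.2 j) c' := by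
  obtain ⟨k, y⟩ := c
  cases k with
  | zero => exact i.elim0
  | succ m =>
    obtain ⟨j', hj'⟩ := Fin.exists_succAbove_eq (Ne.symm h)
    cases m with
    | zero => exact j'.elim0
    | succ l =>
      refine ⟨⟨l, fun a => y (i.succAbove (j'.succAbove a))⟩, ⟨l + 1, fun a => y (i.succAbove a)⟩,
        ⟨l + 1, i, y, rfl, rfl, rfl⟩, ⟨l, j', fun a => y (i.succAbove a), rfl, ?_, rfl⟩⟩
      show y j = y (i.succAbove j')
      rw [hj']

theorem finite_pts (c : Conf) : (pts c).Finite := by
  exact Set.finite_range _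

private noncomputable def P0_proj (k : ℕ) (c : Conf) : Fin k → ℂ :=
  if h : c.1 = k then fun i => c.2 (Fin.cast h.symm i) else 0

private theorem P0_proj_meas (k : ℕ) : Measurable (P0_proj k) := by
  refine P0_out fun l => ?_
  by_cases h : l = k
  · subst h
    have e : (fun y : Fin l → ℂ => P0_proj l ⟨l, y⟩) = fun y => y := by
      funext y
      unfold P0_proj
      rw [dif_pos rfl]
      rfl
    rw [e]
    exact measurable_id
  · have e : (fun y : Fin l → ℂ => P0_proj k ⟨l, y⟩) = fun _ => 0 := by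
      funext y
      unfold P0_proj
      rw [dif_neg h]
    rw [e]
    exact measurable_const

private theorem P0_proj_eq (c : Conf) : (⟨c.1, P0_proj c.1 c⟩ : Conf) = c := by
  obtain ⟨k, y⟩ := c
  unfold P0_proj
  rw [dif_pos rfl]
  rfl

private theorem P0_fst_meas : Measurable fun c : Conf => c.1 := by
  exact P0_out fun k => measurable_const

theorem measurable_cons : Measurable fun p : ℂ × Conf => cons p.1 p.2 := by
  intro T hT
  have e : (fun p : ℂ × Conf => cons p.1 p.2) ⁻¹' T = ⋃ k : ℕ, ({p : ℂ × Conf | p.2.1 = k} ∩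
      (fun p : ℂ × Conf => (⟨k + 1, Fin.cons p.1 (P0_proj k p.2)⟩ : Conf)) ⁻¹' T) := by
    ext p
    simp only [mem_iUnion, mem_inter_iff, mem_preimage, mem_ofPred_eq]
    obtain ⟨x, ⟨k, y⟩⟩ := p
    constructor
    · intro h
      refine ⟨k, rfl, ?_⟩
      have e : P0_proj k ⟨k, y⟩ = y := by
        unfold P0_proj
        rw [dif_pos rfl]
        rfl
      show (⟨k + 1, Fin.cons x (P0_proj k ⟨k, y⟩)⟩ : Conf) ∈ T
      rw [e]
      exact h
    · rintro ⟨l, hl, h⟩
      have hl' : k = l := hl
      subst hl'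
      have e : P0_proj k ⟨k, y⟩ = y := by
        unfold P0_proj
        rw [dif_pos rfl]
        rfl
      have h' : (⟨k + 1, Fin.cons x (P0_proj k ⟨k, y⟩)⟩ : Conf) ∈ T := h
      rw [e] at h'
      exact h'
  rw [e]
  refine MeasurableSet.iUnion fun k => MeasurableSet.inter ?_ ?_
  · exact (P0_fst_meas.comp measurable_snd) (measurableSet_singleton k)
  · have hm : Measurable (fun p : ℂ × Conf => (Fin.cons p.1 (P0_proj k p.2) : Fin (k + 1) → ℂ)) := by
      refine measurable_pi_lambda _ fun i => ?_
      refine Fin.cases ?_ (fun j => ?_) i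
      · simp only [Fin.cons_zero]
        exact measurable_fst
      · simp only [Fin.cons_succ]
        exact (measurable_pi_apply j).comp ((P0_proj_meas k).comp measurable_snd)
    exact ((P0_mk (k + 1)).comp hm) hT

theorem measurable_mapConf {g : ℂ → ℂ} (hg : Measurable g) : Measurable (mapConf g) := by
  refine P0_out fun k => ?_
  exact (P0_mk k).comp (measurable_pi_lambda _ fun i => hg.comp (measurable_pi_apply i))

theorem measurable_cnt {S : Set ℂ} (hS : MeasurableSet S) : Measurable (cnt S) := by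
  refine P0_out fun k => ?_
  show Measurable fun y : Fin k → ℂ => ∑ i, S.indicator 1 (y i)
  refine Finset.measurable_sum _ fun i _ => ?_
  exact (measurable_one.indicator hS).comp (measurable_pi_apply i)

end MP412
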