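import Pool.Agent.Lib.MP_412417_pr.P0
import Pool.Agent.Lib.MP_412417_pr.P1

/-!
Row 412-P2: the Mecke formula.

Use `lintegral_poisson` on both sides; in degree `k + 1` the sum over `i` gives `k + 1` equal terms
(`measurePreserving_piFinSuccAbove` at `i`; `F ⟨k+1, y⟩ = F (cons (y i) ⟨k, y ∘ i.succAbove⟩)` by `hs`),
and `(k+1) / (k+1)! = 1 / k!`.
-/

set_option autoImplicit false

open MeasureTheory Set
open scoped ENNReal Pointwise

namespace MP412

private theorem P2_mk (k : ℕ) : Measurable (fun y : Fin k → ℂ => (⟨k, y⟩ : Conf)) := by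
  intro T hT
  exact (MeasurableSpace.measurableSet_iInf.1 hT) k

private theorem P2_meas (m : ℕ) {F : Conf → ℝ≥0∞} (hF : Measurable F) :
    Measurable fun p : ℂ × (Fin m → ℂ) => F (cons p.1 ⟨m, p.2⟩) := by
  have h : Measurable fun p : ℂ × (Fin m → ℂ) => (p.1, (⟨m, p.2⟩ : Conf)) :=
    measurable_fst.prodMk ((P2_mk m).comp measurable_snd)
  exact hF.comp (measurable_cons.comp h)

private theorem P2_term (Λ : Measure ℂ) [IsFiniteMeasure Λ] (F : Conf → ℝ≥0∞) (hF : Measurable F)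
    (hs : ∀ c x c', IsIns c x c' → F c = F (cons x c')) (S : Set ℂ) (hS : MeasurableSet S)
    (m : ℕ) (i : Fin (m + 1)) :
    ∫⁻ y : Fin (m + 1) → ℂ, F ⟨m + 1, y⟩ * S.indicator 1 (y i) ∂(Measure.pi fun _ => Λ) =
      ∫⁻ z in S, ∫⁻ w : Fin m → ℂ, F (cons z ⟨m, w⟩) ∂(Measure.pi fun _ => Λ) ∂Λ := by
  have hmp := measurePreserving_piFinSuccAbove (n := m) (α := fun _ => ℂ) (fun _ => Λ) i
  have hf : Measurable fun p : ℂ × (Fin m → ℂ) =>
      F (cons p.1 ⟨m, p.2⟩) * S.indicator 1 p.1 :=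
    (P2_meas m hF).mul ((measurable_one.indicator hS).comp measurable_fst)
  have e1 : ∫⁻ y : Fin (m + 1) → ℂ, F ⟨m + 1, y⟩ * S.indicator 1 (y i)
      ∂(Measure.pi fun _ => Λ) =
      ∫⁻ p : ℂ × (Fin m → ℂ), F (cons p.1 ⟨m, p.2⟩) * S.indicator 1 p.1
        ∂(Λ.prod (Measure.pi fun _ => Λ)) := by
    rw [← hmp.lintegral_comp hf]
    refine lintegral_congr fun y => ?_
    rw [hs ⟨m + 1, y⟩ (y i) ⟨m, fun j => y (i.succAbove j)⟩ ⟨m, i, y, rfl, rfl, rfl⟩]
    rfl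
  rw [e1, lintegral_prod _ hf.aemeasurable, ← lintegral_indicator hS]
  refine lintegral_congr fun z => ?_
  have hz : Measurable fun w : Fin m → ℂ => F (cons z ⟨m, w⟩) :=
    (P2_meas m hF).comp (measurable_const.prodMk measurable_id)
  show ∫⁻ w : Fin m → ℂ, F (cons z ⟨m, w⟩) * S.indicator 1 z ∂(Measure.pi fun _ => Λ) = _
  rw [lintegral_mul_const _ hz]
  by_cases h : z ∈ S
  · rw [indicator_of_mem h, indicator_of_mem h]
    simp
  · rw [indicator_of_notMem h, indicator_of_notMem h, mul_zero]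

/-- the Mecke formula for functions of configurations which do not depend on the order -/
theorem mecke (Λ : Measure ℂ) [IsFiniteMeasure Λ] (F : Conf → ℝ≥0∞) (hF : Measurable F)
    (hs : ∀ c x c', IsIns c x c' → F c = F (cons x c')) (S : Set ℂ) (hS : MeasurableSet S) :
    ∫⁻ c, F c * cnt S c ∂(poisson Λ) = ∫⁻ z in S, ∫⁻ c, F (cons z c) ∂(poisson Λ) ∂Λ := by
  have hcz : ∀ z : ℂ, Measurable fun c : Conf => F (cons z c) := fun z =>
    hF.comp (measurable_cons.comp (measurable_const.prodMk measurable_id))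
  have hin : ∀ m : ℕ, Measurable fun z : ℂ =>
      ∫⁻ w : Fin m → ℂ, F (cons z ⟨m, w⟩) ∂(Measure.pi fun _ => Λ) := fun m =>
    Measurable.lintegral_prod_right' (P2_meas m hF)
  have hFc : Measurable fun c : Conf => F c * cnt S c := hF.mul (measurable_cnt hS)
  rw [lintegral_poisson Λ (fun c : Conf => F c * cnt S c) hFc]
  have e2 : ∫⁻ z in S, ∫⁻ c, F (cons z c) ∂(poisson Λ) ∂Λ =
      ENNReal.ofReal (Real.exp (-(Λ univ).toReal)) * ∑' m : ℕ, ((m.factorial : ℝ≥0∞)⁻¹) *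
        ∫⁻ z in S, ∫⁻ w : Fin m → ℂ, F (cons z ⟨m, w⟩) ∂(Measure.pi fun _ => Λ) ∂Λ := by
    have e3 : ∀ z : ℂ, ∫⁻ c, F (cons z c) ∂(poisson Λ) =
        ENNReal.ofReal (Real.exp (-(Λ univ).toReal)) * ∑' m : ℕ, ((m.factorial : ℝ≥0∞)⁻¹) *
          ∫⁻ w : Fin m → ℂ, F (cons z ⟨m, w⟩) ∂(Measure.pi fun _ => Λ) :=
      fun z => lintegral_poisson Λ _ (hcz z)
    simp only [e3]
    rw [lintegral_const_mul _ (Measurable.ennreal_tsum fun m => (hin m).const_mul _),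
      lintegral_tsum fun m => ((hin m).const_mul _).aemeasurable]
    congr 1
    refine tsum_congr fun m => ?_
    rw [lintegral_const_mul _ (hin m)]
  rw [e2]
  congr 1
  rw [tsum_eq_zero_add' ENNReal.summable]
  have h0 : ((Nat.factorial 0 : ℝ≥0∞)⁻¹) *
      ∫⁻ x : Fin 0 → ℂ, F ⟨0, x⟩ * cnt S ⟨0, x⟩ ∂(Measure.pi fun _ => Λ) = 0 := by
    have : ∀ x : Fin 0 → ℂ, F ⟨0, x⟩ * cnt S ⟨0, x⟩ = 0 := by
      intro x
      have : cnt S ⟨0, x⟩ = 0 := by
        unfold cnt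
        simp
      rw [this, mul_zero]
    simp only [this, lintegral_zero, mul_zero]
  rw [h0, zero_add]
  refine tsum_congr fun m => ?_
  have h1 : ∫⁻ x : Fin (m + 1) → ℂ, F ⟨m + 1, x⟩ * cnt S ⟨m + 1, x⟩ ∂(Measure.pi fun _ => Λ) =
      ((m + 1 : ℕ) : ℝ≥0∞) *
        ∫⁻ z in S, ∫⁻ w : Fin m → ℂ, F (cons z ⟨m, w⟩) ∂(Measure.pi fun _ => Λ) ∂Λ := by
    have h2 : ∀ x : Fin (m + 1) → ℂ, F ⟨m + 1, x⟩ * cnt S ⟨m + 1, x⟩ =
        ∑ i : Fin (m + 1), F ⟨m + 1, x⟩ * S.indicator 1 (x i) := by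
      intro x
      unfold cnt
      rw [Finset.mul_sum]
    simp only [h2]
    rw [lintegral_finsetSum _ fun i _ => ?_]
    · simp only [P2_term Λ F hF hs S hS m]
      rw [Finset.sum_const, Finset.card_univ, Fintype.card_fin, nsmul_eq_mul]
    · exact (hF.comp (P2_mk (m + 1))).mul
        ((measurable_one.indicator hS).comp (measurable_pi_apply i))
  rw [h1, ← mul_assoc]
  congr 1
  rw [Nat.factorial_succ, Nat.cast_mul, ENNReal.mul_inv (Or.inl (by positivity))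
    (Or.inl (ENNReal.natCast_ne_top _)), mul_comm, ← mul_assoc,
    ENNReal.mul_inv_cancel (by positivity) (ENNReal.natCast_ne_top _), one_mul]

end MP412
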