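import Pool.Agent.Lib.MP_412417_pr.P0
import Pool.Agent.Lib.MP_412417_pr.P1

/-!
Row 412-P3: union bounds for points and pairs of points.

For the pair bound replace `T` by its measurable hull; in degree `k + 2` the event is contained in the
union over `i : Fin (k+2)`, `j : Fin (k+1)` of the sets `{y | (y i, y (i.succAbove j)) ∈ S, rest ∈ T}`, each of measure
`(Λ.prod Λ) S * (pi Λ) {x | ⟨k, x⟩ ∈ T}` (twice `measurePreserving_piFinSuccAbove`), and
`(k+2)(k+1)/(k+2)! = 1/k!`. It may be convenient to prove a one point version for measurable sets of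
`ℂ × Conf` first, and to use it twice.
-/

set_option autoImplicit false

open MeasureTheory Set
open scoped ENNReal Pointwise

namespace MP412

private theorem P3_meas_conf {S : Set Conf}
    (h : ∀ k, MeasurableSet {z : Fin k → ℂ | (⟨k, z⟩ : Conf) ∈ S}) : MeasurableSet S := by
  refine (MeasurableSpace.measurableSet_iInf).2 ?_
  intro k
  exact h k

private noncomputable def P3_g (k : ℕ) (c : Conf) : Fin k → ℂ :=
  if h : c.1 = k then fun i => c.2 (Fin.cast h.symm i) else 0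

private theorem P3_g_mk (k : ℕ) (z : Fin k → ℂ) : P3_g k ⟨k, z⟩ = z := by
  simp [P3_g]

private theorem P3_meas_g (k : ℕ) : Measurable (P3_g k) := by
  intro s hs
  apply P3_meas_conf
  intro j
  by_cases h : j = k
  · subst h
    have : {z : Fin j → ℂ | (⟨j, z⟩ : Conf) ∈ P3_g j ⁻¹' s} = s := by
      ext z
      simp [P3_g_mk]
    rw [this]
    exact hs
  · by_cases h0 : (0 : Fin k → ℂ) ∈ s
    · have : {z : Fin j → ℂ | (⟨j, z⟩ : Conf) ∈ P3_g k ⁻¹' s} = univ := by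
        ext z
        simp [P3_g, h, h0]
      rw [this]
      exact MeasurableSet.univ
    · have : {z : Fin j → ℂ | (⟨j, z⟩ : Conf) ∈ P3_g k ⁻¹' s} = ∅ := by
        ext z
        simp [P3_g, h, h0]
      rw [this]
      exact MeasurableSet.empty

private theorem P3_meas_prod {W : Set (ℂ × Conf)}
    (h : ∀ k, MeasurableSet {p : ℂ × (Fin k → ℂ) | (p.1, (⟨k, p.2⟩ : Conf)) ∈ W}) :
    MeasurableSet W := by
  have h1 : W = ⋃ k : ℕ, ({p : ℂ × Conf | p.2.1 = k} ∩
      ((fun p : ℂ × Conf => (p.1, P3_g k p.2)) ⁻¹'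
        {p : ℂ × (Fin k → ℂ) | (p.1, (⟨k, p.2⟩ : Conf)) ∈ W})) := by
    ext ⟨x, j, z⟩
    simp only [mem_iUnion, mem_inter_iff, mem_ofPred_eq, mem_preimage]
    constructor
    · intro hw
      refine ⟨j, rfl, ?_⟩
      rw [P3_g_mk]
      exact hw
    · rintro ⟨k, hk, hw⟩
      subst hk
      rw [P3_g_mk] at hw
      exact hw
  rw [h1]
  refine MeasurableSet.iUnion fun k => MeasurableSet.inter ?_ ?_
  · have h2 : MeasurableSet {c : Conf | c.1 = k} := by
      apply P3_meas_conf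
      intro j
      by_cases hj : j = k
      · simp [hj]
      · simp [hj]
    exact measurable_snd h2
  · exact (measurable_fst.prodMk ((P3_meas_g k).comp measurable_snd)) (h k)

/-- the event -/
private def P3_F (W : Set (ℂ × Conf)) : Set Conf :=
  {c | ∃ x c', IsIns c x c' ∧ (x, c') ∈ W}

private theorem P3_F_zero (W : Set (ℂ × Conf)) :
    {z : Fin 0 → ℂ | (⟨0, z⟩ : Conf) ∈ P3_F W} = ∅ := by
  ext z
  simp only [P3_F, mem_ofPred_eq, mem_empty_iff_false, iff_false]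
  rintro ⟨x, c', ⟨k, i, y, h1, h2, h3⟩, h4⟩
  have := congrArg Sigma.fst h1
  simp at this

private theorem P3_F_succ (W : Set (ℂ × Conf)) (k : ℕ) :
    {z : Fin (k + 1) → ℂ | (⟨k + 1, z⟩ : Conf) ∈ P3_F W} =
      ⋃ i : Fin (k + 1), {z : Fin (k + 1) → ℂ |
        (z i, (⟨k, fun j => z (i.succAbove j)⟩ : Conf)) ∈ W} := by
  ext z
  simp only [P3_F, mem_ofPred_eq, mem_iUnion]
  constructor
  · rintro ⟨x, c', ⟨k', i, y, h1, h2, h3⟩, h4⟩
    have hk := congrArg Sigma.fst h1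
    simp only [Nat.add_right_cancel_iff] at hk
    subst hk
    have hy : z = y := eq_of_heq (Sigma.mk.inj h1).2
    subst hy
    refine ⟨i, ?_⟩
    rw [← h2, ← h3]
    exact h4
  · rintro ⟨i, hi⟩
    exact ⟨_, _, ⟨k, i, z, rfl, rfl, rfl⟩, hi⟩

private theorem P3_slice_eq (W : Set (ℂ × Conf)) (k : ℕ) (i : Fin (k + 1)) :
    {z : Fin (k + 1) → ℂ | (z i, (⟨k, fun j => z (i.succAbove j)⟩ : Conf)) ∈ W} =
      (MeasurableEquiv.piFinSuccAbove (fun _ : Fin (k + 1) => ℂ) i) ⁻¹'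
        {p : ℂ × (Fin k → ℂ) | (p.1, (⟨k, p.2⟩ : Conf)) ∈ W} := by
  rfl

private theorem P3_meas_sec {W : Set (ℂ × Conf)} (hW : MeasurableSet W) (k : ℕ) :
    MeasurableSet {p : ℂ × (Fin k → ℂ) | (p.1, (⟨k, p.2⟩ : Conf)) ∈ W} := by
  have h1 : Measurable (fun z : Fin k → ℂ => (⟨k, z⟩ : Conf)) := by
    intro s hs
    exact (MeasurableSpace.measurableSet_iInf.1 hs) k
  exact (measurable_fst.prodMk (h1.comp measurable_snd)) hW

private theorem P3_meas_F {W : Set (ℂ × Conf)} (hW : MeasurableSet W) :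
    MeasurableSet (P3_F W) := by
  apply P3_meas_conf
  intro k
  cases k with
  | zero => rw [P3_F_zero]; exact MeasurableSet.empty
  | succ k =>
    rw [P3_F_succ]
    refine MeasurableSet.iUnion fun i => ?_
    rw [P3_slice_eq]
    exact (MeasurableEquiv.measurable _) (P3_meas_sec hW k)

private theorem P3_one (Λ : Measure ℂ) [IsFiniteMeasure Λ] {W : Set (ℂ × Conf)}
    (hW : MeasurableSet W) : poisson Λ (P3_F W) ≤ (Λ.prod (poisson Λ)) W := by
  have hR : (Λ.prod (poisson Λ)) W = ENNReal.ofReal (Real.exp (-(Λ univ).toReal)) *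
      ∑' k : ℕ, ((k.factorial : ℝ≥0∞)⁻¹) *
        (Λ.prod (Measure.pi fun _ : Fin k => Λ))
          {p : ℂ × (Fin k → ℂ) | (p.1, (⟨k, p.2⟩ : Conf)) ∈ W} := by
    rw [Measure.prod_apply hW]
    have h1 : ∀ x : ℂ, poisson Λ (Prod.mk x ⁻¹' W) =
        ENNReal.ofReal (Real.exp (-(Λ univ).toReal)) *
        ∑' k : ℕ, ((k.factorial : ℝ≥0∞)⁻¹) * (Measure.pi fun _ : Fin k => Λ)
          (Prod.mk x ⁻¹' {p : ℂ × (Fin k → ℂ) | (p.1, (⟨k, p.2⟩ : Conf)) ∈ W}) := by
      intro x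
      rw [poisson_apply Λ _ (measurable_prodMk_left hW)]
      rfl
    simp_rw [h1]
    have hm : ∀ k : ℕ, Measurable fun x : ℂ => (Measure.pi fun _ : Fin k => Λ)
          (Prod.mk x ⁻¹' {p : ℂ × (Fin k → ℂ) | (p.1, (⟨k, p.2⟩ : Conf)) ∈ W}) := fun k =>
      measurable_measure_prodMk_left (P3_meas_sec hW k)
    rw [lintegral_const_mul _ (Measurable.tsum fun k => (hm k).const_mul _)]
    congr 1
    rw [lintegral_tsum fun k => ((hm k).const_mul _).aemeasurable]
    congr 1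
    funext k
    rw [lintegral_const_mul _ (hm k), Measure.prod_apply (P3_meas_sec hW k)]
  rw [hR, poisson_apply Λ _ (P3_meas_F hW)]
  refine mul_le_mul_right ?_ _
  rw [tsum_eq_zero_add' ENNReal.summable, P3_F_zero]
  simp only [measure_empty, mul_zero, zero_add]
  refine ENNReal.tsum_le_tsum fun k => ?_
  rw [P3_F_succ]
  have h2 : ∀ i : Fin (k + 1), (Measure.pi fun _ : Fin (k + 1) => Λ)
      {z : Fin (k + 1) → ℂ | (z i, (⟨k, fun j => z (i.succAbove j)⟩ : Conf)) ∈ W} =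
      (Λ.prod (Measure.pi fun _ : Fin k => Λ))
          {p : ℂ × (Fin k → ℂ) | (p.1, (⟨k, p.2⟩ : Conf)) ∈ W} := by
    intro i
    rw [P3_slice_eq]
    exact (measurePreserving_piFinSuccAbove (fun _ : Fin (k + 1) => Λ) i).measure_preimage
      (P3_meas_sec hW k).nullMeasurableSet
  calc (((k + 1).factorial : ℝ≥0∞)⁻¹) * (Measure.pi fun _ : Fin (k + 1) => Λ)
        (⋃ i : Fin (k + 1), {z : Fin (k + 1) → ℂ |
        (z i, (⟨k, fun j => z (i.succAbove j)⟩ : Conf)) ∈ W})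
      ≤ (((k + 1).factorial : ℝ≥0∞)⁻¹) * ∑ i : Fin (k + 1),
          (Measure.pi fun _ : Fin (k + 1) => Λ) {z : Fin (k + 1) → ℂ |
        (z i, (⟨k, fun j => z (i.succAbove j)⟩ : Conf)) ∈ W} := by
        gcongr
        exact measure_iUnion_fintype_le _ _
    _ = (((k + 1).factorial : ℝ≥0∞)⁻¹) * ((k + 1 : ℕ) *
          (Λ.prod (Measure.pi fun _ : Fin k => Λ))
          {p : ℂ × (Fin k → ℂ) | (p.1, (⟨k, p.2⟩ : Conf)) ∈ W}) := by
        simp_rw [h2]
        simp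
    _ = ((k.factorial : ℝ≥0∞)⁻¹) * (Λ.prod (Measure.pi fun _ : Fin k => Λ))
          {p : ℂ × (Fin k → ℂ) | (p.1, (⟨k, p.2⟩ : Conf)) ∈ W} := by
        rw [← mul_assoc]
        congr 1
        rw [Nat.factorial_succ, Nat.cast_mul, ENNReal.mul_inv (by simp) (by simp), mul_right_comm,
          ENNReal.inv_mul_cancel (by simp) (by simp), one_mul]
    _ ≤ _ := le_rfl

theorem point_le (Λ : Measure ℂ) [IsFiniteMeasure Λ] (S : Set ℂ) (hS : MeasurableSet S) :
    poisson Λ {c | ∃ x ∈ pts c, x ∈ S} ≤ Λ S := by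
  have h1 : {c : Conf | ∃ x ∈ pts c, x ∈ S} ⊆ P3_F (S ×ˢ univ) := by
    rintro ⟨k, y⟩ ⟨x, ⟨i, hi⟩, hx⟩
    cases k with
    | zero => exact i.elim0
    | succ k =>
      refine ⟨x, ⟨k, fun j => y (i.succAbove j)⟩, ⟨k, i, y, rfl, hi.symm, rfl⟩, hx, trivial⟩
  calc poisson Λ {c | ∃ x ∈ pts c, x ∈ S} ≤ poisson Λ (P3_F (S ×ˢ univ)) := measure_mono h1
    _ ≤ (Λ.prod (poisson Λ)) (S ×ˢ univ) := P3_one Λ (hS.prod MeasurableSet.univ)
    _ = Λ S := by rw [Measure.prod_prod, measure_univ, mul_one]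

theorem pair_le (Λ : Measure ℂ) [IsFiniteMeasure Λ] (S : Set (ℂ × ℂ)) (hS : MeasurableSet S)
    (T : Set Conf) :
    poisson Λ {c | ∃ x y c' c'', IsIns c x c'' ∧ IsIns c'' y c' ∧ (x, y) ∈ S ∧ c' ∈ T} ≤
      (Λ.prod Λ) S * poisson Λ T := by
  set T' := toMeasurable (poisson Λ) T with hT'
  have hT'm : MeasurableSet T' := measurableSet_toMeasurable _ _
  let W : Set (ℂ × Conf) := {p | p.2 ∈ P3_F ((Prod.mk p.1 ⁻¹' S) ×ˢ T')}
  have hWm : MeasurableSet W := by
    apply P3_meas_prod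
    intro k
    cases k with
    | zero =>
      have : {p : ℂ × (Fin 0 → ℂ) | (p.1, (⟨0, p.2⟩ : Conf)) ∈ W} = ∅ := by
        ext p
        simp only [mem_ofPred_eq, mem_empty_iff_false, iff_false]
        intro hp
        have : p.2 ∈ {z : Fin 0 → ℂ | (⟨0, z⟩ : Conf) ∈ P3_F ((Prod.mk p.1 ⁻¹' S) ×ˢ T')} := hp
        rw [P3_F_zero] at this
        exact this
      rw [this]
      exact MeasurableSet.empty
    | succ k =>
      have : {p : ℂ × (Fin (k + 1) → ℂ) | (p.1, (⟨k + 1, p.2⟩ : Conf)) ∈ W} =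
          ⋃ i : Fin (k + 1), ({p : ℂ × (Fin (k + 1) → ℂ) | (p.1, p.2 i) ∈ S} ∩
            {p : ℂ × (Fin (k + 1) → ℂ) | (⟨k, fun j => p.2 (i.succAbove j)⟩ : Conf) ∈ T'}) := by
        ext p
        have h1 : (p ∈ {p : ℂ × (Fin (k + 1) → ℂ) | (p.1, (⟨k + 1, p.2⟩ : Conf)) ∈ W}) ↔
          p.2 ∈ {z : Fin (k + 1) → ℂ | (⟨k + 1, z⟩ : Conf) ∈
            P3_F ((Prod.mk p.1 ⁻¹' S) ×ˢ T')} := Iff.rfl
        rw [h1, P3_F_succ]
        simp only [mem_iUnion, mem_ofPred_eq, mem_inter_iff, mem_prod, mem_preimage]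
      rw [this]
      refine MeasurableSet.iUnion fun i => MeasurableSet.inter ?_ ?_
      · exact (measurable_fst.prodMk ((measurable_pi_apply i).comp measurable_snd)) hS
      · have h1 : Measurable (fun z : Fin k → ℂ => (⟨k, z⟩ : Conf)) := by
          intro s hs
          exact (MeasurableSpace.measurableSet_iInf.1 hs) k
        have h2 : Measurable fun p : ℂ × (Fin (k + 1) → ℂ) =>
            (fun j => p.2 (i.succAbove j) : Fin k → ℂ) :=
          measurable_pi_lambda _ fun j => (measurable_pi_apply _).comp measurable_snd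
        exact (h1.comp h2) hT'm
  have h1 : {c : Conf | ∃ x y c' c'', IsIns c x c'' ∧ IsIns c'' y c' ∧ (x, y) ∈ S ∧ c' ∈ T} ⊆
      P3_F W := by
    rintro c ⟨x, y, c', c'', hc, hc', hxy, hT⟩
    exact ⟨x, c'', hc, y, c', hc', hxy, subset_toMeasurable _ _ hT⟩
  calc poisson Λ {c | ∃ x y c' c'', IsIns c x c'' ∧ IsIns c'' y c' ∧ (x, y) ∈ S ∧ c' ∈ T}
      ≤ poisson Λ (P3_F W) := measure_mono h1
    _ ≤ (Λ.prod (poisson Λ)) W := P3_one Λ hWm
    _ = ∫⁻ x, poisson Λ (Prod.mk x ⁻¹' W) ∂Λ := Measure.prod_apply hWm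
    _ ≤ ∫⁻ x, Λ (Prod.mk x ⁻¹' S) * poisson Λ T ∂Λ := by
        refine lintegral_mono fun x => ?_
        have h2 := P3_one Λ (W := (Prod.mk x ⁻¹' S) ×ˢ T')
          ((measurable_prodMk_left hS).prod hT'm)
        rw [Measure.prod_prod, hT', measure_toMeasurable] at h2
        exact h2
    _ = (Λ.prod Λ) S * poisson Λ T := by
        rw [lintegral_mul_const _ (measurable_measure_prodMk_left hS), Measure.prod_apply hS]

end MP412
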