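import Pool.Agent.Lib.MP_412417_pr.P2

/-!
Row 412-P4a: moments of products of counts in disjoint sets.

Induction on `J` with `mecke` (the function `∏ cnt (S p)` over the other indices does not see a point of
`S p₀`, by disjointness; it does not depend on the order by `IsIns.cnt_eq`). For the squares use `mecke`
twice.
-/

set_option autoImplicit false

open MeasureTheory Set
open scoped ENNReal Pointwise

namespace MP412

private theorem P4a_cnt_cons (S : Set ℂ) (z : ℂ) (c : Conf) :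
    cnt S (cons z c) = S.indicator 1 z + cnt S c := (isIns_cons z c).cnt_eq S

private theorem P4a_one (Λ : Measure ℂ) [IsFiniteMeasure Λ] (G : Conf → ℝ≥0∞) (hG : Measurable G)
    (hs : ∀ c x c', IsIns c x c' → G c = G (cons x c')) (S : Set ℂ) (hS : MeasurableSet S)
    (hz : ∀ z ∈ S, ∀ c, G (cons z c) = G c) :
    ∫⁻ c, G c * cnt S c ∂(poisson Λ) = Λ S * ∫⁻ c, G c ∂(poisson Λ) := by
  rw [mecke Λ G hG hs S hS, setLIntegral_congr_fun (g := fun _ => ∫⁻ c, G c ∂(poisson Λ)) hS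
    (fun z hzS => lintegral_congr fun c => hz z hzS c), setLIntegral_const, mul_comm]

private theorem P4a_two (Λ : Measure ℂ) [IsFiniteMeasure Λ] (G : Conf → ℝ≥0∞) (hG : Measurable G)
    (hs : ∀ c x c', IsIns c x c' → G c = G (cons x c')) (S : Set ℂ) (hS : MeasurableSet S)
    (hz : ∀ z ∈ S, ∀ c, G (cons z c) = G c) :
    ∫⁻ c, G c * cnt S c ^ 2 ∂(poisson Λ) = (Λ S ^ 2 + Λ S) * ∫⁻ c, G c ∂(poisson Λ) := by
  have h1 : ∀ c, G c * cnt S c ^ 2 = (G c * cnt S c) * cnt S c := fun c => by ring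
  simp only [h1]
  rw [mecke Λ (fun c => G c * cnt S c) (hG.mul (measurable_cnt hS)) (fun c x c' h => by
    rw [hs c x c' h, h.cnt_eq S, P4a_cnt_cons]) S hS]
  have h2 : ∀ z ∈ S, ∫⁻ c, G (cons z c) * cnt S (cons z c) ∂(poisson Λ) =
      ∫⁻ c, G c ∂(poisson Λ) + Λ S * ∫⁻ c, G c ∂(poisson Λ) := by
    intro z hzS
    rw [← P4a_one Λ G hG hs S hS hz, ← lintegral_add_left hG]
    refine lintegral_congr fun c => ?_
    rw [hz z hzS, P4a_cnt_cons, indicator_of_mem hzS, Pi.one_apply]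
    ring
  rw [setLIntegral_congr_fun (g := fun _ => ∫⁻ c, G c ∂(poisson Λ) +
    Λ S * ∫⁻ c, G c ∂(poisson Λ)) hS h2, setLIntegral_const]
  ring

private theorem P4a_prod {ι : Type} (S : ι → Set ℂ) (hS : ∀ i, MeasurableSet (S i)) (n : ℕ)
    (J : Finset ι) :
    Measurable (fun c => ∏ p ∈ J, cnt (S p) c ^ n) ∧
      (∀ c x c', IsIns c x c' → ∏ p ∈ J, cnt (S p) c ^ n = ∏ p ∈ J, cnt (S p) (cons x c') ^ n) ∧
      ∀ z, (∀ p ∈ J, z ∉ S p) → ∀ c, ∏ p ∈ J, cnt (S p) (cons z c) ^ n =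
        ∏ p ∈ J, cnt (S p) c ^ n := by
  refine ⟨Finset.measurable_fun_prod _ fun p _ => (measurable_cnt (hS p)).pow_const n,
    fun c x c' h => Finset.prod_congr rfl fun p _ => ?_,
    fun z hz c => Finset.prod_congr rfl fun p hp => ?_⟩
  · rw [h.cnt_eq, P4a_cnt_cons]
  · rw [P4a_cnt_cons, indicator_of_notMem (hz p hp), zero_add]

theorem moment_one (Λ : Measure ℂ) [IsFiniteMeasure Λ] {ι : Type} (S : ι → Set ℂ)
    (hS : ∀ i, MeasurableSet (S i)) (hd : ∀ i j, i ≠ j → Disjoint (S i) (S j)) (J : Finset ι) :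
    ∫⁻ c, ∏ p ∈ J, cnt (S p) c ∂(poisson Λ) = ∏ p ∈ J, Λ (S p) := by
  classical
  induction J using Finset.induction_on with
  | empty => simp
  | insert a J ha ih =>
    obtain ⟨h1, h2, h3⟩ := P4a_prod S hS 1 J
    simp only [pow_one] at h1 h2 h3
    have h4 : ∀ c, ∏ p ∈ insert a J, cnt (S p) c = (∏ p ∈ J, cnt (S p) c) * cnt (S a) c :=
      fun c => by rw [Finset.prod_insert ha, mul_comm]
    simp only [h4]
    rw [P4a_one Λ _ h1 h2 (S a) (hS a) (fun z hz => h3 z fun p hp hzp => by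
      have h5 : a ≠ p := fun h => ha (h ▸ hp)
      exact Set.disjoint_left.1 (hd a p h5) hz hzp), ih, Finset.prod_insert ha]

theorem moment_two (Λ : Measure ℂ) [IsFiniteMeasure Λ] {ι : Type} (S : ι → Set ℂ)
    (hS : ∀ i, MeasurableSet (S i)) (hd : ∀ i j, i ≠ j → Disjoint (S i) (S j)) (J : Finset ι) :
    ∫⁻ c, ∏ p ∈ J, cnt (S p) c ^ 2 ∂(poisson Λ) = ∏ p ∈ J, (Λ (S p) ^ 2 + Λ (S p)) := by
  classical
  induction J using Finset.induction_on with
  | empty => simp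
  | insert a J ha ih =>
    obtain ⟨h1, h2, h3⟩ := P4a_prod S hS 2 J
    have h4 : ∀ c, ∏ p ∈ insert a J, cnt (S p) c ^ 2 =
        (∏ p ∈ J, cnt (S p) c ^ 2) * cnt (S a) c ^ 2 :=
      fun c => by rw [Finset.prod_insert ha, mul_comm]
    simp only [h4]
    rw [P4a_two Λ _ h1 h2 (S a) (hS a) (fun z hz => h3 z fun p hp hzp => by
      have h5 : a ≠ p := fun h => ha (h ▸ hp)
      exact Set.disjoint_left.1 (hd a p h5) hz hzp), ih, Finset.prod_insert ha]

end MP412
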