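import Mathlib

/-!
# The pieces of which the domains are built
-/

set_option autoImplicit false

open MeasureTheory Set
open scoped ENNReal

namespace MP412

/-- The pieces: compact sets `L` of one of the following two kinds.
(1) `L` is the image of a convex body `C` (compact, convex, with interior points) under a map which
is conformal (injective, holomorphic, with nonvanishing derivative) on an open set containing `C`;
so convex bodies and all closed Jordan domains with analytic boundary are pieces.
(2) For some `c > 0` every closed disc of radius at most `c` meets `L` in a connected (or empty) set,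
and for `0 < s ≤ 1` the open `s`-neighbourhood of the boundary of `L` has area at most `s / c`. -/
def Piece (L : Set ℂ) : Prop :=
  IsCompact L ∧
    ((∃ (C G : Set ℂ) (f : ℂ → ℂ), IsCompact C ∧ Convex ℝ C ∧ (interior C).Nonempty ∧ IsOpen G ∧
        C ⊆ G ∧ DifferentiableOn ℂ f G ∧ InjOn f G ∧ (∀ z ∈ G, deriv f z ≠ 0) ∧ L = f '' C) ∨
      (∃ c > 0, (∀ x s, s ≤ c → IsPreconnected (Metric.closedBall x s ∩ L)) ∧
        ∀ s, 0 < s → s ≤ 1 →
          volume (Metric.thickening s (frontier L)) ≤ ENNReal.ofReal (s / c)))

end MP412
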