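import Mathlib

/-!
# Boolean percolation in the plane: the definitions of the statement
-/

set_option autoImplicit false

open MeasureTheory Set
open scoped ENNReal Pointwise

namespace MP412

/-- Finite configurations of points of the plane: the points of `c` are `c.2 0, …, c.2 (c.1 - 1)`. -/
abbrev Conf : Type := Σ k : ℕ, (Fin k → ℂ)

/-- the set of the points of a configuration -/
def pts (c : Conf) : Set ℂ := Set.range c.2

/-- The law of the Poisson point process in the plane with finite intensity measure `Λ`: the
configurations with `k` points have the law `exp (- Λ(ℂ)) Λ ^ k / k!`. -/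
noncomputable def poisson (Λ : Measure ℂ) : Measure Conf :=
  ENNReal.ofReal (Real.exp (-(Λ univ).toReal)) • Measure.sum fun k : ℕ =>
    ((k.factorial : ℝ≥0∞)⁻¹) • (Measure.pi fun _ : Fin k => Λ).map (Sigma.mk k)

/-- Some connected component of `S ∩ K` meets both `A` and `B`. -/
def Crosses (S K A B : Set ℂ) : Prop :=
  ∃ C : Set ℂ, C ⊆ S ∩ K ∧ IsPreconnected C ∧ (C ∩ A).Nonempty ∧ (C ∩ B).Nonempty

/-- The crossing probability `P_n` of Boolean percolation with intensity `1` and radius `r`: the
probability that some connected component of `Ŵ_r ∩ nK` meets both `nA` and `nB`. (Only the points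
of the Poisson process at distance at most `r` from `nK` matter, so the process is restricted to
this set.) -/
noncomputable def P (r n : ℝ) (K A B : Set ℂ) : ℝ :=
  (poisson (volume.restrict (Metric.cthickening r (n • K)))).real
    {c | Crosses (⋃ x ∈ pts c, Metric.closedBall x r) (n • K) (n • A) (n • B)}

/-- The crossing probability of `K` from `A` to `B` for the Boolean model of density `ρ` at scale
`n`: the Poisson process on `N` has the intensity `(n ρ(x))²` and the disc with centre `x` has the
radius `r / (n ρ(x))`. -/
noncomputable def Pdens (ρ : ℂ → ℝ) (N : Set ℂ) (r n : ℝ) (K A B : Set ℂ) : ℝ :=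
  (poisson ((volume.restrict N).withDensity fun x => ENNReal.ofReal ((n * ρ x) ^ 2))).real
    {c | Crosses (⋃ x ∈ pts c, Metric.closedBall x (r / (n * ρ x))) K A B}

end MP412
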